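import Mathlib

/-!
# Frobenius elements which flip one pair of Weil numbers
-/

set_option autoImplicit false

namespace Pool.Agent.W521.Frob

open Polynomial NumberField

/-- Existence of a Frobenius element. -/
theorem exists_frob_aux (L : Type*) [Field L] [NumberField L] [IsGalois ℚ L] (l : ℕ)
    (hl : l.Prime) :
    ∃ (Q : Ideal (𝓞 L)) (_ : Q.IsMaximal) (_ : CharP (𝓞 L ⧸ Q) l) (σ : Gal(L/ℚ)),
      ∀ x : 𝓞 L, Ideal.Quotient.mk Q (σ • x) = Ideal.Quotient.mk Q x ^ l := by
  have : Fact l.Prime := ⟨hl⟩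
  have hmax : (Ideal.span {(l : ℤ)}).IsMaximal := by
    apply PrincipalIdealRing.isMaximal_of_irreducible
    exact (Nat.prime_iff_prime_int.1 hl).irreducible
  obtain ⟨Q, hQ, hQl⟩ := Ideal.exists_maximal_ideal_liesOver_of_isIntegral (S := 𝓞 L)
    (Ideal.span {(l : ℤ)})
  have hunder : Q.under ℤ = Ideal.span {(l : ℤ)} := (hQl.over).symm
  have hmem : ((l : ℕ) : 𝓞 L) ∈ Q := by
    have h1 : (l : ℤ) ∈ Q.under ℤ := by
      rw [hunder]
      exact Ideal.mem_span_singleton_self _
    rw [Ideal.under_def, Ideal.mem_comap] at h1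
    simpa using h1
  have hchar : CharP (𝓞 L ⧸ Q) l := by
    rw [CharP.charP_iff_prime_eq_zero hl, ← map_natCast (Ideal.Quotient.mk Q),
      Ideal.Quotient.eq_zero_iff_mem]
    exact hmem
  have hQ0 : Q ≠ ⊥ := by
    rintro rfl
    rw [Ideal.mem_bot] at hmem
    exact hl.ne_zero (by exact_mod_cast hmem)
  have : Finite (𝓞 L ⧸ Q) := Ring.HasFiniteQuotients.finiteQuotient hQ0
  obtain ⟨σ, hσ⟩ := IsArithFrobAt.exists_of_isInvariant ℤ Gal(L/ℚ) Q
  refine ⟨Q, hQ, hchar, σ, fun x => ?_⟩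
  have h1 := hσ x
  rw [← Ideal.Quotient.eq, map_pow] at h1
  rw [hunder] at h1
  have h2 : Nat.card (ℤ ⧸ Ideal.span {(l : ℤ)}) = l := by
    rw [Int.card_ideal_quot]
  rw [h2] at h1
  exact h1

universe u

/-- Existence of a Frobenius element, in terms of a homomorphism to a field. -/
theorem exists_frob (L : Type u) [Field L] [NumberField L] [IsGalois ℚ L] (l : ℕ)
    (hl : l.Prime) :
    ∃ (k : Type u) (_ : Field k) (_ : CharP k l) (φ : 𝓞 L →+* k) (σ : Gal(L/ℚ)),
      ∀ x : 𝓞 L, φ (σ • x) = φ x ^ l := by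
  obtain ⟨Q, hQ, hchar, σ, hσ⟩ := exists_frob_aux L l hl
  exact ⟨𝓞 L ⧸ Q, Ideal.Quotient.field Q, hchar, Ideal.Quotient.mk Q, σ, hσ⟩

/-- The polynomial `x ^ g * h (x + q / x)`, `g` the degree of `h`. -/
noncomputable def weil (q : ℕ) (h : ℤ[X]) : ℤ[X] :=
  ∑ j ∈ Finset.range (h.natDegree + 1),
    C (h.coeff j) * ((X ^ 2 + C (q : ℤ)) ^ j * X ^ (h.natDegree - j))

theorem aeval_weil {A : Type*} [CommRing A] (q : ℕ) (h : ℤ[X]) (α θ : A)
    (hθ : α ^ 2 + q = θ * α) : aeval α (weil q h) = α ^ h.natDegree * aeval θ h := by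
  unfold weil
  rw [map_sum]
  conv_rhs => rw [aeval_eq_sum_range, Finset.mul_sum]
  refine Finset.sum_congr rfl fun j hj => ?_
  have hj' : j ≤ h.natDegree := by
    have := Finset.mem_range.1 hj
    omega
  simp only [map_mul, map_pow, map_add, aeval_X, aeval_C]
  rw [eq_intCast (algebraMap ℤ A), eq_intCast (algebraMap ℤ A), Int.cast_natCast, hθ, mul_pow,
    zsmul_eq_mul]
  have h1 : α ^ h.natDegree = α ^ j * α ^ (h.natDegree - j) := by
    rw [← pow_add, Nat.add_sub_cancel' hj']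
  rw [h1]
  ring

theorem weil_natDegree_le (q : ℕ) (h : ℤ[X]) : (weil q h).natDegree ≤ 2 * h.natDegree := by
  unfold weil
  refine natDegree_sum_le_of_forall_le _ _ fun j hj => ?_
  have hj' : j ≤ h.natDegree := by
    have := Finset.mem_range.1 hj
    omega
  refine (natDegree_C_mul_le _ _).trans ?_
  refine natDegree_mul_le.trans ?_
  have h1 : ((X ^ 2 + C (q : ℤ)) ^ j : ℤ[X]).natDegree ≤ j * 2 := by
    refine natDegree_pow_le.trans ?_
    refine Nat.mul_le_mul_left _ ?_
    compute_degree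
  rw [natDegree_X_pow]
  omega

theorem weil_coeff (q : ℕ) (h : ℤ[X]) : (weil q h).coeff (2 * h.natDegree) = h.leadingCoeff := by
  unfold weil
  rw [finsetSum_coeff, Finset.sum_range_succ, Finset.sum_eq_zero, zero_add, coeff_C_mul,
    Nat.sub_self, pow_zero, mul_one]
  · have h1 : ((X ^ 2 + C (q : ℤ)) ^ h.natDegree : ℤ[X]).Monic :=
      (monic_X_pow_add_C _ two_ne_zero).pow _
    have h2 : ((X ^ 2 + C (q : ℤ)) ^ h.natDegree : ℤ[X]).natDegree = 2 * h.natDegree := by
      rw [(monic_X_pow_add_C _ two_ne_zero).natDegree_pow, natDegree_X_pow_add_C, mul_comm]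
    rw [← h2, h1.coeff_natDegree, mul_one]
    rfl
  · intro j hj
    have hj' : j < h.natDegree := Finset.mem_range.1 hj
    rw [coeff_C_mul]
    refine mul_eq_zero_of_right _ (coeff_eq_zero_of_natDegree_lt ?_)
    refine lt_of_le_of_lt natDegree_mul_le ?_
    have h1 : ((X ^ 2 + C (q : ℤ)) ^ j : ℤ[X]).natDegree ≤ j * 2 := by
      refine natDegree_pow_le.trans ?_
      refine Nat.mul_le_mul_left _ ?_
      compute_degree
    rw [natDegree_X_pow]
    omega

theorem weil_monic (q : ℕ) {h : ℤ[X]} (hm : h.Monic) : (weil q h).Monic :=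
  monic_of_natDegree_le_of_coeff_eq_one _ (weil_natDegree_le q h) (by rw [weil_coeff, hm])

theorem weil_natDegree (q : ℕ) {h : ℤ[X]} (hm : h.Monic) :
    (weil q h).natDegree = 2 * h.natDegree := by
  refine le_antisymm (weil_natDegree_le q h) (le_natDegree_of_ne_zero ?_)
  rw [weil_coeff, hm.leadingCoeff]
  exact one_ne_zero

theorem root_ne_zero {K : Type*} [Field K] [CharZero K] {q : ℕ} (hq : q ≠ 0) {h : ℤ[X]}
    (hm : h.Monic) {α : K} (hα : aeval α (weil q h) = 0) : α ≠ 0 := by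
  rintro rfl
  unfold weil at hα
  rw [map_sum, Finset.sum_range_succ, Finset.sum_eq_zero, zero_add] at hα
  · simp only [map_mul, map_pow, map_add, aeval_X, aeval_C, Nat.sub_self, pow_zero, mul_one,
      coeff_natDegree, hm.leadingCoeff, map_one, one_mul] at hα
    rw [eq_intCast (algebraMap ℤ K), Int.cast_natCast] at hα
    have h2 := eq_zero_of_pow_eq_zero hα
    rw [zero_pow two_ne_zero, zero_add] at h2
    exact hq (by exact_mod_cast h2)
  · intro j hj
    have hj' : j < h.natDegree := Finset.mem_range.1 hj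
    simp only [map_mul, map_pow, map_add, aeval_X]
    rw [zero_pow (by omega : h.natDegree - j ≠ 0), mul_zero, mul_zero]

theorem root_iff {K : Type*} [Field K] [CharZero K] {q : ℕ} (hq : q ≠ 0) {h : ℤ[X]}
    (hm : h.Monic) (α : K) :
    aeval α (weil q h) = 0 ↔ α ≠ 0 ∧ aeval (α + q / α) h = 0 := by
  constructor
  · intro hα
    have h0 := root_ne_zero hq hm hα
    refine ⟨h0, ?_⟩
    rw [aeval_weil q h α (α + q / α) (by field_simp)] at hα
    exact (mul_eq_zero.1 hα).resolve_left (pow_ne_zero _ h0)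
  · rintro ⟨h0, h1⟩
    rw [aeval_weil q h α (α + q / α) (by field_simp), h1, mul_zero]

theorem root_conj {K : Type*} [Field K] [CharZero K] {q : ℕ} (hq : q ≠ 0) {h : ℤ[X]}
    (hm : h.Monic) {α : K} (hα : aeval α (weil q h) = 0) : aeval (q / α) (weil q h) = 0 := by
  have hq' : (q : K) ≠ 0 := by exact_mod_cast hq
  rw [root_iff hq hm] at hα ⊢
  refine ⟨div_ne_zero hq' hα.1, ?_⟩
  rw [div_div_cancel₀ hq', add_comm]
  exact hα.2

/-- Two roots of `h` in a domain with the same image in a field in which the image of `h` is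
separable are equal. -/
theorem eq_of_map_eq {R k : Type*} [CommRing R] [IsDomain R] [Field k] (φ : R →+* k) (h : ℤ[X])
    (hsep : (h.map (Int.castRingHom k)).Separable) (t t' : R) (ht : aeval t h = 0)
    (ht' : aeval t' h = 0) (hφ : φ t = φ t') : t = t' := by
  by_contra hne
  set H : R[X] := h.map (Int.castRingHom R) with hH
  have e1 : H.eval t = 0 := by rw [hH, eval_map]; exact ht
  have e2 : H.eval t' = 0 := by rw [hH, eval_map]; exact ht'
  obtain ⟨c, hc⟩ := H.binomExpansion t (t' - t)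
  rw [add_sub_cancel, e1, e2, zero_add] at hc
  have hd : t' - t ≠ 0 := sub_ne_zero.2 (Ne.symm hne)
  have h1 : H.derivative.eval t + c * (t' - t) = 0 := by
    have h2 : (t' - t) * (H.derivative.eval t + c * (t' - t)) = 0 := by
      linear_combination (-1 : R) * hc
    exact (mul_eq_zero.1 h2).resolve_left hd
  have h2 : φ (H.derivative.eval t) = 0 := by
    have h3 := congrArg φ h1
    rw [map_add, map_mul, map_sub, hφ, sub_self, mul_zero, add_zero, map_zero] at h3
    exact h3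
  have h3 : (h.map (Int.castRingHom k)).eval (φ t) = 0 := by
    have h4 := congrArg φ e1
    rw [hH, eval_map, Polynomial.hom_eval₂, map_zero] at h4
    rw [eval_map]
    rwa [RingHom.ext_int (φ.comp (Int.castRingHom R)) (Int.castRingHom k)] at h4
  have h4 : (h.map (Int.castRingHom k)).derivative.eval (φ t) = 0 := by
    rw [hH, derivative_map, eval_map, Polynomial.hom_eval₂] at h2
    rw [derivative_map, eval_map]
    rwa [RingHom.ext_int (φ.comp (Int.castRingHom R)) (Int.castRingHom k)] at h2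
  exact hsep.eval₂_derivative_ne_zero (RingHom.id k) h3 h4

/-- The factorisation pattern modulo `l` of the real Weil polynomials `h i`: all split with
distinct roots, and `t ^ 2 - 4 q` is a nonzero square for all the roots, with the exception of one
root `t₀` of `h i₀`, for which it is not a square. -/
def FlipPattern {I : Type*} (q : ℕ) (h : I → ℤ[X]) (i₀ : I) (l : ℕ) : Prop :=
  ∃ (T : I → Finset (ZMod l)) (t₀ : ZMod l), t₀ ∈ T i₀ ∧ ¬ IsSquare (t₀ ^ 2 - 4 * (q : ZMod l)) ∧
    (∀ i, (h i).map (Int.castRingHom (ZMod l)) = ∏ t ∈ T i, (X - C t)) ∧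
    ∀ i, ∀ t ∈ T i, ¬ (i = i₀ ∧ t = t₀) →
      IsSquare (t ^ 2 - 4 * (q : ZMod l)) ∧ t ^ 2 - 4 * (q : ZMod l) ≠ 0

/-- **The flip**: a Frobenius element for a prime with the flip pattern exchanges two roots `α` and
`q / α` and fixes all the others. -/
theorem exists_flip {I : Type*} {q : ℕ} {h : I → ℤ[X]} (hm : ∀ i, (h i).Monic)
    (L : Type u) [Field L] [NumberField L] [IsGalois ℚ L]
    {i₀ : I} (hsplit : ((h i₀).map (algebraMap ℤ L)).Splits)
    (hsplit2 : ∀ θ : L, aeval θ (h i₀) = 0 → ∃ α : L, α ^ 2 + q = θ * α)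
    {l : ℕ} (hl : l.Prime) (hl2 : l ≠ 2) (hlq : ¬ l ∣ q) (hpat : FlipPattern q h i₀ l) :
    ∃ (σ : Gal(L/ℚ)) (α : L), aeval α (weil q (h i₀)) = 0 ∧ σ α = q / α ∧ α ≠ q / α ∧
      ∀ i, ∀ β : L, aeval β (weil q (h i)) = 0 → β ≠ α → β ≠ q / α → σ β = β := by
  classical
  have : Fact l.Prime := ⟨hl⟩
  obtain ⟨T, t₀, ht₀, hns, hfac, hsq⟩ := hpat
  obtain ⟨k, _, hchar, φ, σ, hσ⟩ := exists_frob L l hl
  let ψ : ZMod l →+* k := ZMod.castHom dvd_rfl k
  have hψ : Function.Injective ψ := ψ.injective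
  have hq0 : q ≠ 0 := by
    rintro rfl
    exact hlq (dvd_zero _)
  have hqk : (q : k) ≠ 0 := by
    rw [Ne, CharP.cast_eq_zero_iff k l]
    exact hlq
  have hqL : (q : L) ≠ 0 := by exact_mod_cast hq0
  have h2k : (2 : k) ≠ 0 := by
    have h1 : ((2 : ℕ) : k) ≠ 0 := by
      rw [Ne, CharP.cast_eq_zero_iff k l]
      intro h1
      exact hl2 ((Nat.prime_dvd_prime_iff_eq hl Nat.prime_two).1 h1)
    exact_mod_cast h1
  have hdisc : ∀ i, ∀ t ∈ T i, t ^ 2 - 4 * (q : ZMod l) ≠ 0 := by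
    intro i t ht h0
    by_cases hc : i = i₀ ∧ t = t₀
    · rw [← hc.2, h0] at hns
      exact hns (IsSquare.zero)
    · exact (hsq i t ht hc).2 h0
  have hsep : ∀ i, ((h i).map (Int.castRingHom k)).Separable := by
    intro i
    have h1 : (h i).map (Int.castRingHom k) = ∏ t ∈ T i, (X - C (ψ t)) := by
      rw [← RingHom.ext_int (ψ.comp (Int.castRingHom (ZMod l))) (Int.castRingHom k),
        ← Polynomial.map_map, hfac i, Polynomial.map_prod]
      refine Finset.prod_congr rfl fun t _ => ?_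
      rw [Polynomial.map_sub, map_X, map_C]
    rw [h1]
    refine separable_prod_X_sub_C_iff'.2 ?_
    intro a _ b _ hab
    exact hψ hab
  -- the image of a root of `h i`
  have hroot : ∀ i, ∀ t : 𝓞 L, aeval t (h i) = 0 → ∃ s ∈ T i, φ t = ψ s := by
    intro i t ht
    have h1 : ((h i).map (Int.castRingHom k)).eval (φ t) = 0 := by
      have h2 : φ (eval₂ (Int.castRingHom (𝓞 L)) t (h i)) = 0 := by
        have h3 : eval₂ (Int.castRingHom (𝓞 L)) t (h i) = aeval t (h i) := rfl
        rw [h3, ht, map_zero]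
      rw [Polynomial.hom_eval₂] at h2
      rw [eval_map]
      rwa [RingHom.ext_int (φ.comp (Int.castRingHom (𝓞 L))) (Int.castRingHom k)] at h2
    have h4 : (h i).map (Int.castRingHom k) = ∏ t ∈ T i, (X - C (ψ t)) := by
      rw [← RingHom.ext_int (ψ.comp (Int.castRingHom (ZMod l))) (Int.castRingHom k),
        ← Polynomial.map_map, hfac i, Polynomial.map_prod]
      refine Finset.prod_congr rfl fun t _ => ?_
      rw [Polynomial.map_sub, map_X, map_C]
    rw [h4, eval_prod, Finset.prod_eq_zero_iff] at h1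
    obtain ⟨s, hs, hs2⟩ := h1
    refine ⟨s, hs, ?_⟩
    rw [eval_sub, eval_X, eval_C, sub_eq_zero] at hs2
    exact hs2
  -- integrality
  have hint : ∀ i, ∀ β : L, aeval β (weil q (h i)) = 0 → ∃ b t : 𝓞 L, (b : L) = β ∧
      (t : L) = β + q / β ∧ b ^ 2 + q = t * b ∧ aeval t (h i) = 0 := by
    intro i β hβ
    have h1 : IsIntegral ℤ β := ⟨weil q (h i), weil_monic q (hm i), hβ⟩
    have h2 := (root_iff hq0 (hm i) β).1 hβ
    have h3 : IsIntegral ℤ (β + q / β) := ⟨h i, hm i, h2.2⟩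
    refine ⟨⟨β, h1⟩, ⟨β + q / β, h3⟩, rfl, rfl, ?_, ?_⟩
    · apply RingOfIntegers.ext
      change β ^ 2 + (algebraMap (𝓞 L) L) (q : 𝓞 L) = (β + q / β) * β
      rw [map_natCast]
      have := h2.1
      field_simp
    · apply RingOfIntegers.coe_injective
      have h5 := aeval_algebraMap_apply L (⟨β + q / β, h3⟩ : 𝓞 L) (h i)
      exact h5.symm.trans (h2.2.trans (map_zero _).symm)
  -- the reduction is injective on the roots of one block
  have hφ0 : ∀ b t : 𝓞 L, b ^ 2 + q = t * b → φ b ≠ 0 := by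
    intro b t hb h0
    have h1 := congrArg φ hb
    rw [map_add, map_mul, map_pow, h0, map_natCast, mul_zero, zero_pow two_ne_zero, zero_add] at h1
    exact hqk h1
  have hquad : ∀ b t : 𝓞 L, b ^ 2 + q = t * b → φ b ^ 2 + q = φ t * φ b := by
    intro b t hb
    have h1 := congrArg φ hb
    rwa [map_add, map_mul, map_pow, map_natCast] at h1
  have hsame : ∀ b b' t : 𝓞 L, b ^ 2 + q = t * b → b' ^ 2 + q = t * b' → b ≠ b' → b + b' = t := by
    intro b b' t hb hb' hne
    have h1 : (b - b') * (b + b' - t) = 0 := by linear_combination hb - hb'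
    exact sub_eq_zero.1 ((mul_eq_zero.1 h1).resolve_left (sub_ne_zero.2 hne))
  have hinj : ∀ i, ∀ b b' t t' : 𝓞 L, b ^ 2 + q = t * b → b' ^ 2 + q = t' * b' →
      aeval t (h i) = 0 → aeval t' (h i) = 0 → φ b = φ b' → b = b' := by
    intro i b b' t t' hb hb' ht ht' hbb
    have h1 := hquad b t hb
    have h2 := hquad b' t' hb'
    rw [← hbb] at h2
    have h3 : φ t = φ t' := mul_right_cancel₀ (hφ0 b t hb) (h1.symm.trans h2)
    have h4 : t = t' := eq_of_map_eq φ (h i) (hsep i) t t' ht ht' h3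
    subst h4
    by_contra hne
    have h5 := hsame b b' t hb hb' hne
    obtain ⟨s, hs, hs2⟩ := hroot i t ht
    have h6 : ψ (s ^ 2 - 4 * (q : ZMod l)) = 0 := by
      rw [map_sub, map_pow, map_mul, map_natCast, map_ofNat, ← hs2, ← h5, map_add, ← hbb]
      rw [← h5, map_add, ← hbb] at h1
      linear_combination (-4 : k) * h1
    exact hdisc i s hs ((map_eq_zero ψ).1 h6)
  -- Galois action
  have hsmul : ∀ x : 𝓞 L, ((σ • x : 𝓞 L) : L) = σ (x : L) := fun x => rfl
  have hσq : ∀ b t : 𝓞 L, b ^ 2 + q = t * b → (σ • b) ^ 2 + (q : 𝓞 L) = (σ • t) * (σ • b) := by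
    intro b t hb
    have h1 := congrArg (fun x => σ • x) hb
    simp only [smul_add, smul_mul', smul_pow'] at h1
    have h2 : σ • ((q : ℕ) : 𝓞 L) = (q : 𝓞 L) :=
      map_natCast (MulSemiringAction.toRingHom (Gal(L/ℚ)) (𝓞 L) σ) q
    rwa [h2] at h1
  have hσt : ∀ i, ∀ t : 𝓞 L, aeval t (h i) = 0 → aeval (σ • t) (h i) = 0 := by
    intro i t ht
    apply RingOfIntegers.coe_injective
    have h1 := aeval_algebraMap_apply L (σ • t) (h i)
    have h2 := aeval_algebraMap_apply L t (h i)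
    rw [ht, map_zero] at h2
    have h3 : aeval (σ ((algebraMap (𝓞 L) L) t)) (h i) = σ (aeval ((algebraMap (𝓞 L) L) t) (h i)) := by
      change eval₂ _ _ _ = σ (eval₂ _ _ _)
      rw [← AlgEquiv.coe_ringEquiv σ, ← RingEquiv.coe_toRingHom, Polynomial.hom_eval₂]
      congr 1
      exact RingHom.ext_int _ _
    rw [h2, map_zero] at h3
    exact h1.symm.trans (h3.trans (map_zero _).symm)
  have hψl : ∀ x : ZMod l, ψ x ^ l = ψ x := by
    intro x
    rw [← map_pow, ZMod.pow_card]
  have h2l : (2 : k) ^ l = 2 := by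
    have := hψl 2
    rwa [map_ofNat] at this
  -- the root `t₁` of `h i₀` with image `t₀`
  have hlift : ∀ R : Multiset L, (∀ x ∈ R, IsIntegral ℤ x) →
      ∃ R' : Multiset (𝓞 L), R'.map (algebraMap (𝓞 L) L) = R := by
    intro R
    induction R using Multiset.induction_on with
    | empty => exact fun _ => ⟨0, rfl⟩
    | cons a s ih =>
      intro hR
      obtain ⟨R', hR'⟩ := ih fun x hx => hR x (Multiset.mem_cons_of_mem hx)
      obtain ⟨a', ha'⟩ : ∃ a' : 𝓞 L, algebraMap (𝓞 L) L a' = a :=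
        ⟨⟨a, hR a (Multiset.mem_cons_self a s)⟩, rfl⟩
      refine ⟨a' ::ₘ R', ?_⟩
      rw [Multiset.map_cons, hR', ha']
  obtain ⟨t₁, ht₁, hφt₁⟩ : ∃ t₁ : 𝓞 L, aeval t₁ (h i₀) = 0 ∧ φ t₁ = ψ t₀ := by
    obtain ⟨R', hR'⟩ := hlift ((h i₀).map (algebraMap ℤ L)).roots (by
      intro x hx
      have h1 := (mem_roots'.1 hx).2
      rw [IsRoot.def, eval_map] at h1
      exact ⟨h i₀, hm i₀, h1⟩)
    have h1 : (h i₀).map (algebraMap ℤ L) = ((h i₀).map (algebraMap ℤ (𝓞 L))).map
        (algebraMap (𝓞 L) L) := by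
      rw [Polynomial.map_map]
      congr 1
    have h2 : (h i₀).map (algebraMap ℤ (𝓞 L)) = (R'.map (fun a => X - C a)).prod := by
      apply Polynomial.map_injective (algebraMap (𝓞 L) L) RingOfIntegers.coe_injective
      rw [← h1, hsplit.eq_prod_roots_of_monic ((hm i₀).map _), ← hR', Polynomial.map_multiset_prod,
        Multiset.map_map, Multiset.map_map]
      congr 1
      refine Multiset.map_congr rfl fun x _ => ?_
      simp
    have h3 : ((h i₀).map (Int.castRingHom k)).eval (ψ t₀) = 0 := by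
      rw [← RingHom.ext_int (ψ.comp (Int.castRingHom (ZMod l))) (Int.castRingHom k),
        ← Polynomial.map_map, hfac i₀, Polynomial.map_prod, eval_prod]
      refine Finset.prod_eq_zero ht₀ ?_
      simp
    have h4 : (h i₀).map (Int.castRingHom k) = (R'.map (fun a => X - C (φ a))).prod := by
      have h5 : (h i₀).map (Int.castRingHom k) = ((h i₀).map (algebraMap ℤ (𝓞 L))).map φ := by
        rw [Polynomial.map_map]
        congr 1
        exact RingHom.ext_int _ _
      rw [h5, h2, Polynomial.map_multiset_prod, Multiset.map_map]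
      congr 1
      refine Multiset.map_congr rfl fun x _ => ?_
      simp
    rw [h4, eval_multiset_prod, Multiset.map_map, Multiset.prod_eq_zero_iff, Multiset.mem_map] at h3
    obtain ⟨t, ht, ht2⟩ := h3
    refine ⟨t, ?_, ?_⟩
    · have h5 : ((h i₀).map (algebraMap ℤ (𝓞 L))).eval t = 0 := by
        rw [h2, eval_multiset_prod, Multiset.map_map]
        refine Multiset.prod_eq_zero (Multiset.mem_map.2 ⟨t, ht, ?_⟩)
        simp
      rw [eval_map] at h5
      exact h5
    · simp only [Function.comp_apply, eval_sub, eval_X, eval_C] at ht2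
      exact (sub_eq_zero.1 ht2).symm
  -- the flipped pair
  have ht₁L : aeval (t₁ : L) (h i₀) = 0 := by
    rw [aeval_algebraMap_apply, ht₁, map_zero]
  obtain ⟨α, hα⟩ := hsplit2 t₁ ht₁L
  have hα0 : α ≠ 0 := by
    rintro rfl
    rw [zero_pow two_ne_zero, zero_add, mul_zero] at hα
    exact hqL hα
  have hθα : (t₁ : L) = α + q / α := by
    field_simp
    rw [hα]
  have hαw : aeval α (weil q (h i₀)) = 0 := by
    rw [aeval_weil q (h i₀) α t₁ hα, ht₁L, mul_zero]
  obtain ⟨a, t, ha, ht, hat, htr⟩ := hint i₀ α hαw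
  have htt : t = t₁ := RingOfIntegers.coe_injective (ht.trans hθα.symm)
  subst htt
  have hinv : (q : L) / α = ((t - a : 𝓞 L) : L) := by
    have h1 : ((t - a : 𝓞 L) : L) = (t : L) - a := map_sub _ _ _
    rw [h1, hθα, ha]
    ring
  have hat' : (t - a) ^ 2 + (q : 𝓞 L) = t * (t - a) := by linear_combination hat
  have hq1 := hquad a t hat
  have hl' : l = 2 * (l / 2) + 1 := by
    rcases hl.eq_two_or_odd' with h1 | h1
    · exact absurd h1 hl2
    · obtain ⟨c, hc⟩ := h1
      omega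
  have hd0 : t₀ ^ 2 - 4 * (q : ZMod l) ≠ 0 := hdisc i₀ t₀ ht₀
  have hdpow : (t₀ ^ 2 - 4 * (q : ZMod l)) ^ (l / 2) = -1 := by
    rcases ZMod.pow_div_two_eq_neg_one_or_one l hd0 with h1 | h1
    · exact absurd ((ZMod.euler_criterion l hd0).2 h1) hns
    · exact h1
  have hy : (2 * φ a - ψ t₀) ^ 2 = ψ (t₀ ^ 2 - 4 * (q : ZMod l)) := by
    rw [map_sub, map_pow, map_mul, map_natCast, map_ofNat, ← hφt₁]
    linear_combination (4 : k) * hq1
  have hyl : (2 * φ a - ψ t₀) ^ l = -(2 * φ a - ψ t₀) := by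
    have e1 : (2 * φ a - ψ t₀) ^ l = (2 * φ a - ψ t₀) ^ (2 * (l / 2) + 1) := congrArg _ hl'
    rw [e1, pow_succ, pow_mul, hy, ← map_pow, hdpow, map_neg, map_one]
    ring
  have hal : φ a ^ l = φ (t - a) := by
    have h1 : (2 * φ a - ψ t₀) ^ l = (2 * φ a) ^ l - ψ t₀ ^ l := sub_pow_char _ _
    rw [h1, hψl, mul_pow, h2l] at hyl
    rw [map_sub, hφt₁]
    apply mul_left_cancel₀ h2k
    linear_combination hyl
  have hσa : σ • a = t - a := by
    refine hinj i₀ (σ • a) (t - a) (σ • t) t (hσq a t hat) hat' (hσt i₀ t htr) htr ?_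
    rw [hσ, hal]
  refine ⟨σ, α, hαw, ?_, ?_, ?_⟩
  · rw [hinv, ← hσa, hsmul, ha]
  · intro h1
    rw [hinv, ← ha] at h1
    have h2 : a = t - a := RingOfIntegers.coe_injective h1
    have h3 : 2 * φ a - ψ t₀ = 0 := by
      have h4 := congrArg φ h2
      rw [map_sub, hφt₁] at h4
      linear_combination h4
    rw [h3, zero_pow two_ne_zero] at hy
    exact hd0 ((map_eq_zero ψ).1 hy.symm)
  · intro i β hβ hne1 hne2
    obtain ⟨b, t', hb, ht', hbt, htr'⟩ := hint i β hβ
    obtain ⟨s, hs, hs2⟩ := hroot i t' htr'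
    have hcase : ¬ (i = i₀ ∧ s = t₀) := by
      rintro ⟨rfl, rfl⟩
      have h1 : t' = t := eq_of_map_eq φ (h i) (hsep i) t' t htr' htr (by rw [hs2, hφt₁])
      subst h1
      by_cases h2 : a = b
      · exact hne1 (by rw [← hb, ← h2, ha])
      · have h3 := hsame a b t' hat hbt h2
        apply hne2
        rw [hinv, ← h3, add_sub_cancel_left, hb]
    obtain ⟨⟨r, hr⟩, -⟩ := hsq i s hs hcase
    have h1 : (2 * φ b - ψ s) ^ 2 = ψ r ^ 2 := by
      rw [← map_pow ψ r 2, sq r, ← hr, map_sub, map_pow, map_mul, map_natCast, map_ofNat, ← hs2]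
      linear_combination (4 : k) * hquad b t' hbt
    have h2 : ∃ u : ZMod l, 2 * φ b = ψ u := by
      rcases sq_eq_sq_iff_eq_or_eq_neg.1 h1 with h3 | h3
      · exact ⟨s + r, by rw [map_add]; linear_combination h3⟩
      · exact ⟨s - r, by rw [map_sub]; linear_combination h3⟩
    obtain ⟨u, hu⟩ := h2
    have h3 : φ b ^ l = φ b := by
      have h4 := hψl u
      rw [← hu, mul_pow, h2l] at h4
      exact mul_left_cancel₀ h2k h4
    have h4 : σ • b = b := by
      refine hinj i (σ • b) b (σ • t') t' (hσq b t' hbt) hbt (hσt i t' htr') htr' ?_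
      rw [hσ, h3]
    rw [← hb, ← hsmul, h4]

end Pool.Agent.W521.Frob
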