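import Mathlib
import Pool.Agent.W521.Frob

/-!
# All multiplicative relations are balanced, if there are enough flips
-/

set_option autoImplicit false

namespace Pool.Agent.W521.Criterion

open Polynomial NumberField Pool.Agent.W521.Frob

theorem normal_sf (P : ℚ[X]) : Normal ℚ P.SplittingField := by
  have h := @Normal.of_isSplittingField _ _ _ _ _ P (IsSplittingField.splittingField P)
  convert h
  exact Subsingleton.elim _ _

theorem splits_sf (P : ℚ[X]) : Splits (P.map (algebraMap ℚ P.SplittingField)) := by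
  have h := SplittingField.splits P
  have e : (algebraMap ℚ P.SplittingField) =
      @algebraMap ℚ P.SplittingField _ _ (SplittingField.instAlgebra_1 P) :=
    Subsingleton.elim _ _
  rw [e]
  exact h

theorem exists_field {I : Type*} [Finite I] (q : ℕ) (h : I → ℤ[X]) (hm : ∀ i, (h i).Monic) :
    ∃ (L : Type) (_ : Field L) (_ : NumberField L) (_ : IsGalois ℚ L) (j : L →+* ℂ),
      ∀ i, ∀ z : ℂ, aeval z (weil q (h i)) = 0 → ∃ x : L, j x = z := by
  cases nonempty_fintype I
  let P : ℚ[X] := (∏ i, weil q (h i)).map (Int.castRingHom ℚ)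
  have hP : P.Monic := (monic_prod_of_monic _ _ fun i _ => weil_monic q (hm i)).map _
  have hN : Normal ℚ P.SplittingField := normal_sf P
  have hL : NumberField P.SplittingField := ⟨⟩
  have hG : IsGalois ℚ P.SplittingField := ⟨⟩
  let j : P.SplittingField →ₐ[ℚ] ℂ := IsAlgClosed.lift
  refine ⟨P.SplittingField, inferInstance, hL, hG, j, ?_⟩
  intro i z hz
  have h1 : ((P.map (algebraMap ℚ P.SplittingField)).map
      (j : P.SplittingField →+* ℂ)).IsRoot z := by
    have e1 : (P.map (algebraMap ℚ P.SplittingField)).map (j : P.SplittingField →+* ℂ) =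
        (∏ i, weil q (h i)).map (algebraMap ℤ ℂ) := by
      rw [Polynomial.map_map, Polynomial.map_map]
      congr 1
      exact RingHom.ext_int _ _
    rw [e1, Polynomial.map_prod, IsRoot.def, eval_prod]
    refine Finset.prod_eq_zero (Finset.mem_univ i) ?_
    rw [eval_map]
    exact hz
  have h2 := (splits_sf P).mem_range_of_isRoot
    ((hP.map (algebraMap ℚ P.SplittingField)).ne_zero) h1
  exact h2

section

variable {I : Type*} {q : ℕ} {h : I → ℤ[X]} (hq : q ≠ 0) (hm : ∀ i, (h i).Monic)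
  (L : Type) [Field L] [NumberField L] [IsGalois ℚ L] (j : L →+* ℂ)
  (hL : ∀ i, ∀ z : ℂ, aeval z (weil q (h i)) = 0 → ∃ x : L, j x = z)

include hq hm hL

theorem exists_quad (i : I) (θ : ℂ) (hθ : aeval θ (h i) = 0) :
    ∃ α t : L, α ^ 2 + q = t * α ∧ j t = θ := by
  obtain ⟨α, hα⟩ : ∃ α : ℂ, α ^ 2 + q = θ * α := by
    obtain ⟨s, hs⟩ := IsAlgClosed.exists_pow_nat_eq (θ ^ 2 - 4 * q) two_pos
    refine ⟨(θ + s) / 2, ?_⟩
    linear_combination (1 / 4 : ℂ) * hs
  have hqC : (q : ℂ) ≠ 0 := by exact_mod_cast hq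
  have hα0 : α ≠ 0 := by
    rintro rfl
    rw [zero_pow two_ne_zero, zero_add, mul_zero] at hα
    exact hqC hα
  have h1 : aeval α (weil q (h i)) = 0 := by
    rw [aeval_weil q (h i) α θ hα, hθ, mul_zero]
  obtain ⟨x, hx⟩ := hL i α h1
  have hx0 : x ≠ 0 := by
    rintro rfl
    rw [map_zero] at hx
    exact hα0 hx.symm
  refine ⟨x, x + q / x, by field_simp, ?_⟩
  rw [map_add, map_div₀, map_natCast, hx]
  apply mul_right_cancel₀ hα0
  rw [← hα]
  field_simp

theorem splits_h (i : I) : ((h i).map (algebraMap ℤ L)).Splits := by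
  refine Splits.of_splits_map j (IsAlgClosed.splits _) ?_
  intro a ha
  have h1 := (mem_roots'.1 ha).2
  have e1 : ((h i).map (algebraMap ℤ L)).map j = (h i).map (algebraMap ℤ ℂ) := by
    rw [Polynomial.map_map]
    congr 1
    exact RingHom.ext_int _ _
  rw [e1, IsRoot.def, eval_map] at h1
  obtain ⟨α, t, -, ht⟩ := exists_quad hq hm L j hL i a h1
  exact ⟨t, ht⟩

theorem quad_L (i : I) (θ : L) (hθ : aeval θ (h i) = 0) : ∃ α : L, α ^ 2 + q = θ * α := by
  have h1 : aeval (j θ) (h i) = 0 := by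
    have h2 := Polynomial.hom_eval₂ (h i) (algebraMap ℤ L) j θ
    have h3 : eval₂ (algebraMap ℤ L) θ (h i) = 0 := hθ
    rw [h3, map_zero, RingHom.ext_int (j.comp (algebraMap ℤ L)) (algebraMap ℤ ℂ)] at h2
    exact h2.symm
  obtain ⟨α, t, h2, h3⟩ := exists_quad hq hm L j hL i _ h1
  rw [j.injective h3] at h2
  exact ⟨α, h2⟩

/-- Transitivity of the Galois group on the pairs of roots. -/
theorem exists_tau (i : I) (hirr : Irreducible ((h i).map (Int.castRingHom ℚ))) (α β : L)
    (hα : aeval α (weil q (h i)) = 0) (hβ : aeval β (weil q (h i)) = 0) :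
    ∃ τ : L ≃ₐ[ℚ] L, τ α = β ∨ τ α = q / β := by
  have hα' := (root_iff hq (hm i) α).1 hα
  have hβ' := (root_iff hq (hm i) β).1 hβ
  have hmin : ∀ θ : L, aeval θ (h i) = 0 → minpoly ℚ θ = (h i).map (Int.castRingHom ℚ) := by
    intro θ hθ
    refine (minpoly.eq_of_irreducible_of_monic hirr ?_ ((hm i).map _)).symm
    rw [aeval_def, eval₂_map, RingHom.ext_int ((algebraMap ℚ L).comp _) (algebraMap ℤ L)]
    exact hθ
  obtain ⟨τ, hτ⟩ := isConjRoot_iff_exists_algEquiv.1
    ((hmin _ hβ'.2).trans (hmin _ hα'.2).symm : IsConjRoot ℚ (β + q / β) (α + q / α))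
  refine ⟨τ, ?_⟩
  have hqL : (q : L) ≠ 0 := by exact_mod_cast hq
  have h0 : τ α ≠ 0 := (map_ne_zero τ).2 hα'.1
  rw [map_add, map_div₀, map_natCast] at hτ
  have h1 : (τ α - β) * (τ α - q / β) = 0 := by
    have h2 : (τ α) ^ 2 + q = (β + q / β) * τ α := by
      rw [← hτ]
      field_simp
    have h3 : β * (q / β) = q := by
      have := hβ'.1
      field_simp
    linear_combination h2 + h3
  rcases mul_eq_zero.1 h1 with h2 | h2
  · exact Or.inl (sub_eq_zero.1 h2)
  · exact Or.inr (sub_eq_zero.1 h2)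

end

/-- There is an automorphism which exchanges `α` and `q / α` and fixes all other roots. -/
def Flippable {I : Type*} (q : ℕ) (h : I → ℤ[X]) {L : Type} [Field L] [Algebra ℚ L] (α : L) :
    Prop :=
  ∃ σ : L ≃ₐ[ℚ] L, σ α = q / α ∧ α ≠ q / α ∧
    ∀ i, ∀ β : L, aeval β (weil q (h i)) = 0 → β ≠ α → β ≠ q / α → σ β = β

section

variable {I : Type*} {q : ℕ} {h : I → ℤ[X]} (hq : q ≠ 0) (hm : ∀ i, (h i).Monic)
  (L : Type) [Field L] [NumberField L] [IsGalois ℚ L] (j : L →+* ℂ)
  (hL : ∀ i, ∀ z : ℂ, aeval z (weil q (h i)) = 0 → ∃ x : L, j x = z)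

theorem aeval_alg (p : ℤ[X]) (τ : L ≃ₐ[ℚ] L) (β : L) (hβ : aeval β p = 0) :
    aeval (τ β) p = 0 := by
  have h2 := Polynomial.hom_eval₂ p (algebraMap ℤ L) (τ : L →+* L) β
  have h3 : eval₂ (algebraMap ℤ L) β p = 0 := hβ
  rw [h3, map_zero, RingHom.ext_int ((τ : L →+* L).comp (algebraMap ℤ L)) (algebraMap ℤ L)] at h2
  exact h2.symm

include hq hm hL

theorem all_flippable (i : I) (hirr : Irreducible ((h i).map (Int.castRingHom ℚ)))
    {l : ℕ} (hl : l.Prime) (hl2 : l ≠ 2) (hlq : ¬ l ∣ q) (hpat : FlipPattern q h i l) (α : L)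
    (hα : aeval α (weil q (h i)) = 0) : Flippable q h α := by
  obtain ⟨σ, α₀, hα₀, h1, h2, h3⟩ := exists_flip hm L (splits_h hq hm L j hL i)
    (quad_L hq hm L j hL i) hl hl2 hlq hpat
  obtain ⟨τ, hτ⟩ := exists_tau hq hm L j hL i hirr α₀ α hα₀ hα
  have hqL : (q : L) ≠ 0 := by exact_mod_cast hq
  have hα₀0 := root_ne_zero hq (hm i) hα₀
  have hα0 := root_ne_zero hq (hm i) hα
  have hτs : ∀ x, τ (τ.symm x) = x := fun x => τ.apply_symm_apply x
  have hpre : τ.symm α = α₀ ∨ τ.symm α = q / α₀ := by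
    rcases hτ with e | e
    · left
      rw [← e, τ.symm_apply_apply]
    · right
      apply τ.injective
      rw [τ.apply_symm_apply, map_div₀, map_natCast, e, div_div_cancel₀ hqL]
  have hσ' : σ (q / α₀) = α₀ := by
    rw [map_div₀, map_natCast, h1, div_div_cancel₀ hqL]
  refine ⟨(τ.symm.trans σ).trans τ, ?_, ?_, ?_⟩
  · rw [AlgEquiv.trans_apply, AlgEquiv.trans_apply]
    rcases hpre with e | e
    · rw [e, h1, map_div₀, map_natCast]
      have h4 : τ α₀ = α := by rw [← e, hτs]
      rw [h4]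
    · rw [e, hσ']
      have h4 : τ (q / α₀) = α := by rw [← e, hτs]
      rw [map_div₀, map_natCast] at h4
      rw [← h4, div_div_cancel₀ hqL]
  · intro h4
    have h5 : τ.symm α = q / τ.symm α := by
      conv_lhs => rw [h4]
      rw [map_div₀, map_natCast]
    rcases hpre with e | e
    · rw [e] at h5
      exact h2 h5
    · rw [e, div_div_cancel₀ hqL] at h5
      exact h2 h5.symm
  · intro i' β hβ hne1 hne2
    have h4 : σ (τ.symm β) = τ.symm β := by
      refine h3 i' _ (aeval_alg L _ _ _ hβ) ?_ ?_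
      · intro e
        rcases hpre with e' | e'
        · exact hne1 (τ.symm.injective (e.trans e'.symm))
        · apply hne2
          apply τ.symm.injective
          rw [e, map_div₀, map_natCast, e', div_div_cancel₀ hqL]
      · intro e
        rcases hpre with e' | e'
        · apply hne2
          apply τ.symm.injective
          rw [e, map_div₀, map_natCast, e']
        · exact hne1 (τ.symm.injective (e.trans e'.symm))
    rw [AlgEquiv.trans_apply, AlgEquiv.trans_apply, h4, hτs]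

/-- If the square of a root divided by `q` is a root of unity, the square of the trace is
divisible by `q`. -/
theorem dvd_of_root_of_unity (i : I) (hirr : Irreducible ((h i).map (Int.castRingHom ℚ)))
    (α : L) (hα : aeval α (weil q (h i)) = 0) (t : ℕ) (ht : 0 < t)
    (hαt : (α ^ 2) ^ t = (q : L) ^ t) : (q : ℤ) ∣ (h i).nextCoeff ^ 2 := by
  have hqL : (q : L) ≠ 0 := by exact_mod_cast hq
  have hqC : (q : ℂ) ≠ 0 := by exact_mod_cast hq
  have hα0 := root_ne_zero hq (hm i) hα
  -- all roots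
  have hall : ∀ β : L, aeval β (weil q (h i)) = 0 → (β ^ 2) ^ t = (q : L) ^ t := by
    intro β hβ
    have hβ0 := root_ne_zero hq (hm i) hβ
    obtain ⟨τ, hτ⟩ := exists_tau hq hm L j hL i hirr α β hα hβ
    have h1 := congrArg τ hαt
    rw [map_pow, map_pow, map_pow, map_natCast] at h1
    rcases hτ with e | e
    · rwa [e] at h1
    · rw [e, div_pow, div_pow, div_eq_iff (pow_ne_zero _ (pow_ne_zero _ hβ0))] at h1
      have h2 : (q : L) ^ t * (β ^ 2) ^ t = (q : L) ^ t * (q : L) ^ t := by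
        rw [← h1]
        ring
      exact mul_left_cancel₀ (pow_ne_zero _ hqL) h2
  obtain ⟨s, hs⟩ := IsAlgClosed.exists_pow_nat_eq (q : ℂ) two_pos
  have hs0 : s ≠ 0 := by
    rintro rfl
    rw [zero_pow two_ne_zero] at hs
    exact hqC hs.symm
  have hroots : ∀ θ ∈ ((h i).map (algebraMap ℤ ℂ)).roots, IsIntegral ℤ (θ / s) := by
    intro θ hθ
    have h1 := (mem_roots'.1 hθ).2
    rw [IsRoot.def, eval_map] at h1
    obtain ⟨β, u, hβ, hu⟩ := exists_quad hq hm L j hL i θ h1
    have hu0 : aeval u (h i) = 0 := by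
      apply j.injective
      have h2 := Polynomial.hom_eval₂ (h i) (algebraMap ℤ L) j u
      rw [hu, RingHom.ext_int (j.comp (algebraMap ℤ L)) (algebraMap ℤ ℂ), h1] at h2
      rw [map_zero]
      exact h2
    have hβw : aeval β (weil q (h i)) = 0 := by
      rw [aeval_weil q (h i) β u hβ, hu0, mul_zero]
    have hβ0 := root_ne_zero hq (hm i) hβw
    have hjβ : j β ≠ 0 := (map_ne_zero j).2 hβ0
    have h2 := congrArg j (hall β hβw)
    rw [map_pow, map_pow, map_pow, map_natCast] at h2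
    apply IsIntegral.of_pow two_pos
    have h3 : IsIntegral ℤ ((j β) ^ 2 / q) := by
      apply IsIntegral.of_pow ht
      rw [div_pow, h2, div_self (pow_ne_zero _ hqC)]
      exact isIntegral_one
    have h4 : IsIntegral ℤ ((q : ℂ) / (j β) ^ 2) := by
      apply IsIntegral.of_pow ht
      rw [div_pow, h2, div_self (pow_ne_zero _ hqC)]
      exact isIntegral_one
    have h5 : (θ / s) ^ 2 = (j β) ^ 2 / q + 2 + q / (j β) ^ 2 := by
      have h6 : θ = j β + q / j β := by
        have h7 := congrArg j hβ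
        rw [map_add, map_mul, map_pow, map_natCast, hu] at h7
        field_simp
        linear_combination -h7
      rw [div_pow, hs, h6]
      field_simp
      ring
    rw [h5]
    refine (h3.add ?_).add h4
    exact_mod_cast (isIntegral_algebraMap (R := ℤ) (A := ℂ) (x := 2))
  have hsum : IsIntegral ℤ (((h i).map (algebraMap ℤ ℂ)).roots.sum / s) := by
    have h1 : ∀ R : Multiset ℂ, (∀ θ ∈ R, IsIntegral ℤ (θ / s)) → IsIntegral ℤ (R.sum / s) := by
      intro R
      induction R using Multiset.induction_on with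
      | empty =>
        intro _
        rw [Multiset.sum_zero, zero_div]
        exact isIntegral_zero
      | cons a R ih =>
        intro hR
        rw [Multiset.sum_cons, add_div]
        exact (hR a (Multiset.mem_cons_self a R)).add
          (ih fun x hx => hR x (Multiset.mem_cons_of_mem hx))
    exact h1 _ hroots
  have hnext : ((h i).nextCoeff : ℂ) = -((h i).map (algebraMap ℤ ℂ)).roots.sum := by
    rw [← (IsAlgClosed.splits ((h i).map (algebraMap ℤ ℂ))).nextCoeff_eq_neg_sum_roots_of_monic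
      ((hm i).map _), nextCoeff_map (algebraMap ℤ ℂ).injective_int]
    rfl
  have hint : IsIntegral ℤ (((h i).nextCoeff : ℂ) ^ 2 / q) := by
    have h1 : ((h i).nextCoeff : ℂ) ^ 2 / q = (((h i).map (algebraMap ℤ ℂ)).roots.sum / s) ^ 2 := by
      rw [div_pow, hs, hnext, neg_sq]
    rw [h1]
    exact hsum.pow 2
  have hrat : IsIntegral ℤ (((h i).nextCoeff : ℚ) ^ 2 / q) := by
    refine (isIntegral_algebraMap_iff (B := ℂ) (algebraMap ℚ ℂ).injective).1 ?_
    rw [map_div₀, map_pow, map_intCast, map_natCast]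
    exact hint
  obtain ⟨n, hn⟩ := IsIntegrallyClosed.isIntegral_iff.1 hrat
  refine ⟨n, ?_⟩
  have hqQ : (q : ℚ) ≠ 0 := by exact_mod_cast hq
  have h1 : (n : ℚ) = ((h i).nextCoeff : ℚ) ^ 2 / q := hn
  rw [eq_div_iff hqQ] at h1
  have h2 : n * (q : ℤ) = (h i).nextCoeff ^ 2 := by exact_mod_cast h1
  rw [← h2, mul_comm]

omit hL in
/-- **The flips imply that all multiplicative relations are balanced.** -/
theorem balanced_of_flippable (hL : ∀ i, ∀ z : ℂ, aeval z (weil q (h i)) = 0 → ∃ x : L, j x = z)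
    (hfl : ∀ i, ∀ α : L, aeval α (weil q (h i)) = 0 → Flippable q h α)
    (hru : ∀ i, ∀ α : L, aeval α (weil q (h i)) = 0 → ∀ t : ℕ, 0 < t →
      (α ^ 2) ^ t ≠ (q : L) ^ t)
    (T : List ℂ) (m s : ℕ) (hs : 0 < s)
    (hT : ∀ z ∈ T, ∃ i, aeval z (weil q (h i)) = 0) (hprod : T.prod ^ s = ((q : ℂ) ^ m) ^ s)
    (z : ℂ) (hz : ∃ i, aeval z (weil q (h i)) = 0) : T.count z = T.count ((q : ℂ) / z) := by
  classical
  have hqL : (q : L) ≠ 0 := by exact_mod_cast hq
  have hdown : ∀ (i : I) (x : L), aeval (j x) (weil q (h i)) = 0 → aeval x (weil q (h i)) = 0 := by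
    intro i x hx
    apply j.injective
    have h2 := Polynomial.hom_eval₂ (weil q (h i)) (algebraMap ℤ L) j x
    rw [RingHom.ext_int (j.comp (algebraMap ℤ L)) (algebraMap ℤ ℂ)] at h2
    rw [map_zero]
    exact h2.trans hx
  -- the list in `L`
  obtain ⟨T', rfl, hT'⟩ : ∃ T' : List L, T'.map j = T ∧
      ∀ x ∈ T', ∃ i, aeval x (weil q (h i)) = 0 := by
    clear hprod
    induction T with
    | nil => exact ⟨[], rfl, by simp⟩
    | cons a T ih =>
      obtain ⟨T', h1, h2⟩ := ih fun z hz => hT z (List.mem_cons_of_mem a hz)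
      obtain ⟨i, hi⟩ := hT a List.mem_cons_self
      obtain ⟨x, hx⟩ := hL i a hi
      refine ⟨x :: T', by rw [List.map_cons, h1, hx], ?_⟩
      intro y hy
      rcases List.mem_cons.1 hy with e | e
      · rw [e]
        exact ⟨i, hdown i x (by rw [hx]; exact hi)⟩
      · exact h2 y e
  obtain ⟨i, hi⟩ := hz
  obtain ⟨α, rfl⟩ := hL i z hi
  have hα := hdown i α hi
  have hα0 := root_ne_zero hq (hm i) hα
  have hc1 : (T'.map j).count (j α) = T'.count α := List.count_map_of_injective _ _ j.injective _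
  have hc2 : (T'.map j).count ((q : ℂ) / j α) = T'.count (q / α) := by
    have h1 : (q : ℂ) / j α = j (q / α) := by rw [map_div₀, map_natCast]
    rw [h1]
    exact List.count_map_of_injective _ _ j.injective _
  rw [hc1, hc2]
  have hprodL : T'.prod ^ s = ((q : L) ^ m) ^ s := by
    apply j.injective
    rw [map_pow, map_list_prod, map_pow, map_pow, map_natCast]
    exact hprod
  obtain ⟨σ, hσ1, hσ2, hσ3⟩ := hfl i α hα
  have hσ4 : σ (q / α) = α := by
    rw [map_div₀, map_natCast, hσ1, div_div_cancel₀ hqL]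
  -- the product over the different roots
  set S : Finset L := insert α (insert (q / α) T'.toFinset) with hS
  have hsub : T'.toFinset ⊆ S := (Finset.subset_insert _ _).trans (Finset.subset_insert _ _)
  have hP : T'.prod = ∏ x ∈ S, x ^ T'.count x := by
    rw [Finset.prod_list_count_of_subset T' S hsub]
  have hαS : α ∈ S := Finset.mem_insert_self _ _
  have hα'S : q / α ∈ S.erase α :=
    Finset.mem_erase.2 ⟨Ne.symm hσ2, Finset.mem_insert_of_mem (Finset.mem_insert_self _ _)⟩
  set R : L := ∏ x ∈ (S.erase α).erase (q / α), x ^ T'.count x with hR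
  have hP2 : T'.prod = α ^ T'.count α * ((q / α) ^ T'.count (q / α) * R) := by
    rw [hP, ← Finset.mul_prod_erase S _ hαS, ← Finset.mul_prod_erase (S.erase α) _ hα'S]
  have hfix : ∀ x ∈ (S.erase α).erase (q / α), σ x = x := by
    intro x hx
    obtain ⟨hx1, hx2⟩ := Finset.mem_erase.1 hx
    obtain ⟨hx3, hx4⟩ := Finset.mem_erase.1 hx2
    rw [hS, Finset.mem_insert, Finset.mem_insert, List.mem_toFinset] at hx4
    rcases hx4 with e | e | e
    · exact absurd e hx3
    · exact absurd e hx1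
    · obtain ⟨i', hi'⟩ := hT' x e
      exact hσ3 i' x hi' hx3 hx1
  have hσR : σ R = R := by
    rw [hR, map_prod]
    refine Finset.prod_congr rfl fun x hx => ?_
    rw [map_pow, hfix x hx]
  have hR0 : R ≠ 0 := by
    rw [hR, Finset.prod_ne_zero_iff]
    intro x hx
    by_cases h0 : x = 0
    · have h1 : T'.count x = 0 := by
        rw [List.count_eq_zero]
        intro h2
        obtain ⟨i', hi'⟩ := hT' x h2
        exact root_ne_zero hq (hm i') hi' h0
      rw [h1, pow_zero]
      exact one_ne_zero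
    · exact pow_ne_zero _ h0
  have hσP : σ T'.prod ^ s = T'.prod ^ s := by
    rw [← map_pow, hprodL, map_pow, map_pow, map_natCast]
  rw [hP2, map_mul, map_mul, map_pow, map_pow, hσ1, hσ4, hσR] at hσP
  by_contra hne
  set A := T'.count α
  set B := T'.count (q / α)
  -- `(q / α) ^ A * α ^ B` and `α ^ A * (q / α) ^ B` have the same `s`-th power
  have key : ((q / α) ^ A * α ^ B) ^ s = (α ^ A * (q / α) ^ B) ^ s := by
    have h1 : ((q / α) ^ A * (α ^ B * R)) ^ s = ((q / α) ^ A * α ^ B) ^ s * R ^ s := by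
      rw [← mul_pow]
      ring
    have h2 : (α ^ A * ((q / α) ^ B * R)) ^ s = (α ^ A * (q / α) ^ B) ^ s * R ^ s := by
      rw [← mul_pow]
      ring
    rw [h1, h2] at hσP
    exact mul_right_cancel₀ (pow_ne_zero _ hR0) hσP
  have hqα : (q : L) / α ≠ 0 := div_ne_zero hqL hα0
  have hαq : α * (q / α) = q := by field_simp
  have fin : ∀ (C d : ℕ), ((q / α) ^ C * α ^ (C + d + 1)) ^ s =
      (α ^ C * (q / α) ^ (C + d + 1)) ^ s → False := by
    intro C d hk
    refine hru i α hα ((d + 1) * s) (by positivity) ?_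
    have h1 : ((q / α) ^ C * α ^ (C + d + 1)) ^ s =
        ((q / α) ^ C * α ^ C) ^ s * (α ^ (d + 1)) ^ s := by
      rw [← mul_pow]
      ring
    have h2 : (α ^ C * (q / α) ^ (C + d + 1)) ^ s =
        ((q / α) ^ C * α ^ C) ^ s * ((q / α) ^ (d + 1)) ^ s := by
      rw [← mul_pow]
      ring
    rw [h1, h2] at hk
    have h3 := mul_left_cancel₀ (pow_ne_zero _ (mul_ne_zero (pow_ne_zero _ hqα)
      (pow_ne_zero _ hα0))) hk
    calc (α ^ 2) ^ ((d + 1) * s) = (α ^ (d + 1)) ^ s * (α ^ (d + 1)) ^ s := by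
          rw [← pow_mul, ← pow_mul, ← pow_add]
          ring_nf
      _ = (α ^ (d + 1)) ^ s * ((q / α) ^ (d + 1)) ^ s := by rw [h3]
      _ = (q : L) ^ ((d + 1) * s) := by
          rw [← mul_pow, ← mul_pow, hαq, ← pow_mul]
  rcases lt_or_gt_of_ne hne with hlt | hlt
  · obtain ⟨d, hd⟩ := Nat.exists_eq_add_of_lt hlt
    rw [hd] at key
    exact fin A d key
  · obtain ⟨d, hd⟩ := Nat.exists_eq_add_of_lt hlt
    rw [hd] at key
    refine fin B d ?_
    rw [mul_comm ((q / α) ^ B) _, mul_comm (α ^ B) _]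
    exact key.symm

end

/-- **The criterion.** -/
theorem balanced {I : Type*} [Finite I] {q : ℕ} {h : I → ℤ[X]} (hq : q ≠ 0)
    (hm : ∀ i, (h i).Monic) (hirr : ∀ i, Irreducible ((h i).map (Int.castRingHom ℚ)))
    (hpat : ∀ i, ∃ l : ℕ, l.Prime ∧ l ≠ 2 ∧ ¬ l ∣ q ∧ FlipPattern q h i l)
    (hss : ∀ i, ¬ (q : ℤ) ∣ (h i).nextCoeff ^ 2)
    (T : List ℂ) (m s : ℕ) (hs : 0 < s)
    (hT : ∀ z ∈ T, ∃ i, aeval z (weil q (h i)) = 0) (hprod : T.prod ^ s = ((q : ℂ) ^ m) ^ s)
    (z : ℂ) (hz : ∃ i, aeval z (weil q (h i)) = 0) : T.count z = T.count ((q : ℂ) / z) := by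
  obtain ⟨L, _, _, _, j, hL⟩ := exists_field q h hm
  refine balanced_of_flippable hq hm L j hL ?_ ?_ T m s hs hT hprod z hz
  · intro i α hα
    obtain ⟨l, hl, hl2, hlq, hp⟩ := hpat i
    exact all_flippable hq hm L j hL i (hirr i) hl hl2 hlq hp α hα
  · intro i α hα t ht hαt
    exact hss i (dvd_of_root_of_unity hq hm L j hL i (hirr i) α hα t ht hαt)

theorem ne_conj {I : Type*} [Finite I] {q : ℕ} {h : I → ℤ[X]} (hq : q ≠ 0)
    (hm : ∀ i, (h i).Monic) (hirr : ∀ i, Irreducible ((h i).map (Int.castRingHom ℚ)))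
    (hpat : ∀ i, ∃ l : ℕ, l.Prime ∧ l ≠ 2 ∧ ¬ l ∣ q ∧ FlipPattern q h i l)
    (z : ℂ) (hz : ∃ i, aeval z (weil q (h i)) = 0) : z ≠ 0 ∧ (q : ℂ) / z ≠ z := by
  obtain ⟨L, _, _, _, j, hL⟩ := exists_field q h hm
  obtain ⟨i, hi⟩ := hz
  obtain ⟨α, rfl⟩ := hL i z hi
  have hα : aeval α (weil q (h i)) = 0 := by
    apply j.injective
    have h2 := Polynomial.hom_eval₂ (weil q (h i)) (algebraMap ℤ L) j α
    rw [RingHom.ext_int (j.comp (algebraMap ℤ L)) (algebraMap ℤ ℂ)] at h2
    rw [map_zero]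
    exact h2.trans hi
  obtain ⟨l, hl, hl2, hlq, hp⟩ := hpat i
  obtain ⟨σ, h1, h2, h3⟩ := all_flippable hq hm L j hL i (hirr i) hl hl2 hlq hp α hα
  refine ⟨root_ne_zero hq (hm i) hi, ?_⟩
  intro h4
  apply h2
  apply j.injective
  rw [map_div₀, map_natCast, h4]

end Pool.Agent.W521.Criterion
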