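import Mathlib
import Pool.Agent.H925R2.Multi
import Pool.Agent.H925R2.Ext

/-!
# Zeta functions and orders of poles
-/

set_option autoImplicit false
set_option linter.unusedSectionVars false

namespace Pool.Agent.W521.Pole

open Module

section diag

variable {W : Type*} [AddCommGroup W] [Module ℂ W] {ι : Type*} [Fintype ι]

theorem det_one_sub (B : Basis ι ℂ W) (f : W →ₗ[ℂ] W) (α : ι → ℂ)
    (hf : ∀ i, f (B i) = α i • B i) (t : ℂ) :
    LinearMap.det (1 - t • f) = ∏ i, (1 - t * α i) := by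
  classical
  rw [← LinearMap.det_toMatrix B]
  have h1 : LinearMap.toMatrix B B (1 - t • f) = Matrix.diagonal (fun i => 1 - t * α i) := by
    ext i j
    rw [LinearMap.toMatrix_apply, LinearMap.sub_apply, LinearMap.smul_apply, hf,
      Module.End.one_apply, smul_smul, map_sub, map_smul, B.repr_self, Matrix.diagonal_apply]
    simp only [Finsupp.coe_sub, Finsupp.coe_smul, Pi.sub_apply, Pi.smul_apply, smul_eq_mul,
      Finsupp.single_apply]
    by_cases h : i = j
    · subst h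
      simp
    · rw [if_neg (fun h' => h h'.symm), if_neg h]
      simp
  rw [h1, Matrix.det_diagonal]

theorem eigenspace_eq_span (B : Basis ι ℂ W) (f : W →ₗ[ℂ] W) (α : ι → ℂ)
    (hf : ∀ i, f (B i) = α i • B i) (c : ℂ) :
    Module.End.eigenspace f c = Submodule.span ℂ (Set.range fun i : {i // α i = c} => B i.1) := by
  classical
  apply le_antisymm
  · intro x hx
    rw [Module.End.mem_eigenspace_iff] at hx
    have h1 : ∀ i, B.repr x i ≠ 0 → α i = c := by
      intro i hi
      have h2 : f x = ∑ i, (B.repr x i * α i) • B i := by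
        conv_lhs => rw [← B.sum_repr x]
        rw [map_sum]
        refine Finset.sum_congr rfl fun i _ => ?_
        rw [map_smul, hf, smul_smul]
      have h3 : B.repr (f x) i = B.repr x i * α i := by
        rw [h2, map_sum]
        simp only [map_smul, B.repr_self, Finsupp.coe_finsetSum, Finset.sum_apply,
          Finsupp.coe_smul, Pi.smul_apply, smul_eq_mul, Finsupp.single_apply]
        rw [Finset.sum_eq_single i]
        · simp
        · intro j _ hj
          rw [if_neg hj, mul_zero]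
        · intro h
          exact absurd (Finset.mem_univ i) h
      rw [hx, map_smul, Finsupp.coe_smul, Pi.smul_apply, smul_eq_mul, mul_comm] at h3
      exact (mul_left_cancel₀ hi h3).symm
    rw [← B.sum_repr x]
    refine Submodule.sum_mem _ fun i _ => ?_
    by_cases hi : B.repr x i = 0
    · rw [hi, zero_smul]
      exact Submodule.zero_mem _
    · exact Submodule.smul_mem _ _ (Submodule.subset_span ⟨⟨i, h1 i hi⟩, rfl⟩)
  · rw [Submodule.span_le]
    rintro _ ⟨⟨i, hi⟩, rfl⟩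
    rw [SetLike.mem_coe, Module.End.mem_eigenspace_iff, hf, hi]

theorem finrank_eigenspace (B : Basis ι ℂ W) (f : W →ₗ[ℂ] W) (α : ι → ℂ)
    (hf : ∀ i, f (B i) = α i • B i) (c : ℂ) :
    finrank ℂ (Module.End.eigenspace f c) = Nat.card {i // α i = c} := by
  classical
  rw [eigenspace_eq_span B f α hf c, finrank_span_eq_card, Nat.card_eq_fintype_card]
  exact B.linearIndependent.comp _ Subtype.val_injective

theorem order_factor (q : ℝ) (hq : 1 < q) (n : ℕ) (α : ℂ) :
    meromorphicOrderAt (fun s : ℂ => 1 - (q : ℂ) ^ (-s) * α) (n : ℂ) =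
      if α = (q : ℂ) ^ n then 1 else 0 := by
  have hq0 : (q : ℂ) ≠ 0 := by exact_mod_cast (by linarith : q ≠ 0)
  have hd : ∀ s : ℂ, HasDerivAt (fun s : ℂ => 1 - (q : ℂ) ^ (-s) * α)
      (- ((q : ℂ) ^ (-s) * Complex.log q * (-1) * α)) s := by
    intro s
    have h1 : HasDerivAt (fun s : ℂ => (q : ℂ) ^ (-s)) ((q : ℂ) ^ (-s) * Complex.log q * (-1)) s :=
      HasDerivAt.const_cpow (hasDerivAt_neg s) (Or.inl hq0)
    exact (h1.mul_const α).const_sub 1
  have han : AnalyticAt ℂ (fun s : ℂ => 1 - (q : ℂ) ^ (-s) * α) (n : ℂ) :=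
    (Differentiable.analyticAt (fun s => (hd s).differentiableAt) _)
  have hpow : (q : ℂ) ^ (-(n : ℂ)) = ((q : ℂ) ^ n)⁻¹ := by
    rw [Complex.cpow_neg, Complex.cpow_natCast]
  rw [han.meromorphicOrderAt_eq]
  by_cases h : α = (q : ℂ) ^ n
  · rw [if_pos h]
    have h1 : (fun s : ℂ => 1 - (q : ℂ) ^ (-s) * α) (n : ℂ) = 0 := by
      simp only
      rw [hpow, h, inv_mul_cancel₀ (pow_ne_zero _ hq0), sub_self]
    have h2 : deriv (fun s : ℂ => 1 - (q : ℂ) ^ (-s) * α) (n : ℂ) ≠ 0 := by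
      rw [(hd n).deriv, hpow, h]
      have h3 : Complex.log q ≠ 0 := by
        rw [← Complex.ofReal_log (by linarith)]
        exact_mod_cast (Real.log_pos hq).ne'
      have h4 : -(((q : ℂ) ^ n)⁻¹ * Complex.log q * (-1) * (q : ℂ) ^ n) = Complex.log q := by
        have := pow_ne_zero n hq0
        field_simp
      rw [h4]
      exact h3
    rw [han.analyticOrderAt_eq_one_of_zero_deriv_ne_zero h1 h2]
    rfl
  · rw [if_neg h]
    have h1 : (fun s : ℂ => 1 - (q : ℂ) ^ (-s) * α) (n : ℂ) ≠ 0 := by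
      simp only
      rw [hpow]
      intro h2
      apply h
      have h3 := pow_ne_zero n hq0
      rw [sub_eq_zero] at h2
      have h4 : (q : ℂ) ^ n * 1 = (q : ℂ) ^ n * (((q : ℂ) ^ n)⁻¹ * α) := by rw [← h2]
      rw [mul_one, mul_inv_cancel_left₀ h3] at h4
      exact h4.symm
    rw [han.analyticOrderAt_eq_zero.2 h1]
    rfl

theorem order_det (q : ℝ) (hq : 1 < q) (n : ℕ) (B : Basis ι ℂ W) (f : W →ₗ[ℂ] W) (α : ι → ℂ)
    (hf : ∀ i, f (B i) = α i • B i) :
    MeromorphicAt (fun s : ℂ => LinearMap.det (1 - (q : ℂ) ^ (-s) • f)) (n : ℂ) ∧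
    meromorphicOrderAt (fun s : ℂ => LinearMap.det (1 - (q : ℂ) ^ (-s) • f)) (n : ℂ) =
      ((finrank ℂ (Module.End.eigenspace f ((q : ℂ) ^ n)) : ℤ) : WithTop ℤ) := by
  classical
  have hq0 : (q : ℂ) ≠ 0 := by exact_mod_cast (by linarith : q ≠ 0)
  have h1 : (fun s : ℂ => LinearMap.det (1 - (q : ℂ) ^ (-s) • f)) =
      fun s : ℂ => ∏ i, (1 - (q : ℂ) ^ (-s) * α i) := by
    funext s
    rw [det_one_sub B f α hf]
  have hmer : ∀ i, MeromorphicAt (fun s : ℂ => 1 - (q : ℂ) ^ (-s) * α i) (n : ℂ) := by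
    intro i
    have hd : Differentiable ℂ (fun s : ℂ => 1 - (q : ℂ) ^ (-s) * α i) := by
      intro s
      have h1 : HasDerivAt (fun s : ℂ => (q : ℂ) ^ (-s))
          ((q : ℂ) ^ (-s) * Complex.log q * (-1)) s :=
        HasDerivAt.const_cpow (hasDerivAt_neg s) (Or.inl hq0)
      exact ((h1.mul_const (α i)).const_sub 1).differentiableAt
    exact (hd.analyticAt _).meromorphicAt
  rw [h1, meromorphicOrderAt_fun_prod (fun i _ => hmer i)]
  refine ⟨MeromorphicAt.fun_prod (fun i _ => hmer i), ?_⟩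
  rw [Finset.sum_congr rfl (fun i _ => order_factor q hq n (α i)), finrank_eigenspace B f α hf,
    Finset.sum_boole, Nat.card_eq_fintype_card, Fintype.card_subtype]
  rfl

end diag


section grading

variable {R V : Type*} [CommRing R] [AddCommGroup V] [Module R V]

theorem pow_le_exteriorPower (D : Submodule R (ExteriorAlgebra R V)) (hD : D ≤ ⋀[R]^2 V) (n : ℕ) :
    D ^ n ≤ ⋀[R]^(2 * n) V := by
  have h1 : (⋀[R]^(2 * n) V : Submodule R (ExteriorAlgebra R V)) = (⋀[R]^2 V) ^ n := by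
    rw [ExteriorAlgebra.exteriorPower, ExteriorAlgebra.exteriorPower, pow_mul]
  rw [h1]
  exact pow_le_pow_left' hD n

theorem mem_pow_of_mem_adjoin (S : Set (ExteriorAlgebra R V))
    (hS : ∀ y ∈ S, y ∈ ⋀[R]^2 V) (n : ℕ) (x : ExteriorAlgebra R V)
    (hx : x ∈ Algebra.adjoin R S) (hx2 : x ∈ ⋀[R]^(2 * n) V) :
    x ∈ (Submodule.span R S) ^ n := by
  classical
  have hD : Submodule.span R S ≤ ⋀[R]^2 V := Submodule.span_le.2 hS
  have key : ∀ z ∈ Submodule.span R (Submonoid.closure S : Set (ExteriorAlgebra R V)),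
      ((DirectSum.decompose (fun i : ℕ => ⋀[R]^i V) z (2 * n) : ExteriorAlgebra R V)) ∈
        (Submodule.span R S) ^ n := by
    intro z hz
    induction hz using Submodule.span_induction with
    | mem z hz =>
      have h1 : ∃ k : ℕ, z ∈ (Submodule.span R S) ^ k := by
        induction hz using Submonoid.closure_induction with
        | mem y hy => exact ⟨1, by rw [pow_one]; exact Submodule.subset_span hy⟩
        | one => exact ⟨0, by rw [pow_zero]; exact Submodule.one_le.1 le_rfl⟩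
        | mul y z _ _ hy hz =>
          obtain ⟨k, hk⟩ := hy
          obtain ⟨l, hl⟩ := hz
          exact ⟨k + l, by rw [pow_add]; exact Submodule.mul_mem_mul hk hl⟩
      obtain ⟨k, hk⟩ := h1
      have h2 : z ∈ ⋀[R]^(2 * k) V := pow_le_exteriorPower _ hD k hk
      by_cases hkn : k = n
      · subst hkn
        rw [DirectSum.decompose_of_mem_same (fun i : ℕ => ⋀[R]^i V) h2]
        exact hk
      · rw [DirectSum.decompose_of_mem_ne (fun i : ℕ => ⋀[R]^i V) h2 (by omega)]
        exact Submodule.zero_mem _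
    | zero =>
      rw [DirectSum.decompose_zero]
      exact Submodule.zero_mem _
    | add a b _ _ ha hb =>
      rw [DirectSum.decompose_add]
      exact Submodule.add_mem _ ha hb
    | smul c a _ ha =>
      rw [DirectSum.decompose_smul]
      exact Submodule.smul_mem _ c ha
  have h3 : x ∈ Submodule.span R (Submonoid.closure S : Set (ExteriorAlgebra R V)) := by
    rw [← Algebra.adjoin_eq_span]
    exact hx
  have h4 := key x h3
  rwa [DirectSum.decompose_of_mem_same (fun i : ℕ => ⋀[R]^i V) hx2] at h4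

end grading

section zeta

variable {V : Type*} [AddCommGroup V] [Module ℂ V]

/-- The zeta function with the Weil cohomology `⋀ V`, Frobenius `F`:
`∏ det (1 - q ^ (-s) F | ⋀ ^ j V) ^ ((-1) ^ (j + 1))`. -/
noncomputable def zeta (q : ℝ) (F : V →ₗ[ℂ] V) (s : ℂ) : ℂ :=
  ∏ j ∈ Finset.range (finrank ℂ V + 1),
    (LinearMap.det (1 - (q : ℂ) ^ (-s) • exteriorPower.map j F)) ^ ((-1 : ℤ) ^ (j + 1))

/-- The span of the products of `n` elements `y` of `⋀ ^ 2 V` with `F y = q y`. -/
noncomputable def divisorProducts (q : ℂ) (F : V →ₗ[ℂ] V) (n : ℕ) :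
    Submodule ℂ (ExteriorAlgebra ℂ V) :=
  (Submodule.span ℂ {y : ExteriorAlgebra ℂ V | y ∈ ⋀[ℂ]^2 V ∧ ExteriorAlgebra.map F y = q • y}) ^ n

theorem map_coe {j : ℕ} (F : V →ₗ[ℂ] V) (x : ⋀[ℂ]^j V) :
    ((exteriorPower.map j F x : ⋀[ℂ]^j V) : ExteriorAlgebra ℂ V) =
      ExteriorAlgebra.map F (x : ExteriorAlgebra ℂ V) := by
  have h1 : (⋀[ℂ]^j V).subtype ∘ₗ exteriorPower.map j F =
      (ExteriorAlgebra.map F).toLinearMap ∘ₗ (⋀[ℂ]^j V).subtype := by
    apply exteriorPower.linearMap_ext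
    ext m
    simp only [LinearMap.compAlternatingMap_apply, LinearMap.comp_apply, Submodule.subtype_apply,
      exteriorPower.map_apply_ιMulti, exteriorPower.ιMulti_apply_coe, AlgHom.toLinearMap_apply,
      ExteriorAlgebra.map_apply_ιMulti]
  exact LinearMap.congr_fun h1 x

theorem exists_extBasis [FiniteDimensional ℂ V] (F : V →ₗ[ℂ] V) (E : Set ℂ)
    (hF : Submodule.span ℂ {v : V | ∃ μ : ℂ, μ ∈ E ∧ F v = μ • v} = ⊤) (j : ℕ) :
    ∃ (ι : Type) (_ : Fintype ι) (B : Basis ι ℂ (⋀[ℂ]^j V)) (α : ι → ℂ),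
      (∀ i, exteriorPower.map j F (B i) = α i • B i) ∧
      ∀ i, ∃ m : Fin j → ℂ, (∀ l, m l ∈ E) ∧ α i = ∏ l, m l := by
  classical
  obtain ⟨d, b, μ, hμE, hμ⟩ := Pool.Agent.H925R2.exists_eigenbasis F E hF
  refine ⟨Set.powersetCard (Fin d) j, inferInstance, b.exteriorPower j,
    fun J => ∏ l, μ (Set.powersetCard.ofFinEmbEquiv.symm J l), ?_, ?_⟩
  · intro J
    rw [exteriorPower.basis_apply, exteriorPower.map_apply_ιMulti_family]
    unfold exteriorPower.ιMulti_family
    have h1 : (F ∘ b) ∘ (Set.powersetCard.ofFinEmbEquiv.symm J) =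
        fun l => μ (Set.powersetCard.ofFinEmbEquiv.symm J l) •
          (b ∘ (Set.powersetCard.ofFinEmbEquiv.symm J)) l := by
      funext l
      simp only [Function.comp_apply, hμ]
    rw [h1]
    exact (exteriorPower.ιMulti ℂ j).toMultilinearMap.map_smul_univ _ _
  · intro J
    exact ⟨fun l => μ (Set.powersetCard.ofFinEmbEquiv.symm J l), fun l => hμE _, rfl⟩

theorem divisorProducts_eigen (q : ℂ) (F : V →ₗ[ℂ] V) (n : ℕ) :
    ∀ x ∈ divisorProducts q F n, ExteriorAlgebra.map F x = q ^ n • x := by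
  unfold divisorProducts
  induction n with
  | zero =>
    intro x hx
    rw [pow_zero] at hx
    obtain ⟨c, rfl⟩ := Submodule.mem_one.1 hx
    rw [pow_zero, one_smul, AlgHom.commutes]
  | succ n ih =>
    intro x hx
    rw [pow_succ] at hx
    induction hx using Submodule.mul_induction_on' with
    | mem_mul_mem a ha b hb =>
      have hb' : ExteriorAlgebra.map F b = q • b := by
        induction hb using Submodule.span_induction with
        | mem y hy => exact hy.2
        | zero => rw [map_zero, smul_zero]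
        | add y z _ _ hy hz => rw [map_add, hy, hz, smul_add]
        | smul c y _ hy => rw [map_smul, hy, smul_comm]
      rw [map_mul, hb', ih a ha, smul_mul_assoc, mul_smul_comm, smul_smul, pow_succ]
    | add a _ b _ ha hb => rw [map_add, ha, hb, smul_add]

theorem zeta_order [FiniteDimensional ℂ V] (q : ℝ) (hq : 1 < q) (F : V →ₗ[ℂ] V) (E : Set ℂ)
    (hE : ∀ μ ∈ E, ‖μ‖ ^ 2 = q)
    (hF : Submodule.span ℂ {v : V | ∃ μ : ℂ, μ ∈ E ∧ F v = μ • v} = ⊤) (n : ℕ)
    (hD : ∀ x : ExteriorAlgebra ℂ V, x ∈ ⋀[ℂ]^(2 * n) V →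
      ExteriorAlgebra.map F x = (q : ℂ) ^ n • x → x ∈ divisorProducts (q : ℂ) F n) :
    meromorphicOrderAt (zeta q F) (n : ℂ) =
      ((- (finrank ℂ (divisorProducts (q : ℂ) F n) : ℤ) : ℤ) : WithTop ℤ) := by
  classical
  -- the eigenspaces
  have hzero : ∀ j, j ≠ 2 * n →
      finrank ℂ (Module.End.eigenspace (exteriorPower.map j F) ((q : ℂ) ^ n)) = 0 := by
    intro j hj
    obtain ⟨ι, _, B, α, hB, hα⟩ := exists_extBasis F E hF j
    rw [finrank_eigenspace B _ α hB, Nat.card_eq_zero]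
    left
    refine ⟨fun ⟨i, hi⟩ => hj ?_⟩
    obtain ⟨m, hm1, hm2⟩ := hα i
    have h1 : (‖α i‖ ^ 2 : ℝ) = q ^ j := by
      rw [hm2, norm_prod, ← Finset.prod_pow, Finset.prod_congr rfl (fun l _ => hE _ (hm1 l)),
        Finset.prod_const, Finset.card_univ, Fintype.card_fin]
    rw [hi, norm_pow, Complex.norm_real, Real.norm_of_nonneg (by linarith), ← pow_mul] at h1
    have h2 : n * 2 = j := pow_right_injective₀ (by linarith : 0 < q) hq.ne' h1
    omega
  have hmain : finrank ℂ (Module.End.eigenspace (exteriorPower.map (2 * n) F) ((q : ℂ) ^ n)) =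
      finrank ℂ (divisorProducts (q : ℂ) F n) := by
    have h1 : (Module.End.eigenspace (exteriorPower.map (2 * n) F) ((q : ℂ) ^ n)).map
        (⋀[ℂ]^(2 * n) V).subtype = divisorProducts (q : ℂ) F n := by
      apply le_antisymm
      · rintro _ ⟨x, hx, rfl⟩
        rw [SetLike.mem_coe, Module.End.mem_eigenspace_iff] at hx
        refine hD _ x.2 ?_
        rw [Submodule.subtype_apply, ← map_coe, hx]
        rfl
      · intro x hx
        have h2 : x ∈ ⋀[ℂ]^(2 * n) V :=
          pow_le_exteriorPower _ (Submodule.span_le.2 fun y hy => hy.1) n hx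
        have h3 := divisorProducts_eigen (q : ℂ) F n x hx
        refine ⟨⟨x, h2⟩, ?_, rfl⟩
        rw [SetLike.mem_coe, Module.End.mem_eigenspace_iff]
        apply Subtype.ext
        rw [map_coe, h3]
        rfl
    rw [← h1]
    exact (LinearEquiv.finrank_eq (Submodule.equivMapOfInjective _
      (Submodule.subtype_injective _) _))
  have hdet : ∀ j : ℕ, MeromorphicAt (fun s : ℂ =>
      (LinearMap.det (1 - (q : ℂ) ^ (-s) • exteriorPower.map j F)) ^ ((-1 : ℤ) ^ (j + 1))) (n : ℂ) ∧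
      meromorphicOrderAt (fun s : ℂ =>
      (LinearMap.det (1 - (q : ℂ) ^ (-s) • exteriorPower.map j F)) ^ ((-1 : ℤ) ^ (j + 1))) (n : ℂ) =
      (((-1 : ℤ) ^ (j + 1) * finrank ℂ
        (Module.End.eigenspace (exteriorPower.map j F) ((q : ℂ) ^ n)) : ℤ) : WithTop ℤ) := by
    intro j
    obtain ⟨ι, _, B, α, hB, hα⟩ := exists_extBasis F E hF j
    obtain ⟨h1, h2⟩ := order_det q hq n B _ α hB
    refine ⟨h1.fun_zpow _, ?_⟩
    rw [fun_meromorphicOrderAt_zpow h1, h2]
    rfl
  unfold zeta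
  change meromorphicOrderAt (fun s : ℂ => ∏ j ∈ Finset.range (finrank ℂ V + 1),
    (LinearMap.det (1 - (q : ℂ) ^ (-s) • exteriorPower.map j F)) ^ ((-1 : ℤ) ^ (j + 1)))
      (n : ℂ) = _
  rw [meromorphicOrderAt_fun_prod (fun j _ => (hdet j).1),
    Finset.sum_congr rfl (fun j _ => (hdet j).2), ← WithTop.coe_sum]
  congr 1
  rw [← hmain]
  by_cases hn : 2 * n ∈ Finset.range (finrank ℂ V + 1)
  · rw [Finset.sum_eq_single_of_mem (2 * n) hn]
    · rw [pow_succ, pow_mul]
      simp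
    · intro j _ hj
      rw [hzero j hj]
      simp
  · have h1 : finrank ℂ (Module.End.eigenspace (exteriorPower.map (2 * n) F) ((q : ℂ) ^ n)) = 0 := by
      have h2 : finrank ℂ (⋀[ℂ]^(2 * n) V) = 0 := by
        rw [exteriorPower.finrank_eq, Nat.choose_eq_zero_of_lt]
        rw [Finset.mem_range] at hn
        omega
      have h3 := Submodule.finrank_le
        (Module.End.eigenspace (exteriorPower.map (2 * n) F) ((q : ℂ) ^ n))
      omega
    rw [h1, Finset.sum_eq_zero]
    · simp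
    · intro j hj
      have hj2 : j ≠ 2 * n := fun h => hn (h ▸ hj)
      rw [hzero j hj2]
      simp

end zeta


section

variable {V : Type*} [AddCommGroup V] [Module ℂ V]

theorem map_pow_apply (F : V →ₗ[ℂ] V) (s : ℕ) (x : ExteriorAlgebra ℂ V) (c : ℂ)
    (h : ExteriorAlgebra.map F x = c • x) : ExteriorAlgebra.map (F ^ s) x = c ^ s • x := by
  induction s with
  | zero =>
    rw [pow_zero, pow_zero, one_smul]
    have h1 : (1 : V →ₗ[ℂ] V) = LinearMap.id := rfl
    rw [h1, ExteriorAlgebra.map_id]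
    rfl
  | succ s ih =>
    have h1 : F ^ (s + 1) = F ∘ₗ (F ^ s) := by
      rw [pow_succ']
      rfl
    rw [h1, ← ExteriorAlgebra.map_comp_map, AlgHom.comp_apply, ih, map_smul, h, smul_smul,
      pow_succ]

theorem zeta_order_ext [FiniteDimensional ℂ V] (q : ℝ) (hq : 1 < q) (F : V →ₗ[ℂ] V) (E : Set ℂ)
    (hE : ∀ μ ∈ E, ‖μ‖ ^ 2 = q)
    (hF : Submodule.span ℂ {v : V | ∃ μ : ℂ, μ ∈ E ∧ F v = μ • v} = ⊤) (s : ℕ) (hs : 0 < s)
    (hD : ∀ (n : ℕ) (x : ExteriorAlgebra ℂ V), x ∈ ⋀[ℂ]^(2 * n) V →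
      ExteriorAlgebra.map (F ^ s) x = ((q : ℂ) ^ n) ^ s • x → x ∈ Algebra.adjoin ℂ
      {y : ExteriorAlgebra ℂ V | y ∈ ⋀[ℂ]^2 V ∧ ExteriorAlgebra.map F y = (q : ℂ) • y}) (n : ℕ) :
    meromorphicOrderAt (zeta (q ^ s) (F ^ s)) (n : ℂ) =
      ((- (finrank ℂ (divisorProducts (q : ℂ) F n) : ℤ) : ℤ) : WithTop ℤ) := by
  have hmem : ∀ (n : ℕ) (x : ExteriorAlgebra ℂ V), x ∈ ⋀[ℂ]^(2 * n) V →
      ExteriorAlgebra.map (F ^ s) x = ((q : ℂ) ^ n) ^ s • x → x ∈ divisorProducts (q : ℂ) F n := by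
    intro n x hx h
    exact mem_pow_of_mem_adjoin _ (fun y hy => hy.1) n x (hD n x hx h) hx
  have hspan : Submodule.span ℂ {y : ExteriorAlgebra ℂ V | y ∈ ⋀[ℂ]^2 V ∧
      ExteriorAlgebra.map (F ^ s) y = ((q ^ s : ℝ) : ℂ) • y} =
      Submodule.span ℂ {y : ExteriorAlgebra ℂ V | y ∈ ⋀[ℂ]^2 V ∧
        ExteriorAlgebra.map F y = (q : ℂ) • y} := by
    apply le_antisymm
    · rw [Submodule.span_le]
      rintro y ⟨hy1, hy2⟩
      have h1 := hmem 1 y (by simpa using hy1) (by rw [hy2, pow_one]; push_cast; rfl)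
      unfold divisorProducts at h1
      rwa [pow_one] at h1
    · refine Submodule.span_mono ?_
      rintro y ⟨hy1, hy2⟩
      refine ⟨hy1, ?_⟩
      rw [map_pow_apply F s y _ hy2]
      push_cast
      rfl
  have heq : ∀ n, divisorProducts ((q ^ s : ℝ) : ℂ) (F ^ s) n = divisorProducts (q : ℂ) F n := by
    intro n
    unfold divisorProducts
    rw [hspan]
  rw [← heq]
  refine zeta_order (q ^ s) (one_lt_pow₀ hq hs.ne') (F ^ s) {ν | ∃ μ ∈ E, ν = μ ^ s} ?_ ?_ n ?_
  · rintro _ ⟨μ, hμ, rfl⟩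
    rw [norm_pow, ← pow_mul, mul_comm, pow_mul, hE μ hμ]
  · rw [eq_top_iff, ← hF]
    refine Submodule.span_mono ?_
    rintro v ⟨μ, hμ, hv⟩
    refine ⟨μ ^ s, ⟨μ, hμ, rfl⟩, ?_⟩
    clear hs hD hmem hspan heq
    induction s with
    | zero => simp
    | succ m ih => rw [pow_succ', Module.End.mul_apply, ih, map_smul, hv, smul_smul, pow_succ]
  · intro x hx h
    rw [heq]
    refine hmem n x hx ?_
    rw [h]
    push_cast
    rw [pow_right_comm]

end

end Pool.Agent.W521.Pole
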