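import Mathlib
import Pool.Agent.W521.Frob

/-!
# Densities of the factorisation patterns modulo a prime
-/

set_option autoImplicit false

namespace Pool.Agent.W521.Density

open Polynomial

/-- The monic polynomial of degree `g` with lower coefficients `a`. -/
noncomputable def mkPoly {R : Type*} [CommRing R] (g : ℕ) (a : Fin g → R) : R[X] :=
  X ^ g + ∑ k : Fin g, C (a k) * X ^ (k : ℕ)

section

variable {R : Type*} [CommRing R]

theorem degree_sum_lt [Nontrivial R] (g : ℕ) (a : Fin g → R) :
    (∑ k : Fin g, C (a k) * X ^ (k : ℕ)).degree < (g : WithBot ℕ) := by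
  exact degree_sum_fin_lt a

theorem mkPoly_monic [Nontrivial R] (g : ℕ) (a : Fin g → R) : (mkPoly g a).Monic := by
  unfold mkPoly
  exact monic_X_pow_add (degree_sum_lt g a)

theorem mkPoly_natDegree [Nontrivial R] (g : ℕ) (a : Fin g → R) : (mkPoly g a).natDegree = g := by
  unfold mkPoly
  rw [natDegree_add_eq_left_of_degree_lt, natDegree_X_pow]
  rw [degree_X_pow]
  exact degree_sum_lt g a

theorem mkPoly_coeff (g : ℕ) (a : Fin g → R) (k : Fin g) : (mkPoly g a).coeff k = a k := by
  unfold mkPoly
  rw [coeff_add, coeff_X_pow, if_neg (by omega), zero_add, finsetSum_coeff,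
    Finset.sum_eq_single k]
  · rw [coeff_C_mul_X_pow, if_pos rfl]
  · intro b _ hb
    rw [coeff_C_mul_X_pow, if_neg (fun h => hb (Fin.ext h.symm))]
  · intro h
    exact absurd (Finset.mem_univ k) h

theorem mkPoly_injective (g : ℕ) : Function.Injective (mkPoly (R := R) g) := by
  intro a b hab
  funext k
  rw [← mkPoly_coeff g a k, hab, mkPoly_coeff]

theorem eq_mkPoly [Nontrivial R] {g : ℕ} {p : R[X]} (hp : p.Monic) (hg : p.natDegree = g) :
    mkPoly g (fun k : Fin g => p.coeff k) = p := by
  unfold mkPoly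
  subst hg
  conv_rhs => rw [hp.as_sum]
  congr 1
  rw [Finset.sum_range]

theorem map_mkPoly {S : Type*} [CommRing S] (f : R →+* S) (g : ℕ) (a : Fin g → R) :
    (mkPoly g a).map f = mkPoly g (fun k => f (a k)) := by
  unfold mkPoly
  rw [Polynomial.map_add, Polynomial.map_pow, map_X, Polynomial.map_sum]
  congr 1
  refine Finset.sum_congr rfl fun k _ => ?_
  rw [Polynomial.map_mul, map_C, Polynomial.map_pow, map_X]

end

section irr

variable (l g : ℕ) [Fact l.Prime] (K : Type) [Field K] [Fintype K]
  [Algebra (ZMod l) K]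

theorem pow_minpoly (x : K) (d : ℕ) (hd : (minpoly (ZMod l) x).natDegree = d) :
    x ^ (l ^ d) = x := by
  have hx : IsIntegral (ZMod l) x := Algebra.IsIntegral.isIntegral x
  let F := IntermediateField.adjoin (ZMod l) {x}
  have hF : Module.finrank (ZMod l) F = d := by
    rw [← hd]
    exact IntermediateField.adjoin.finrank hx
  have : Fintype F := Fintype.ofFinite F
  have hcard : Fintype.card F = l ^ d := by
    rw [Module.card_eq_pow_finrank (K := ZMod l) (V := F), hF, ZMod.card]
  have hxF : x ∈ F := IntermediateField.mem_adjoin_simple_self _ x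
  have h1 := FiniteField.pow_card (⟨x, hxF⟩ : F)
  rw [hcard] at h1
  exact congrArg Subtype.val h1

theorem card_small (d : ℕ) (hd : 0 < d) :
    (Finset.univ.filter (fun x : K => (minpoly (ZMod l) x).natDegree = d)).card ≤ l ^ d := by
  classical
  have hl := (Fact.out : l.Prime).one_lt
  have h1 : 1 < l ^ d := Nat.one_lt_pow hd.ne' hl
  have hP : (X ^ (l ^ d) - X : K[X]) ≠ 0 := FiniteField.X_pow_card_sub_X_ne_zero K h1
  have h2 : (Finset.univ.filter (fun x : K => (minpoly (ZMod l) x).natDegree = d)) ⊆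
      (X ^ (l ^ d) - X : K[X]).roots.toFinset := by
    intro x hx
    rw [Multiset.mem_toFinset, mem_roots hP, IsRoot.def, eval_sub, eval_pow, eval_X,
      pow_minpoly l K x d (Finset.mem_filter.1 hx).2, sub_self]
  refine (Finset.card_le_card h2).trans ((Multiset.toFinset_card_le _).trans ?_)
  refine (card_roots' _).trans ?_
  rw [FiniteField.X_pow_card_sub_X_natDegree_eq K h1]

theorem sum_pow_le (hl : 3 ≤ l) (g : ℕ) : 2 * ∑ d ∈ Finset.range g, l ^ d ≤ l ^ g := by
  induction g with
  | zero => simp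
  | succ g ih =>
    rw [Finset.sum_range_succ, pow_succ]
    have h1 := Nat.mul_le_mul_left (l ^ g) hl
    omega

theorem card_generators (hl : 3 ≤ l) (hg : 0 < g) (hK : Module.finrank (ZMod l) K = g) :
    l ^ g ≤ 2 * (Finset.univ.filter
      (fun x : K => (minpoly (ZMod l) x).natDegree = g)).card := by
  classical
  have hcard : Fintype.card K = l ^ g := by
    rw [Module.card_eq_pow_finrank (K := ZMod l) (V := K), hK, ZMod.card]
  have : FiniteDimensional (ZMod l) K := Module.Finite.of_finite
  have hle : ∀ x : K, 0 < (minpoly (ZMod l) x).natDegree ∧ (minpoly (ZMod l) x).natDegree ≤ g := by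
    intro x
    have hx : IsIntegral (ZMod l) x := Algebra.IsIntegral.isIntegral x
    refine ⟨minpoly.natDegree_pos hx, ?_⟩
    rw [← hK]
    exact minpoly.natDegree_le x
  have h1 : (Finset.univ : Finset K) ⊆
      (Finset.univ.filter (fun x : K => (minpoly (ZMod l) x).natDegree = g)) ∪
      (Finset.range g).biUnion (fun d => if d = 0 then ∅ else
        Finset.univ.filter (fun x : K => (minpoly (ZMod l) x).natDegree = d)) := by
    intro x _
    rw [Finset.mem_union]
    by_cases hx : (minpoly (ZMod l) x).natDegree = g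
    · exact Or.inl (Finset.mem_filter.2 ⟨Finset.mem_univ _, hx⟩)
    · right
      rw [Finset.mem_biUnion]
      have h2 := hle x
      refine ⟨(minpoly (ZMod l) x).natDegree, Finset.mem_range.2 (by omega), ?_⟩
      rw [if_neg (by omega)]
      exact Finset.mem_filter.2 ⟨Finset.mem_univ _, rfl⟩
  have h2 := Finset.card_le_card h1
  rw [Finset.card_univ, hcard] at h2
  have h3 := Finset.card_union_le (Finset.univ.filter
    (fun x : K => (minpoly (ZMod l) x).natDegree = g)) ((Finset.range g).biUnion
    (fun d => if d = 0 then ∅ else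
        Finset.univ.filter (fun x : K => (minpoly (ZMod l) x).natDegree = d)))
  have h4 : ((Finset.range g).biUnion (fun d => if d = 0 then ∅ else
        Finset.univ.filter (fun x : K => (minpoly (ZMod l) x).natDegree = d))).card ≤
      ∑ d ∈ Finset.range g, l ^ d := by
    refine Finset.card_biUnion_le.trans (Finset.sum_le_sum fun d _ => ?_)
    by_cases hd : d = 0
    · rw [if_pos hd]
      simp
    · rw [if_neg hd]
      exact card_small l K d (Nat.pos_of_ne_zero hd)
  have h5 := sum_pow_le l hl g
  omega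

/-- The coefficient vectors of the irreducible polynomials. -/
noncomputable def irrSet : Finset (Fin g → ZMod l) := by
  classical
  exact Finset.univ.filter (fun a => Irreducible (mkPoly g a))

theorem card_irrSet (hl : 3 ≤ l) (hg : 0 < g) : l ^ g ≤ 2 * g * (irrSet l g).card := by
  classical
  let K := GaloisField l g
  have : Fintype K := Fintype.ofFinite K
  have hK : Module.finrank (ZMod l) K = g := GaloisField.finrank l hg.ne'
  have h1 := card_generators l g K hl hg hK
  set G := (Finset.univ.filter (fun x : K => (minpoly (ZMod l) x).natDegree = g)) with hG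
  let f : K → (Fin g → ZMod l) := fun x k => (minpoly (ZMod l) x).coeff k
  have hf : ∀ x ∈ G, mkPoly g (f x) = minpoly (ZMod l) x := by
    intro x hx
    have hx' : IsIntegral (ZMod l) x := Algebra.IsIntegral.isIntegral x
    exact eq_mkPoly (minpoly.monic hx') (Finset.mem_filter.1 hx).2
  have hmaps : ∀ x ∈ G, f x ∈ irrSet l g := by
    intro x hx
    have hx' : IsIntegral (ZMod l) x := Algebra.IsIntegral.isIntegral x
    unfold irrSet
    refine Finset.mem_filter.2 ⟨Finset.mem_univ _, ?_⟩
    rw [hf x hx]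
    exact minpoly.irreducible hx'
  have h2 : G.card ≤ g * (irrSet l g).card := by
    refine Finset.card_le_mul_card_image_of_maps_to hmaps g ?_
    intro a ha
    have hP : ((mkPoly g a).map (algebraMap (ZMod l) K)) ≠ 0 :=
      ((mkPoly_monic g a).map _).ne_zero
    have h3 : (G.filter (fun x => f x = a)) ⊆
        ((mkPoly g a).map (algebraMap (ZMod l) K)).roots.toFinset := by
      intro x hx
      obtain ⟨hx1, hx2⟩ := Finset.mem_filter.1 hx
      rw [Multiset.mem_toFinset, mem_roots hP, IsRoot.def, eval_map, ← hx2, hf x hx1]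
      exact minpoly.aeval _ x
    refine (Finset.card_le_card h3).trans ((Multiset.toFinset_card_le _).trans ?_)
    refine (card_roots' _).trans ?_
    rw [(mkPoly_monic g a).natDegree_map, mkPoly_natDegree]
  calc l ^ g ≤ 2 * G.card := h1
    _ ≤ 2 * (g * (irrSet l g).card) := Nat.mul_le_mul_left _ h2
    _ = 2 * g * (irrSet l g).card := by ring

end irr

section squares

variable (l : ℕ) [Fact l.Prime] (q : ℕ)

/-- The residues `t` for which `t ^ 2 - 4 q` is a nonzero square. -/
noncomputable def SS : Finset (ZMod l) := by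
  classical
  exact Finset.univ.filter (fun t => IsSquare (t ^ 2 - 4 * (q : ZMod l)) ∧
    t ^ 2 - 4 * (q : ZMod l) ≠ 0)

/-- The residues `t` for which `t ^ 2 - 4 q` is not a square. -/
noncomputable def NN : Finset (ZMod l) := by
  classical
  exact Finset.univ.filter (fun t => ¬ IsSquare (t ^ 2 - 4 * (q : ZMod l)))

theorem mem_SS (t : ZMod l) : t ∈ SS l q ↔ IsSquare (t ^ 2 - 4 * (q : ZMod l)) ∧
    t ^ 2 - 4 * (q : ZMod l) ≠ 0 := by
  unfold SS
  simp

theorem mem_NN (t : ZMod l) : t ∈ NN l q ↔ ¬ IsSquare (t ^ 2 - 4 * (q : ZMod l)) := by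
  unfold NN
  simp

theorem disjoint_SN : Disjoint (SS l q) (NN l q) := by
  rw [Finset.disjoint_left]
  intro t h1 h2
  exact ((mem_NN l q t).1 h2) ((mem_SS l q t).1 h1).1

theorem two_ne (hl : 3 ≤ l) : (2 : ZMod l) ≠ 0 := by
  intro h
  have h1 : ((2 : ℕ) : ZMod l) = 0 := by exact_mod_cast h
  rw [ZMod.natCast_eq_zero_iff] at h1
  have := Nat.le_of_dvd two_pos h1
  omega

/-- The map `v ↦ v + q / v`. -/
theorem card_SS (hl : 3 ≤ l) (hlq : ¬ l ∣ q) : l ≤ 2 * (SS l q).card + 3 ∧
    2 * (SS l q).card ≤ l := by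
  classical
  have hq : (q : ZMod l) ≠ 0 := by
    rw [Ne, ZMod.natCast_eq_zero_iff]
    exact hlq
  have h2 := two_ne l hl
  let U : Finset (ZMod l) := Finset.univ.filter (fun v => v ≠ 0 ∧ v ^ 2 ≠ q)
  have hU : l ≤ U.card + 3 := by
    have h3 : (Finset.univ : Finset (ZMod l)) ⊆
        U ∪ ({0} ∪ (X ^ 2 - C (q : ZMod l) : (ZMod l)[X]).roots.toFinset) := by
      intro v _
      by_cases h4 : v = 0
      · simp [h4]
      · by_cases h5 : v ^ 2 = q
        · have h6 : v ∈ (X ^ 2 - C (q : ZMod l) : (ZMod l)[X]).roots.toFinset := by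
            rw [Multiset.mem_toFinset, mem_roots (X_pow_sub_C_ne_zero two_pos _), IsRoot.def]
            simp [h5]
          simp only [Finset.mem_union]
          exact Or.inr (Or.inr h6)
        · exact Finset.mem_union_left _ (Finset.mem_filter.2 ⟨Finset.mem_univ _, h4, h5⟩)
    have h4 := Finset.card_le_card h3
    rw [Finset.card_univ, ZMod.card] at h4
    have h5 := Finset.card_union_le U
      ({0} ∪ (X ^ 2 - C (q : ZMod l) : (ZMod l)[X]).roots.toFinset)
    have h6 := Finset.card_union_le ({0} : Finset (ZMod l))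
      (X ^ 2 - C (q : ZMod l) : (ZMod l)[X]).roots.toFinset
    have h7 : (X ^ 2 - C (q : ZMod l) : (ZMod l)[X]).roots.toFinset.card ≤ 2 := by
      refine (Multiset.toFinset_card_le _).trans ((card_roots' _).trans ?_)
      rw [natDegree_X_pow_sub_C]
    rw [Finset.card_singleton] at h6
    omega
  have hmaps : ∀ v ∈ U, v + q / v ∈ SS l q := by
    intro v hv
    obtain ⟨-, hv0, hv1⟩ := Finset.mem_filter.1 hv
    rw [mem_SS]
    have h3 : (v + q / v) ^ 2 - 4 * (q : ZMod l) = (v - q / v) * (v - q / v) := by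
      field_simp
      ring
    rw [h3]
    refine ⟨⟨_, rfl⟩, ?_⟩
    intro h4
    have h5 : v - q / v = 0 := mul_self_eq_zero.1 h4
    apply hv1
    field_simp at h5
    linear_combination h5
  have hfib : ∀ t ∈ SS l q, (U.filter (fun v => v + q / v = t)).card = 2 := by
    intro t ht
    obtain ⟨⟨r, hr⟩, ht0⟩ := (mem_SS l q t).1 ht
    have hr0 : r ≠ 0 := by
      rintro rfl
      rw [mul_zero] at hr
      exact ht0 hr
    have h3 : U.filter (fun v => v + q / v = t) = {(t + r) / 2, (t - r) / 2} := by
      ext v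
      simp only [U, Finset.mem_filter, Finset.mem_univ, true_and, Finset.mem_insert,
        Finset.mem_singleton]
      constructor
      · rintro ⟨⟨hv0, -⟩, hv⟩
        have h4 : v ^ 2 - t * v + q = 0 := by
          rw [← hv]
          field_simp
          ring
        have h5 : (v - (t + r) / 2) * (v - (t - r) / 2) = 0 := by
          field_simp
          linear_combination 4 * h4 + hr
        rcases mul_eq_zero.1 h5 with h6 | h6
        · exact Or.inl (sub_eq_zero.1 h6)
        · exact Or.inr (sub_eq_zero.1 h6)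
      · intro hv
        have h4 : v ^ 2 - t * v + q = 0 := by
          rcases hv with rfl | rfl
          · field_simp
            linear_combination -hr
          · field_simp
            linear_combination -hr
        have hv0 : v ≠ 0 := by
          rintro rfl
          apply hq
          linear_combination h4
        refine ⟨⟨hv0, ?_⟩, ?_⟩
        · intro h5
          have h6 : (2 * v - t) * v = 0 := by linear_combination h4 + h5
          have h7 : 2 * v - t = 0 := (mul_eq_zero.1 h6).resolve_right hv0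
          rcases hv with rfl | rfl
          · apply hr0
            field_simp at h7
            linear_combination h7
          · apply hr0
            field_simp at h7
            linear_combination -h7
        · field_simp
          linear_combination h4
    rw [h3, Finset.card_pair]
    intro h4
    apply hr0
    have h5 : 2 * r = 0 := by
      field_simp at h4
      linear_combination h4
    exact (mul_eq_zero.1 h5).resolve_left h2
  have hcard : U.card = 2 * (SS l q).card := by
    rw [Finset.card_eq_sum_card_fiberwise hmaps, Finset.sum_congr rfl hfib, Finset.sum_const,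
      smul_eq_mul, mul_comm]
  constructor
  · omega
  · rw [← hcard]
    have := Finset.card_le_univ U
    rwa [ZMod.card] at this

theorem card_NN (hl : 3 ≤ l) (hlq : ¬ l ∣ q) : l ≤ 2 * (NN l q).card + 4 := by
  classical
  have h2 := two_ne l hl
  have h3 : (Finset.univ : Finset (ZMod l)) ⊆
      NN l q ∪ (SS l q ∪ (X ^ 2 - C (4 * (q : ZMod l)) : (ZMod l)[X]).roots.toFinset) := by
    intro t _
    rw [Finset.mem_union, Finset.mem_union, mem_NN, mem_SS]
    by_cases h4 : IsSquare (t ^ 2 - 4 * (q : ZMod l))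
    · by_cases h5 : t ^ 2 - 4 * (q : ZMod l) = 0
      · right
        right
        rw [Multiset.mem_toFinset, mem_roots (X_pow_sub_C_ne_zero two_pos _), IsRoot.def]
        simpa using h5
      · exact Or.inr (Or.inl ⟨h4, h5⟩)
    · exact Or.inl h4
  have h4 := Finset.card_le_card h3
  rw [Finset.card_univ, ZMod.card] at h4
  have h5 := Finset.card_union_le (NN l q)
    (SS l q ∪ (X ^ 2 - C (4 * (q : ZMod l)) : (ZMod l)[X]).roots.toFinset)
  have h6 := Finset.card_union_le (SS l q)
    (X ^ 2 - C (4 * (q : ZMod l)) : (ZMod l)[X]).roots.toFinset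
  have h7 : (X ^ 2 - C (4 * (q : ZMod l)) : (ZMod l)[X]).roots.toFinset.card ≤ 2 := by
    refine (Multiset.toFinset_card_le _).trans ((card_roots' _).trans ?_)
    rw [natDegree_X_pow_sub_C]
  have h8 := (card_SS l q hl hlq).2
  omega

/-- The coefficient vector of `∏ (X - t)`, `t ∈ T`. -/
noncomputable def vec {l : ℕ} (g : ℕ) (T : Finset (ZMod l)) : Fin g → ZMod l :=
  fun k => (∏ t ∈ T, (X - C t) : (ZMod l)[X]).coeff k

theorem mkPoly_vec {g : ℕ} (T : Finset (ZMod l)) (hT : T.card = g) :
    mkPoly g (vec g T) = ∏ t ∈ T, (X - C t) := by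
  apply eq_mkPoly (monic_prod_X_sub_C _ _)
  rw [natDegree_prod_of_monic _ _ fun t _ => monic_X_sub_C t]
  simp [hT]

theorem vec_injOn (g : ℕ) (T T' : Finset (ZMod l)) (hT : T.card = g) (hT' : T'.card = g)
    (h : vec g T = vec g T') : T = T' := by
  have h1 := mkPoly_vec l T hT
  rw [h, mkPoly_vec l T' hT'] at h1
  have h2 := congrArg roots h1
  have h3 : ∀ S : Finset (ZMod l), (∏ t ∈ S, (X - C t) : (ZMod l)[X]).roots = S.val := by
    intro S
    exact roots_prod_X_sub_C S
  rw [h3, h3] at h2
  exact (Finset.val_inj.1 h2).symm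

/-- All roots in `SS`. -/
noncomputable def splitSet (g : ℕ) : Finset (Fin g → ZMod l) :=
  ((SS l q).powersetCard g).image (vec g)

/-- One root in `NN`, the others in `SS`. -/
noncomputable def flipFam (g : ℕ) : Finset (Finset (ZMod l)) :=
  ((NN l q) ×ˢ ((SS l q).powersetCard (g - 1))).image (fun p => insert p.1 p.2)

noncomputable def flipSet (g : ℕ) : Finset (Fin g → ZMod l) := (flipFam l q g).image (vec g)

theorem card_splitSet (g : ℕ) : (splitSet l q g).card = (SS l q).card.choose g := by
  unfold splitSet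
  rw [Finset.card_image_of_injOn, Finset.card_powersetCard]
  intro T hT T' hT' h
  exact vec_injOn l g T T' (Finset.mem_powersetCard.1 hT).2 (Finset.mem_powersetCard.1 hT').2 h

theorem mem_flipFam {g : ℕ} (hg : 0 < g) (T : Finset (ZMod l)) (hT : T ∈ flipFam l q g) :
    ∃ t₀ ∈ NN l q, ∃ T' ⊆ SS l q, T'.card = g - 1 ∧ t₀ ∉ T' ∧ T = insert t₀ T' ∧ T.card = g := by
  unfold flipFam at hT
  obtain ⟨⟨t₀, T'⟩, h1, h2⟩ := Finset.mem_image.1 hT
  obtain ⟨h3, h4⟩ := Finset.mem_product.1 h1
  obtain ⟨h5, h6⟩ := Finset.mem_powersetCard.1 h4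
  have h7 : t₀ ∉ T' := fun h => Finset.disjoint_left.1 (disjoint_SN l q) (h5 h) h3
  refine ⟨t₀, h3, T', h5, h6, h7, h2.symm, ?_⟩
  rw [← h2]
  change (insert t₀ T').card = g
  rw [Finset.card_insert_of_notMem h7, h6]
  omega

theorem card_flipSet {g : ℕ} (hg : 0 < g) :
    (flipSet l q g).card = (NN l q).card * (SS l q).card.choose (g - 1) := by
  unfold flipSet
  rw [Finset.card_image_of_injOn]
  · unfold flipFam
    rw [Finset.card_image_of_injOn, Finset.card_product, Finset.card_powersetCard]
    rintro ⟨t, T⟩ h ⟨t', T'⟩ h' hh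
    obtain ⟨h3, h4⟩ := Finset.mem_product.1 h
    obtain ⟨h3', h4'⟩ := Finset.mem_product.1 h'
    have h5 := (Finset.mem_powersetCard.1 h4).1
    have h5' := (Finset.mem_powersetCard.1 h4').1
    have hd := Finset.disjoint_left.1 (disjoint_SN l q)
    change insert t T = insert t' T' at hh
    have e1 : t = t' := by
      have h6 : t ∈ insert t' T' := hh ▸ Finset.mem_insert_self t T
      rcases Finset.mem_insert.1 h6 with h7 | h7
      · exact h7
      · exact absurd h3 (hd (h5' h7))
    subst e1
    have e2 : T = T' := by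
      have h7 : t ∉ T := fun h => hd (h5 h) h3
      have h7' : t ∉ T' := fun h => hd (h5' h) h3
      rw [← Finset.erase_insert h7, hh, Finset.erase_insert h7']
    rw [e2]
  · intro T hT T' hT' h
    obtain ⟨_, _, _, _, _, _, _, e⟩ := mem_flipFam l q hg T hT
    obtain ⟨_, _, _, _, _, _, _, e'⟩ := mem_flipFam l q hg T' hT'
    exact vec_injOn l g T T' e e' h

theorem choose_lower (g : ℕ) (hl : 4 * g + 12 ≤ l) (hlq : ¬ l ∣ q) :
    l ^ g ≤ 4 ^ g * g.factorial * (SS l q).card.choose g := by
  have h1 := (card_SS l q (by omega) hlq).1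
  have h2 : l ≤ 4 * ((SS l q).card + 1 - g) := by omega
  have h3 : ((SS l q).card + 1 - g) ^ g ≤ (SS l q).card.choose g * g.factorial := by
    have h4 := Nat.pow_le_choose (α := ℚ) g (SS l q).card
    rw [div_le_iff₀ (by positivity)] at h4
    exact_mod_cast h4
  calc l ^ g ≤ (4 * ((SS l q).card + 1 - g)) ^ g := Nat.pow_le_pow_left h2 g
    _ = 4 ^ g * ((SS l q).card + 1 - g) ^ g := mul_pow _ _ _
    _ ≤ 4 ^ g * ((SS l q).card.choose g * g.factorial) := Nat.mul_le_mul_left _ h3
    _ = _ := by ring

theorem splitSet_lower (g : ℕ) (hl : 4 * g + 12 ≤ l) (hlq : ¬ l ∣ q) :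
    l ^ g ≤ 4 ^ g * g.factorial * (splitSet l q g).card := by
  rw [card_splitSet]
  exact choose_lower l q g hl hlq

theorem flipSet_lower (g : ℕ) (hg : 0 < g) (hl : 4 * g + 12 ≤ l) (hlq : ¬ l ∣ q) :
    l ^ g ≤ 4 ^ g * g.factorial * (flipSet l q g).card := by
  rw [card_flipSet l q hg]
  obtain ⟨g', rfl⟩ : ∃ g', g = g' + 1 := ⟨g - 1, by omega⟩
  have h1 := choose_lower l q g' (by omega) hlq
  have h2 : l ≤ 4 * (NN l q).card := by
    have := card_NN l q (by omega) hlq
    omega
  rw [Nat.add_sub_cancel, pow_succ, pow_succ, Nat.factorial_succ]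
  calc l ^ g' * l ≤ (4 ^ g' * g'.factorial * (SS l q).card.choose g') * (4 * (NN l q).card) :=
        Nat.mul_le_mul h1 h2
    _ = 1 * (4 ^ g' * 4 * g'.factorial * ((NN l q).card * (SS l q).card.choose g')) := by ring
    _ ≤ (g' + 1) * (4 ^ g' * 4 * g'.factorial * ((NN l q).card * (SS l q).card.choose g')) :=
        Nat.mul_le_mul_right _ (by omega)
    _ = _ := by ring

end squares

section product

variable {I : Type} [Fintype I] [DecidableEq I] (g : I → ℕ)

/-- Vectors all of whose blocks belong to given sets. -/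
noncomputable def blocks {R : Type*} (A : ∀ i, Finset (Fin (g i) → R)) :
    Finset ((Σ i, Fin (g i)) → R) :=
  (Fintype.piFinset A).map (Equiv.piCurry (fun _ _ => R)).symm.toEmbedding

theorem mem_blocks {R : Type*} (A : ∀ i, Finset (Fin (g i) → R)) (a : (Σ i, Fin (g i)) → R) :
    a ∈ blocks g A ↔ ∀ i, (fun k => a ⟨i, k⟩) ∈ A i := by
  unfold blocks
  rw [Finset.mem_map_equiv, Equiv.symm_symm, Fintype.mem_piFinset]
  rfl

theorem card_blocks {R : Type*} (A : ∀ i, Finset (Fin (g i) → R)) :
    (blocks g A).card = ∏ i, (A i).card := by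
  unfold blocks
  rw [Finset.card_map, Fintype.card_piFinset]

/-- The event that the flip pattern holds with the flip in the block `i₀`. -/
noncomputable def flipEvent (q : ℕ) (i₀ : I) (l : ℕ) [Fact l.Prime] :
    Finset ((Σ i, Fin (g i)) → ZMod l) :=
  blocks g (fun i => if i = i₀ then flipSet l q (g i) else splitSet l q (g i))

/-- The event that the block `i₀` is irreducible. -/
noncomputable def irrEvent (i₀ : I) (l : ℕ) [Fact l.Prime] : Finset ((Σ i, Fin (g i)) → ZMod l) :=
  blocks g (fun i => if i = i₀ then irrSet l (g i) else Finset.univ)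

theorem flipEvent_lower (hg : ∀ i, 0 < g i) (q : ℕ) (i₀ : I) (l : ℕ) [Fact l.Prime]
    (hl : ∀ i, 4 * g i + 12 ≤ l) (hlq : ¬ l ∣ q) :
    l ^ (∑ i, g i) ≤ (∏ i, 4 ^ g i * (g i).factorial) * (flipEvent g q i₀ l).card := by
  unfold flipEvent
  rw [card_blocks, ← Finset.prod_mul_distrib, ← Finset.prod_pow_eq_pow_sum]
  refine Finset.prod_le_prod' fun i _ => ?_
  split_ifs with h
  · exact flipSet_lower l q (g i) (hg i) (hl i) hlq
  · exact splitSet_lower l q (g i) (hl i) hlq

theorem irrEvent_lower (hg : ∀ i, 0 < g i) (i₀ : I) (l : ℕ) [Fact l.Prime] (hl : 3 ≤ l) :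
    l ^ (∑ i, g i) ≤ (∏ i, 2 * g i) * (irrEvent g i₀ l).card := by
  unfold irrEvent
  rw [card_blocks, ← Finset.prod_mul_distrib, ← Finset.prod_pow_eq_pow_sum]
  refine Finset.prod_le_prod' fun i _ => ?_
  split_ifs with h
  · exact card_irrSet l (g i) hl (hg i)
  · rw [Finset.card_univ, Fintype.card_fun, ZMod.card, Fintype.card_fin]
    exact Nat.le_mul_of_pos_left _ (by have := hg i; positivity)

/-- The polynomials with coefficients `x`. -/
noncomputable def polys {R : Type*} [CommRing R] (x : (Σ i, Fin (g i)) → R) (i : I) : R[X] :=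
  mkPoly (g i) (fun k => x ⟨i, k⟩)

theorem flipPattern_of_mem (hg : ∀ i, 0 < g i) (q : ℕ) (i₀ : I) (l : ℕ) [Fact l.Prime]
    (x : (Σ i, Fin (g i)) → ℤ) (hx : (fun s => ((x s : ℤ) : ZMod l)) ∈ flipEvent g q i₀ l) :
    Frob.FlipPattern q (polys g x) i₀ l := by
  classical
  unfold flipEvent at hx
  rw [mem_blocks] at hx
  have hmap : ∀ i, (polys g x i).map (Int.castRingHom (ZMod l)) =
      mkPoly (g i) (fun k => ((x ⟨i, k⟩ : ℤ) : ZMod l)) := by
    intro i
    unfold polys
    rw [map_mkPoly]
    rfl
  have h0 := hx i₀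
  rw [if_pos rfl] at h0
  obtain ⟨T₀, hT₀, hv₀⟩ := Finset.mem_image.1 h0
  obtain ⟨t₀, ht₀, T', hT', -, htT', hins, hcard⟩ := mem_flipFam l q (hg i₀) T₀ hT₀
  have h1 : ∀ i, i ≠ i₀ → ∃ T ⊆ SS l q, T.card = g i ∧ vec (g i) T =
      (fun k => ((x ⟨i, k⟩ : ℤ) : ZMod l)) := by
    intro i hi
    have h2 := hx i
    rw [if_neg hi] at h2
    obtain ⟨T, hT, hv⟩ := Finset.mem_image.1 h2
    obtain ⟨h3, h4⟩ := Finset.mem_powersetCard.1 hT
    exact ⟨T, h3, h4, hv⟩
  choose T hT1 hT2 hT3 using h1
  refine ⟨fun i => if hi : i = i₀ then T₀ else T i hi, t₀, ?_, (mem_NN l q t₀).1 ht₀, ?_, ?_⟩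
  · simp [hins]
  · intro i
    rw [hmap]
    by_cases hi : i = i₀
    · subst hi
      simp only [dite_true]
      rw [← mkPoly_vec l T₀ hcard, hv₀]
    · simp only [dif_neg hi]
      rw [← mkPoly_vec l (T i hi) (hT2 i hi), hT3 i hi]
  · intro i t ht hne
    by_cases hi : i = i₀
    · subst hi
      simp only [dite_true] at ht
      rw [hins, Finset.mem_insert] at ht
      rcases ht with e | e
      · exact absurd ⟨rfl, e⟩ hne
      · exact (mem_SS l q t).1 (hT' e)
    · simp only [dif_neg hi] at ht
      exact (mem_SS l q t).1 (hT1 i hi ht)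

theorem irreducible_of_mem (i₀ : I) (l : ℕ) [Fact l.Prime]
    (x : (Σ i, Fin (g i)) → ℤ) (hx : (fun s => ((x s : ℤ) : ZMod l)) ∈ irrEvent g i₀ l) :
    Irreducible ((polys g x i₀).map (Int.castRingHom ℚ)) := by
  classical
  unfold irrEvent at hx
  rw [mem_blocks] at hx
  have h0 := hx i₀
  rw [if_pos rfl] at h0
  unfold irrSet at h0
  have h1 := (Finset.mem_filter.1 h0).2
  have h2 : (polys g x i₀).map (Int.castRingHom (ZMod l)) =
      mkPoly (g i₀) (fun k => ((x ⟨i₀, k⟩ : ℤ) : ZMod l)) := by
    unfold polys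
    rw [map_mkPoly]
    rfl
  rw [← h2] at h1
  have hm : (polys g x i₀).Monic := mkPoly_monic _ _
  have h3 : Irreducible (polys g x i₀) := hm.irreducible_of_irreducible_map _ _ h1
  exact (Monic.irreducible_iff_irreducible_map_fraction_map hm).1 h3

end product

end Pool.Agent.W521.Density
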