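import Mathlib
import Pool.Agent.W521.Frob

/-!
# Weil polynomials and real Weil polynomials
-/

set_option autoImplicit false

namespace Pool.Agent.W521.Descent

open Polynomial Pool.Agent.W521.Frob

/-- The polynomials `f` of degree `2 g` with integral coefficients, leading coefficient one and
constant term `q ^ g`, all of whose complex roots have absolute value `√q`. -/
def weilPolys (q g : ℕ) : Set ℤ[X] :=
  {f | f.Monic ∧ f.natDegree = 2 * g ∧ f.coeff 0 = (q : ℤ) ^ g ∧
    ∀ z : ℂ, aeval z f = 0 → ‖z‖ ^ 2 = q}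

/-- The functional equation. -/
def Sym (q g : ℕ) (f : ℤ[X]) : Prop :=
  ∀ x : ℂ, x ≠ 0 → x ^ (2 * g) * aeval (q / x) f = q ^ g * aeval x f

theorem sym_of_weil {q g : ℕ} (hq : q ≠ 0) {f : ℤ[X]} (hf : f ∈ weilPolys q g) : Sym q g f := by
  obtain ⟨hm, hdeg, h0, hroot⟩ := hf
  intro x hx
  set F : ℂ[X] := f.map (algebraMap ℤ ℂ) with hF
  have hFm : F.Monic := hm.map _
  have hprod : F = (F.roots.map (fun a => X - C a)).prod :=
    (IsAlgClosed.splits F).eq_prod_roots_of_monic hFm
  have hcard : Multiset.card F.roots = 2 * g := by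
    rw [← (IsAlgClosed.splits F).natDegree_eq_card_roots, hF, hm.natDegree_map, hdeg]
  have hz : ∀ z ∈ F.roots, ‖z‖ ^ 2 = q := by
    intro z hz
    have h1 := (mem_roots'.1 hz).2
    rw [IsRoot.def, hF, eval_map] at h1
    exact hroot z h1
  have hz0 : ∀ z ∈ F.roots, z ≠ 0 := by
    rintro z hz' rfl
    have := hz 0 hz'
    rw [norm_zero, zero_pow two_ne_zero] at this
    exact hq (by exact_mod_cast this.symm)
  have hconj : F.roots.map (starRingEnd ℂ) = F.roots := by
    have h1 : F.map (starRingEnd ℂ) = F := by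
      rw [hF, Polynomial.map_map]
      congr 1
      exact RingHom.ext_int _ _
    have h2 := (IsAlgClosed.splits F).roots_map (starRingEnd ℂ)
    rw [h1] at h2
    exact h2.symm
  have hev : ∀ y : ℂ, aeval y f = (F.roots.map (fun a => y - a)).prod := by
    intro y
    have h1 : aeval y f = F.eval y := by
      rw [hF, eval_map]
      rfl
    rw [h1]
    conv_lhs => rw [hprod]
    rw [eval_multiset_prod, Multiset.map_map]
    congr 1
    refine Multiset.map_congr rfl fun a _ => ?_
    simp
  have hf0 : (F.roots.map (fun a => -a)).prod = (q : ℂ) ^ g := by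
    have h1 := hev 0
    have h2 : aeval (0 : ℂ) f = (q : ℂ) ^ g := by
      rw [← coeff_zero_eq_aeval_zero', h0]
      push_cast
      rfl
    rw [h2] at h1
    rw [h1]
    congr 1
    refine Multiset.map_congr rfl fun a _ => ?_
    rw [zero_sub]
  have hq' : (q : ℂ) ≠ 0 := by exact_mod_cast hq
  calc x ^ (2 * g) * aeval (q / x) f = (F.roots.map (fun a => x * (q / x - a))).prod := by
        rw [hev, Multiset.prod_map_mul, Multiset.map_const', Multiset.prod_replicate, hcard]
    _ = (F.roots.map (fun a => (-a) * (x - (starRingEnd ℂ) a))).prod := by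
        congr 1
        refine Multiset.map_congr rfl fun a ha => ?_
        have h1 : a * (starRingEnd ℂ) a = q := by
          rw [Complex.mul_conj, Complex.normSq_eq_norm_sq, hz a ha]
          simp
        rw [mul_sub, mul_div_cancel₀ _ hx, ← h1]
        ring
    _ = q ^ g * aeval x f := by
        rw [Multiset.prod_map_mul, hf0, hev]
        congr 1
        have h1 : (F.roots.map (fun a => x - (starRingEnd ℂ) a)).prod =
            ((F.roots.map (starRingEnd ℂ)).map (fun a => x - a)).prod := by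
          rw [Multiset.map_map]
          rfl
        rw [h1, hconj]

/-- The polynomial `x ^ g * h (x + q / x)` for `h` of degree at most `g`. -/
noncomputable def weilG (q g : ℕ) (h : ℤ[X]) : ℤ[X] :=
  ∑ j ∈ Finset.range (g + 1), C (h.coeff j) * ((X ^ 2 + C (q : ℤ)) ^ j * X ^ (g - j))

theorem coeff_zero_of_sym {q g : ℕ} (hq : q ≠ 0) {f : ℤ[X]} (hdeg : f.natDegree ≤ 2 * g)
    (hs : Sym q g f) : f.coeff 0 = q ^ g * f.coeff (2 * g) := by
  have hq' : (q : ℂ) ≠ 0 := by exact_mod_cast hq
  set F : ℂ[X] := f.map (algebraMap ℤ ℂ) with hF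
  have hFdeg : F.natDegree ≤ 2 * g := (natDegree_map_le).trans hdeg
  set P : ℂ[X] := ∑ j ∈ Finset.range (2 * g + 1), C (F.coeff j * q ^ j) * X ^ (2 * g - j) with hP
  have h1 : P = C ((q : ℂ) ^ g) * F := by
    apply Polynomial.eq_of_infinite_eval_eq
    refine Set.Infinite.mono (s := {x : ℂ | x ≠ 0}) ?_ ?_
    · intro x hx
      rw [Set.mem_ofPred_eq, eval_mul, eval_C]
      have h2 : F.eval x = aeval x f := by rw [hF, eval_map]; rfl
      rw [h2, ← hs x hx, hP, eval_finsetSum]
      have h3 : aeval ((q : ℂ) / x) f = ∑ j ∈ Finset.range (2 * g + 1), F.coeff j * (q / x) ^ j := by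
        have h4 : aeval ((q : ℂ) / x) f = F.eval (q / x) := by rw [hF, eval_map]; rfl
        rw [h4, eval_eq_sum_range' (Nat.lt_succ_of_le hFdeg)]
      rw [h3, Finset.mul_sum]
      refine Finset.sum_congr rfl fun j hj => ?_
      have hj' : j ≤ 2 * g := by
        have := Finset.mem_range.1 hj
        omega
      rw [eval_mul, eval_C, eval_pow, eval_X]
      have h5 : x ^ (2 * g) = x ^ j * x ^ (2 * g - j) := by
        rw [← pow_add, Nat.add_sub_cancel' hj']
      rw [h5, div_pow]
      have hx' : x ^ j ≠ 0 := pow_ne_zero _ hx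
      field_simp
    · have : {x : ℂ | x ≠ 0} = {0}ᶜ := rfl
      rw [this]
      exact (Set.finite_singleton (0 : ℂ)).infinite_compl
  have h2 := congrArg (fun p => p.coeff 0) h1
  simp only [coeff_C_mul] at h2
  have h3 : P.coeff 0 = F.coeff (2 * g) * q ^ (2 * g) := by
    rw [hP, finsetSum_coeff, Finset.sum_range_succ, Finset.sum_eq_zero, zero_add, Nat.sub_self,
      pow_zero, mul_one, coeff_C_zero]
    intro j hj
    have hj' : j < 2 * g := Finset.mem_range.1 hj
    rw [coeff_C_mul, coeff_X_pow, if_neg (by omega), mul_zero]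
  rw [h3, hF, coeff_map, coeff_map] at h2
  have h4 : (f.coeff 0 : ℂ) = q ^ g * (f.coeff (2 * g) : ℂ) := by
    apply mul_left_cancel₀ (pow_ne_zero g hq')
    rw [eq_intCast (algebraMap ℤ ℂ), eq_intCast (algebraMap ℤ ℂ)] at h2
    rw [← h2, two_mul, pow_add]
    ring
  exact_mod_cast h4

theorem weilG_eval (q g : ℕ) (h : ℤ[X]) (x : ℂ) (hdeg : h.natDegree ≤ g) (θ : ℂ)
    (hθ : x ^ 2 + q = θ * x) : aeval x (weilG q g h) = x ^ g * aeval θ h := by
  unfold weilG
  rw [map_sum]
  conv_rhs => rw [aeval_eq_sum_range' (Nat.lt_succ_of_le hdeg), Finset.mul_sum]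
  refine Finset.sum_congr rfl fun j hj => ?_
  have hj' : j ≤ g := by
    have := Finset.mem_range.1 hj
    omega
  simp only [map_mul, map_pow, map_add, aeval_X, aeval_C]
  rw [eq_intCast (algebraMap ℤ ℂ), eq_intCast (algebraMap ℤ ℂ), Int.cast_natCast, hθ, mul_pow,
    zsmul_eq_mul]
  have h1 : x ^ g = x ^ j * x ^ (g - j) := by
    rw [← pow_add, Nat.add_sub_cancel' hj']
  rw [h1]
  ring

theorem exists_h {q : ℕ} (hq : q ≠ 0) (g : ℕ) : ∀ f : ℤ[X], f.natDegree ≤ 2 * g → Sym q g f →
    ∃ h : ℤ[X], h.natDegree ≤ g ∧ f = weilG q g h := by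
  have hq' : (q : ℂ) ≠ 0 := by exact_mod_cast hq
  induction g with
  | zero =>
    intro f hf _
    refine ⟨f, by omega, ?_⟩
    have h1 : f = C (f.coeff 0) := eq_C_of_natDegree_le_zero (by omega)
    unfold weilG
    simp only [zero_add, Finset.range_one, Finset.sum_singleton, pow_zero, mul_one, Nat.sub_zero]
    exact h1
  | succ g ih =>
    intro f hf hs
    set c := f.coeff (2 * (g + 1)) with hc
    set f1 := f - C c * (X ^ 2 + C (q : ℤ)) ^ (g + 1) with hf1
    have hmon : ((X ^ 2 + C (q : ℤ)) ^ (g + 1) : ℤ[X]).Monic :=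
      (monic_X_pow_add_C _ two_ne_zero).pow _
    have hmdeg : ((X ^ 2 + C (q : ℤ)) ^ (g + 1) : ℤ[X]).natDegree = 2 * (g + 1) := by
      rw [(monic_X_pow_add_C _ two_ne_zero).natDegree_pow, natDegree_X_pow_add_C, mul_comm]
    have hs1 : Sym q (g + 1) f1 := by
      intro x hx
      rw [hf1, map_sub, map_sub, mul_sub, mul_sub, hs x hx]
      congr 1
      simp only [map_mul, map_pow, map_add, aeval_X, aeval_C]
      rw [eq_intCast (algebraMap ℤ ℂ), eq_intCast (algebraMap ℤ ℂ), Int.cast_natCast]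
      have h1 : x ^ (2 * (g + 1)) = (x ^ 2) ^ (g + 1) := by rw [← pow_mul]
      have h2 : (x ^ 2) ^ (g + 1) * ((q / x) ^ 2 + q) ^ (g + 1) =
          (q : ℂ) ^ (g + 1) * (x ^ 2 + q) ^ (g + 1) := by
        rw [← mul_pow, ← mul_pow]
        congr 1
        field_simp
        ring
      rw [h1]
      linear_combination (c : ℂ) * h2
    have hdeg1 : f1.natDegree ≤ 2 * (g + 1) := by
      refine (natDegree_sub_le _ _).trans (max_le hf ?_)
      refine (natDegree_C_mul_le _ _).trans hmdeg.le
    have htop : f1.coeff (2 * (g + 1)) = 0 := by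
      rw [hf1, coeff_sub, coeff_C_mul]
      have h1 : ((X ^ 2 + C (q : ℤ)) ^ (g + 1) : ℤ[X]).coeff (2 * (g + 1)) = 1 := by
        have := hmon.coeff_natDegree
        rwa [hmdeg] at this
      rw [h1, mul_one, sub_self]
    have h0 : f1.coeff 0 = 0 := by
      rw [coeff_zero_of_sym hq hdeg1 hs1, htop, mul_zero]
    obtain ⟨f2, hf2⟩ : X ∣ f1 := X_dvd_iff.2 h0
    have hdeg2 : f2.natDegree ≤ 2 * g := by
      by_cases hz : f2 = 0
      · rw [hz, natDegree_zero]
        omega
      · have h1 : f1.natDegree = f2.natDegree + 1 := by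
          rw [hf2, natDegree_X_mul hz]
        have h2 : f1.natDegree ≠ 2 * (g + 1) := by
          intro h3
          have h4 : f1.leadingCoeff = 0 := by
            rw [leadingCoeff, h3, htop]
          rw [leadingCoeff_eq_zero] at h4
          rw [h4] at hf2
          exact hz ((mul_eq_zero.1 hf2.symm).resolve_left X_ne_zero)
        omega
    have hs2 : Sym q g f2 := by
      intro x hx
      have h1 := hs1 x hx
      rw [hf2, map_mul, map_mul, aeval_X, aeval_X] at h1
      have h2 : x ^ (2 * (g + 1)) * (q / x * aeval (q / x) f2) =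
          (q * x) * (x ^ (2 * g) * aeval (q / x) f2) := by
        have h3 : x ^ (2 * (g + 1)) = x ^ (2 * g) * x ^ 2 := by rw [← pow_add]; ring_nf
        rw [h3]
        field_simp
      rw [h2] at h1
      apply mul_left_cancel₀ (mul_ne_zero hq' hx)
      rw [h1, pow_succ]
      ring
    obtain ⟨h2, hh2, hfh⟩ := ih f2 hdeg2 hs2
    refine ⟨C c * X ^ (g + 1) + h2, ?_, ?_⟩
    · refine (natDegree_add_le _ _).trans (max_le (natDegree_C_mul_X_pow_le _ _) (by omega))
    · have hcoe1 : (C c * X ^ (g + 1) + h2).coeff (g + 1) = c := by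
        rw [coeff_add, coeff_C_mul_X_pow, if_pos rfl,
          coeff_eq_zero_of_natDegree_lt (by omega : h2.natDegree < g + 1), add_zero]
      have hcoe2 : ∀ j ∈ Finset.range (g + 1), (C c * X ^ (g + 1) + h2).coeff j = h2.coeff j := by
        intro j hj
        have := Finset.mem_range.1 hj
        rw [coeff_add, coeff_C_mul_X_pow, if_neg (by omega), zero_add]
      have h3 : f = X * f2 + C c * (X ^ 2 + C (q : ℤ)) ^ (g + 1) := by
        rw [← hf2, hf1, sub_add_cancel]
      rw [h3, hfh]
      unfold weilG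
      rw [Finset.sum_range_succ _ (g + 1), hcoe1, Nat.sub_self, pow_zero, mul_one, Finset.mul_sum]
      congr 1
      refine Finset.sum_congr rfl fun j hj => ?_
      rw [hcoe2 j hj]
      have hj' := Finset.mem_range.1 hj
      have h4 : g + 1 - j = (g - j) + 1 := by omega
      rw [h4, pow_succ]
      ring

/-- Every Weil polynomial comes from a real Weil polynomial. -/
theorem exists_real {q g : ℕ} (hq : q ≠ 0) {f : ℤ[X]} (hf : f ∈ weilPolys q g) :
    ∃ h : ℤ[X], h.Monic ∧ h.natDegree = g ∧ f = weil q h := by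
  obtain ⟨h, hdeg, hfh⟩ := exists_h hq g f hf.2.1.le (sym_of_weil hq hf)
  have hlead : h.coeff g = 1 := by
    have h1 : f.coeff (2 * g) = 1 := by
      have := hf.1.coeff_natDegree
      rwa [hf.2.1] at this
    have hmon : ((X ^ 2 + C (q : ℤ)) ^ g : ℤ[X]).Monic := (monic_X_pow_add_C _ two_ne_zero).pow _
    have hmdeg : ((X ^ 2 + C (q : ℤ)) ^ g : ℤ[X]).natDegree = 2 * g := by
      rw [(monic_X_pow_add_C _ two_ne_zero).natDegree_pow, natDegree_X_pow_add_C, mul_comm]
    have h2 : (weilG q g h).coeff (2 * g) = h.coeff g := by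
      unfold weilG
      rw [finsetSum_coeff, Finset.sum_range_succ, Finset.sum_eq_zero, zero_add, coeff_C_mul,
        Nat.sub_self, pow_zero, mul_one]
      · have := hmon.coeff_natDegree
        rw [hmdeg] at this
        rw [this, mul_one]
      · intro j hj
        have hj' : j < g := Finset.mem_range.1 hj
        rw [coeff_C_mul]
        refine mul_eq_zero_of_right _ (coeff_eq_zero_of_natDegree_lt ?_)
        refine lt_of_le_of_lt natDegree_mul_le ?_
        have h1 : ((X ^ 2 + C (q : ℤ)) ^ j : ℤ[X]).natDegree ≤ j * 2 := by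
          refine natDegree_pow_le.trans ?_
          refine Nat.mul_le_mul_left _ ?_
          compute_degree
        rw [natDegree_X_pow]
        omega
    rw [← h2, ← hfh, h1]
  have hmonic : h.Monic := monic_of_natDegree_le_of_coeff_eq_one g hdeg hlead
  have hdeg' : h.natDegree = g := by
    refine le_antisymm hdeg (le_natDegree_of_ne_zero ?_)
    rw [hlead]
    exact one_ne_zero
  refine ⟨h, hmonic, hdeg', ?_⟩
  rw [hfh]
  unfold weilG weil
  rw [hdeg']

/-- The roots of the real Weil polynomial are real, of absolute value at most `2 √q`. -/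
theorem norm_root_le {q g : ℕ} (hq : q ≠ 0) {h : ℤ[X]} (hf : weil q h ∈ weilPolys q g) (θ : ℂ)
    (hθ : aeval θ h = 0) : ‖θ‖ ≤ 2 * Real.sqrt q := by
  obtain ⟨α, hα⟩ : ∃ α : ℂ, α ^ 2 + q = θ * α := by
    obtain ⟨s, hs⟩ := IsAlgClosed.exists_pow_nat_eq (θ ^ 2 - 4 * q) two_pos
    refine ⟨(θ + s) / 2, ?_⟩
    linear_combination (1 / 4 : ℂ) * hs
  have hroot : aeval α (weil q h) = 0 := by
    rw [aeval_weil q h α θ hα, hθ, mul_zero]
  have hn := hf.2.2.2 α hroot
  have hn' : ‖α‖ = Real.sqrt q := by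
    rw [← hn, Real.sqrt_sq (norm_nonneg _)]
  have hα0 : α ≠ 0 := by
    rintro rfl
    rw [norm_zero, zero_pow two_ne_zero] at hn
    exact hq (by exact_mod_cast hn.symm)
  have hθ' : θ = α + (starRingEnd ℂ) α := by
    have h1 : α * (starRingEnd ℂ) α = q := by
      rw [Complex.mul_conj, Complex.normSq_eq_norm_sq, hn]
      simp
    apply mul_right_cancel₀ hα0
    rw [← hα, ← h1]
    ring
  rw [hθ']
  refine (norm_add_le _ _).trans ?_
  rw [Complex.norm_conj, hn']
  linarith

theorem coeff_bound {q g : ℕ} (hq : q ≠ 0) {h : ℤ[X]} (hm : h.Monic) (hdeg : h.natDegree = g)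
    (hf : weil q h ∈ weilPolys q g) (k : ℕ) :
    |(h.coeff k : ℝ)| ≤ (2 * Real.sqrt q) ^ (g - k) * g.choose k := by
  have h1 := coeff_le_of_roots_le (f := algebraMap ℤ ℂ) (p := h) k hm (IsAlgClosed.splits _)
    (B := 2 * Real.sqrt q) (fun z hz => norm_root_le hq hf z (by
      have h1 := (mem_roots'.1 hz).2
      rw [IsRoot.def, eval_map] at h1
      exact h1))
  rw [hdeg, coeff_map, eq_intCast (algebraMap ℤ ℂ), Complex.norm_intCast] at h1
  exact h1

end Pool.Agent.W521.Descent
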