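import Mathlib
import Pool.Agent.W521.Descent
import Pool.Agent.W521.Density

/-!
# Many ordinary Weil polynomials: perturbations of Dickson polynomials
-/

set_option autoImplicit false

namespace Pool.Agent.W521.Lower

open Polynomial Pool.Agent.W521.Frob Pool.Agent.W521.Descent Pool.Agent.W521.Density

/-- Dickson polynomials: `D n (x + q / x) = x ^ n + (q / x) ^ n`. -/
noncomputable def dick (q : ℕ) : ℕ → ℤ[X]
  | 0 => C 2
  | 1 => X
  | n + 2 => X * dick q (n + 1) - C (q : ℤ) * dick q n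

theorem dick_deg (q : ℕ) (n : ℕ) : (dick q (n + 1)).Monic ∧ (dick q (n + 1)).natDegree = n + 1 ∧
    (dick q n).natDegree ≤ n := by
  induction n with
  | zero =>
    refine ⟨?_, ?_, ?_⟩
    · exact monic_X
    · simp [dick]
    · simp [dick]
  | succ n ih =>
    obtain ⟨h1, h2, h3⟩ := ih
    have h4 : (X * dick q (n + 1)).Monic := monic_X.mul h1
    have h5 : (X * dick q (n + 1)).natDegree = n + 2 := by
      rw [natDegree_X_mul h1.ne_zero, h2]
    have h6 : (C (q : ℤ) * dick q n).natDegree < (X * dick q (n + 1)).natDegree := by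
      rw [h5]
      exact lt_of_le_of_lt (natDegree_C_mul_le _ _) (by omega)
    have h7 : dick q (n + 1 + 1) = X * dick q (n + 1) - C (q : ℤ) * dick q n := rfl
    have h8 : (C (q : ℤ) * dick q n).degree < (X * dick q (n + 1)).degree :=
      degree_lt_degree h6
    refine ⟨?_, ?_, by omega⟩
    · rw [h7]
      exact h4.sub_of_left h8
    · rw [h7, natDegree_sub_eq_left_of_natDegree_lt h6, h5]

theorem dick_monic (q : ℕ) {n : ℕ} (hn : 0 < n) :
    (dick q n).Monic ∧ (dick q n).natDegree = n := by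
  obtain ⟨n', rfl⟩ : ∃ n', n = n' + 1 := ⟨n - 1, by omega⟩
  exact ⟨(dick_deg q n').1, (dick_deg q n').2.1⟩

theorem dick_eval (q : ℕ) (φ : ℝ) (n : ℕ) :
    aeval (2 * Real.sqrt q * Real.cos φ) (dick q n) = 2 * Real.sqrt q ^ n * Real.cos (n * φ) ∧
    aeval (2 * Real.sqrt q * Real.cos φ) (dick q (n + 1)) =
      2 * Real.sqrt q ^ (n + 1) * Real.cos ((n + 1 : ℕ) * φ) := by
  have hq : Real.sqrt q ^ 2 = q := Real.sq_sqrt (Nat.cast_nonneg q)
  induction n with
  | zero =>
    constructor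
    · have h1 : dick q 0 = C 2 := rfl
      rw [h1, aeval_C]
      simp
    · simp [dick]
  | succ n ih =>
    obtain ⟨h1, h2⟩ := ih
    refine ⟨h2, ?_⟩
    have h7 : dick q (n + 1 + 1) = X * dick q (n + 1) - C (q : ℤ) * dick q n := rfl
    rw [h7, map_sub, map_mul, map_mul, aeval_X, aeval_C, h1, h2, eq_intCast (algebraMap ℤ ℝ),
      Int.cast_natCast]
    have h3 : Real.cos ((n + 1 + 1 : ℕ) * φ) + Real.cos (n * φ) =
        2 * Real.cos φ * Real.cos ((n + 1 : ℕ) * φ) := by
      rw [Real.cos_add_cos]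
      push_cast
      have e1 : ((n + 1 + 1 : ℝ) * φ + n * φ) / 2 = (n + 1) * φ := by ring
      have e2 : ((n + 1 + 1 : ℝ) * φ - n * φ) / 2 = φ := by ring
      rw [e1, e2]
      ring
    rw [pow_succ (Real.sqrt q) (n + 1), pow_succ (Real.sqrt q) n]
    linear_combination (-2 * Real.sqrt q ^ n * q) * h3 +
      (4 * Real.cos φ * Real.sqrt q ^ n * Real.cos ((n + 1 : ℕ) * φ) -
        2 * Real.sqrt q ^ n * Real.cos ((n + 1 + 1 : ℕ) * φ)) * hq

theorem dick_coeff_zero (q : ℕ) (n : ℕ) : (q : ℤ) ∣ (dick q (n + 1)).coeff 0 ∧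
    (q : ℤ) ∣ (dick q (n + 2)).coeff 0 := by
  induction n with
  | zero =>
    have h7 : dick q (0 + 2) = X * dick q (0 + 1) - C (q : ℤ) * dick q 0 := rfl
    constructor
    · simp [dick]
    · rw [h7, coeff_sub, coeff_C_mul, mul_comm X, coeff_mul_X_zero, zero_sub]
      exact (dvd_neg).2 (Dvd.intro _ rfl)
  | succ n ih =>
    refine ⟨ih.2, ?_⟩
    have h7 : dick q (n + 1 + 2) = X * dick q (n + 1 + 1) - C (q : ℤ) * dick q (n + 1) := rfl
    rw [h7, coeff_sub, coeff_C_mul, mul_comm X, coeff_mul_X_zero, zero_sub]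
    exact (dvd_neg).2 (Dvd.intro _ rfl)

/-- The values of a perturbation at the points `2 √q cos (j π / g)` alternate in sign. -/
theorem eval_sign {q g : ℕ} (hq : 0 < q) (hg : 0 < g) (x : Fin g → ℤ)
    (hx : ∀ k : Fin g, |((x k - (dick q g).coeff k : ℤ) : ℝ)| ≤
      Real.sqrt q ^ (g - (k : ℕ)) / 2 ^ g) (j : ℕ) :
    0 < (-1) ^ j * aeval (2 * Real.sqrt q * Real.cos (j * Real.pi / g)) (mkPoly g x) := by
  have hs : 0 < Real.sqrt q := Real.sqrt_pos.2 (by exact_mod_cast hq)
  have hg' : (g : ℝ) ≠ 0 := by exact_mod_cast hg.ne'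
  set y := 2 * Real.sqrt q * Real.cos (j * Real.pi / g) with hy
  have hD : aeval y (dick q g) = 2 * Real.sqrt q ^ g * (-1) ^ j := by
    have h1 := (dick_eval q (j * Real.pi / g) g).1
    rw [← hy] at h1
    rw [h1]
    have h2 : (g : ℝ) * (j * Real.pi / g) = j * Real.pi := by
      field_simp
    rw [h2, Real.cos_nat_mul_pi]
  have hdd := dick_monic q hg
  have hDexp : dick q g = mkPoly g (fun k : Fin g => (dick q g).coeff k) :=
    (eq_mkPoly hdd.1 hdd.2).symm
  have hdiff : aeval y (mkPoly g x) = aeval y (dick q g) +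
      ∑ k : Fin g, ((x k - (dick q g).coeff k : ℤ) : ℝ) * y ^ (k : ℕ) := by
    have e : aeval y (dick q g) = aeval y (mkPoly g (fun k : Fin g => (dick q g).coeff k)) :=
      congrArg _ hDexp
    rw [e]
    unfold mkPoly
    simp only [map_add, map_pow, map_sum, map_mul, aeval_X, aeval_C]
    rw [add_assoc, ← Finset.sum_add_distrib]
    congr 1
    refine Finset.sum_congr rfl fun k _ => ?_
    rw [eq_intCast (algebraMap ℤ ℝ), eq_intCast (algebraMap ℤ ℝ), ← add_mul]
    congr 1
    push_cast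
    ring
  have hyb : |y| ≤ 2 * Real.sqrt q := by
    rw [hy, abs_mul, abs_of_pos (by positivity : 0 < 2 * Real.sqrt q)]
    have := Real.abs_cos_le_one (j * Real.pi / g)
    nlinarith
  have hsum : |∑ k : Fin g, ((x k - (dick q g).coeff k : ℤ) : ℝ) * y ^ (k : ℕ)| <
      Real.sqrt q ^ g := by
    have h1 : ∀ k : Fin g, |((x k - (dick q g).coeff k : ℤ) : ℝ) * y ^ (k : ℕ)| ≤
        Real.sqrt q ^ g / 2 ^ g * 2 ^ (k : ℕ) := by
      intro k
      rw [abs_mul, abs_pow]
      calc |((x k - (dick q g).coeff k : ℤ) : ℝ)| * |y| ^ (k : ℕ) ≤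
          (Real.sqrt q ^ (g - (k : ℕ)) / 2 ^ g) * (2 * Real.sqrt q) ^ (k : ℕ) :=
            mul_le_mul (hx k) (pow_le_pow_left₀ (abs_nonneg _) hyb _) (by positivity)
              (by positivity)
        _ = (Real.sqrt q ^ (g - (k : ℕ)) * Real.sqrt q ^ (k : ℕ)) / 2 ^ g * 2 ^ (k : ℕ) := by
            rw [mul_pow]
            ring
        _ = Real.sqrt q ^ g / 2 ^ g * 2 ^ (k : ℕ) := by
            rw [← pow_add, Nat.sub_add_cancel k.2.le]
    refine lt_of_le_of_lt (Finset.abs_sum_le_sum_abs _ _) ?_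
    refine lt_of_le_of_lt (Finset.sum_le_sum fun k _ => h1 k) ?_
    rw [← Finset.mul_sum, Fin.sum_univ_eq_sum_range (fun k => (2 : ℝ) ^ k) g]
    have h2 : ∑ k ∈ Finset.range g, (2 : ℝ) ^ k = 2 ^ g - 1 := by
      rw [geom_sum_eq (by norm_num)]
      ring
    rw [h2]
    have h3 : (0 : ℝ) < 2 ^ g := by positivity
    rw [div_mul_eq_mul_div, div_lt_iff₀ h3]
    have h4 : 0 < Real.sqrt q ^ g := by positivity
    nlinarith
  have hsg : 0 < Real.sqrt q ^ g := by positivity
  rw [hdiff, hD]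
  have hsq : ((-1 : ℝ) ^ j) * ((-1) ^ j) = 1 := by
    rw [← mul_pow]
    norm_num
  have habs : |(-1 : ℝ) ^ j| = 1 := by
    rw [abs_pow, abs_neg, abs_one, one_pow]
  set S := ∑ k : Fin g, ((x k - (dick q g).coeff k : ℤ) : ℝ) * y ^ (k : ℕ)
  have h5 : |(-1 : ℝ) ^ j * S| < Real.sqrt q ^ g := by
    rw [abs_mul, habs, one_mul]
    exact hsum
  have h6 := (abs_lt.1 h5).1
  calc (0 : ℝ) < 2 * Real.sqrt q ^ g + (-1) ^ j * S := by linarith
    _ = 2 * Real.sqrt q ^ g * ((-1) ^ j * (-1) ^ j) + (-1) ^ j * S := by rw [hsq, mul_one]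
    _ = _ := by ring

/-- The point `2 √q cos (j π / g)`. -/
noncomputable def pt (q g : ℕ) (j : ℕ) : ℝ := 2 * Real.sqrt q * Real.cos (j * Real.pi / g)

theorem pt_anti {q g : ℕ} (hq : 0 < q) (hg : 0 < g) {i j : ℕ} (hij : i < j) (hj : j ≤ g) :
    pt q g j < pt q g i := by
  unfold pt
  have hs : 0 < 2 * Real.sqrt q := by
    have := Real.sqrt_pos.2 (by exact_mod_cast hq : (0 : ℝ) < q)
    positivity
  have hg' : (0 : ℝ) < g := by exact_mod_cast hg
  apply mul_lt_mul_of_pos_left _ hs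
  apply Real.cos_lt_cos_of_nonneg_of_le_pi
  · positivity
  · rw [div_le_iff₀ hg', mul_comm]
    exact mul_le_mul_of_nonneg_left (by exact_mod_cast hj) Real.pi_pos.le
  · apply div_lt_div_of_pos_right _ hg'
    exact mul_lt_mul_of_pos_right (by exact_mod_cast hij) Real.pi_pos

theorem pt_abs {q g : ℕ} (j : ℕ) : |pt q g j| ≤ 2 * Real.sqrt q := by
  unfold pt
  rw [abs_mul, abs_of_nonneg (by positivity : 0 ≤ 2 * Real.sqrt q)]
  have := Real.abs_cos_le_one (j * Real.pi / g)
  have h2 : 0 ≤ 2 * Real.sqrt q := by positivity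
  nlinarith

/-- All roots of a perturbation of the Dickson polynomial are real and of absolute value at most
`2 √q`. -/
theorem real_roots {q g : ℕ} (hq : 0 < q) (hg : 0 < g) (x : Fin g → ℤ)
    (hx : ∀ k : Fin g, |((x k - (dick q g).coeff k : ℤ) : ℝ)| ≤
      Real.sqrt q ^ (g - (k : ℕ)) / 2 ^ g) (z : ℂ) (hz : aeval z (mkPoly g x) = 0) :
    ∃ r : ℝ, |r| ≤ 2 * Real.sqrt q ∧ (r : ℂ) = z := by
  classical
  set P : ℝ[X] := (mkPoly g x).map (algebraMap ℤ ℝ) with hP
  have hPm : P.Monic := (mkPoly_monic g x).map _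
  have hPdeg : P.natDegree = g := by rw [hP, (mkPoly_monic g x).natDegree_map, mkPoly_natDegree]
  have hPev : ∀ y : ℝ, P.eval y = aeval y (mkPoly g x) := by
    intro y
    rw [hP, eval_map]
    rfl
  have hroot : ∀ j : Fin g, ∃ r ∈ Set.Ioo (pt q g (j + 1)) (pt q g j), P.eval r = 0 := by
    intro j
    have hlt := pt_anti (q := q) hq hg (Nat.lt_succ_self (j : ℕ)) j.2
    have h1 := eval_sign hq hg x hx j
    have h2 := eval_sign hq hg x hx (j + 1)
    have e1 : 0 < (-1) ^ (j : ℕ) * P.eval (pt q g j) := by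
      rw [hPev]
      exact h1
    have e2 : 0 < (-1) ^ ((j : ℕ) + 1) * P.eval (pt q g (j + 1)) := by
      rw [hPev]
      exact h2
    have hc : ContinuousOn (fun y => P.eval y) (Set.Icc (pt q g (j + 1)) (pt q g j)) :=
      P.continuous.continuousOn
    rcases neg_one_pow_eq_or ℝ (j : ℕ) with h | h
    · rw [h, one_mul] at e1
      rw [pow_succ, h, one_mul] at e2
      have h3 : P.eval (pt q g (j + 1)) < 0 := by linarith
      obtain ⟨r, hr, hr2⟩ := intermediate_value_Ioo hlt.le hc ⟨h3, e1⟩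
      exact ⟨r, hr, hr2⟩
    · rw [h] at e1
      rw [pow_succ, h] at e2
      have h3 : 0 < P.eval (pt q g (j + 1)) := by linarith
      have h4 : P.eval (pt q g j) < 0 := by linarith
      obtain ⟨r, hr, hr2⟩ := intermediate_value_Ioo' hlt.le hc ⟨h4, h3⟩
      exact ⟨r, hr, hr2⟩
  choose r hr hr0 using hroot
  have hrinj : Function.Injective r := by
    intro i j hij
    by_contra hne
    rcases lt_or_gt_of_ne hne with h | h
    · have h1 := (hr i).1
      have h2 := (hr j).2
      have h3 : pt q g j ≤ pt q g ((i : ℕ) + 1) := by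
        rcases eq_or_lt_of_le (Nat.succ_le_of_lt (Fin.lt_def.1 h)) with e | e
        · rw [← e]
        · exact (pt_anti hq hg e j.2.le).le
      rw [hij] at h1
      linarith
    · have h1 := (hr j).1
      have h2 := (hr i).2
      have h3 : pt q g i ≤ pt q g ((j : ℕ) + 1) := by
        rcases eq_or_lt_of_le (Nat.succ_le_of_lt (Fin.lt_def.1 h)) with e | e
        · rw [← e]
        · exact (pt_anti hq hg e i.2.le).le
      rw [← hij] at h1
      linarith
  set S : Finset ℝ := Finset.univ.image r with hS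
  have hScard : S.card = g := by
    rw [hS, Finset.card_image_of_injective _ hrinj, Finset.card_univ, Fintype.card_fin]
  have hSsub : S ⊆ P.roots.toFinset := by
    intro y hy
    obtain ⟨j, -, rfl⟩ := Finset.mem_image.1 hy
    rw [Multiset.mem_toFinset, mem_roots hPm.ne_zero]
    exact hr0 j
  have hcard : Multiset.card P.roots = g := by
    have h1 := P.card_roots'
    have h2 := Finset.card_le_card hSsub
    have h3 := Multiset.toFinset_card_le P.roots
    omega
  have hSeq : S = P.roots.toFinset := by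
    apply Finset.eq_of_subset_of_card_le hSsub
    rw [hScard, ← hcard]
    exact Multiset.toFinset_card_le _
  have hsplit : P.Splits := splits_iff_card_roots.2 (by rw [hcard, hPdeg])
  have hzroot : (P.map (algebraMap ℝ ℂ)).IsRoot z := by
    have e1 : P.map (algebraMap ℝ ℂ) = (mkPoly g x).map (algebraMap ℤ ℂ) := by
      rw [hP, Polynomial.map_map]
      congr 1
    rw [e1, IsRoot.def, eval_map]
    exact hz
  obtain ⟨y, hy⟩ := hsplit.mem_range_of_isRoot hPm.ne_zero hzroot
  refine ⟨y, ?_, hy⟩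
  have hyroot : P.IsRoot y := by
    rw [← hy, IsRoot.def, eval_map_algebraMap, aeval_algebraMap_apply] at hzroot
    exact (algebraMap ℝ ℂ).injective (by rw [map_zero]; exact hzroot)
  have hyS : y ∈ S := by
    rw [hSeq, Multiset.mem_toFinset, mem_roots hPm.ne_zero]
    exact hyroot
  obtain ⟨j, -, rfl⟩ := Finset.mem_image.1 hyS
  have h1 := abs_le.1 (pt_abs (q := q) (g := g) ((j : ℕ) + 1))
  have h2 := abs_le.1 (pt_abs (q := q) (g := g) (j : ℕ))
  have h3 := hr j
  rw [abs_le]
  exact ⟨by linarith [h3.1], by linarith [h3.2]⟩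

theorem norm_of_real {q : ℕ} {α : ℂ} {r : ℝ} (hr : |r| ≤ 2 * Real.sqrt q)
    (hα : α ^ 2 + q = r * α) : ‖α‖ ^ 2 = q := by
  have hq : Real.sqrt q ^ 2 = q := Real.sq_sqrt (Nat.cast_nonneg q)
  have hr2 : r ^ 2 ≤ 4 * q := by
    have h1 := sq_abs r
    have h2 : |r| ^ 2 ≤ (2 * Real.sqrt q) ^ 2 := pow_le_pow_left₀ (abs_nonneg _) hr 2
    rw [h1, mul_pow, hq] at h2
    linarith
  have hre := congrArg Complex.re hα
  have him := congrArg Complex.im hα
  rw [← Complex.normSq_eq_norm_sq, Complex.normSq_apply]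
  simp only [sq, Complex.add_re, Complex.mul_re, Complex.natCast_re, Complex.ofReal_re,
    Complex.ofReal_im, zero_mul, sub_zero, Complex.add_im, Complex.mul_im, Complex.natCast_im,
    add_zero] at hre him
  set u := α.re
  set v := α.im
  have h1 : v * (2 * u - r) = 0 := by linarith
  rcases mul_eq_zero.1 h1 with h2 | h2
  · rw [h2] at hre ⊢
    have h3 : (2 * u - r) ^ 2 = r ^ 2 - 4 * q := by nlinarith
    have h4 : (2 * u - r) ^ 2 = 0 := le_antisymm (by rw [h3]; linarith) (sq_nonneg _)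
    have h5 : r = 2 * u := by
      have := pow_eq_zero_iff (two_ne_zero) |>.1 h4
      linarith
    rw [h5] at hre
    nlinarith
  · have h3 : r = 2 * u := by linarith
    rw [h3] at hre
    nlinarith

theorem weil_coeff_zero (q : ℕ) {h : ℤ[X]} (hm : h.Monic) :
    (weil q h).coeff 0 = (q : ℤ) ^ h.natDegree := by
  rw [coeff_zero_eq_eval_zero]
  unfold weil
  rw [eval_finsetSum, Finset.sum_range_succ, Finset.sum_eq_zero, zero_add]
  · simp [hm.leadingCoeff]
  · intro j hj
    have hj' : j < h.natDegree := Finset.mem_range.1 hj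
    have h1 : eval 0 (X ^ (h.natDegree - j) : ℤ[X]) = 0 := by
      rw [eval_pow, eval_X, zero_pow (by omega)]
    rw [eval_mul, eval_mul, h1, mul_zero, mul_zero]

theorem mem_weilPolys {q g : ℕ} (hq : 0 < q) {h : ℤ[X]} (hm : h.Monic) (hdeg : h.natDegree = g)
    (hroots : ∀ z : ℂ, aeval z h = 0 → ∃ r : ℝ, |r| ≤ 2 * Real.sqrt q ∧ (r : ℂ) = z) :
    weil q h ∈ weilPolys q g := by
  refine ⟨weil_monic q hm, ?_, ?_, ?_⟩
  · rw [weil_natDegree q hm, hdeg]
  · rw [weil_coeff_zero q hm, hdeg]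
  · intro z hz
    obtain ⟨hz0, hz1⟩ := (root_iff hq.ne' hm z).1 hz
    obtain ⟨r, hr, hr2⟩ := hroots _ hz1
    refine norm_of_real hr ?_
    rw [hr2]
    field_simp

theorem weil_coeff_mid (q : ℕ) (h : ℤ[X]) :
    (q : ℤ) ∣ (weil q h).coeff h.natDegree - h.coeff 0 := by
  have h1 : (weil q h).map (Int.castRingHom (ZMod q)) =
      ∑ j ∈ Finset.range (h.natDegree + 1), C ((h.coeff j : ℤ) : ZMod q) * X ^ (h.natDegree + j) := by
    unfold weil
    rw [Polynomial.map_sum]
    refine Finset.sum_congr rfl fun j hj => ?_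
    have hj' : j ≤ h.natDegree := by
      have := Finset.mem_range.1 hj
      omega
    rw [Polynomial.map_mul, Polynomial.map_mul, Polynomial.map_pow, Polynomial.map_add,
      Polynomial.map_pow, Polynomial.map_pow, map_X, map_C, map_C]
    have h2 : (Int.castRingHom (ZMod q)) (q : ℤ) = 0 := by simp
    rw [h2, C_0, add_zero, ← pow_mul, ← pow_add]
    congr 2
    omega
  have h2 : (((weil q h).coeff h.natDegree : ℤ) : ZMod q) = ((h.coeff 0 : ℤ) : ZMod q) := by
    have h3 := congrArg (fun p => p.coeff h.natDegree) h1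
    simp only [coeff_map, finsetSum_coeff, coeff_C_mul_X_pow] at h3
    rw [Finset.sum_eq_single 0] at h3
    · simpa using h3
    · intro j _ hj
      rw [if_neg (by omega)]
    · intro h4
      exact absurd (Finset.mem_range.2 (by omega)) h4
  rw [← ZMod.intCast_zmod_eq_zero_iff_dvd _ q] 
  push_cast
  rw [h2, sub_self]

theorem weil_injective {q : ℕ} (hq : q ≠ 0) {g : ℕ} {h h' : ℤ[X]} (hd : h.natDegree = g)
    (hd' : h'.natDegree = g) (heq : weil q h = weil q h') : h = h' := by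
  have hq' : (q : ℂ) ≠ 0 := by exact_mod_cast hq
  have key : h.map (algebraMap ℤ ℂ) = h'.map (algebraMap ℤ ℂ) := by
    apply Polynomial.funext
    intro θ
    obtain ⟨α, hα⟩ : ∃ α : ℂ, α ^ 2 + q = θ * α := by
      obtain ⟨s, hs⟩ := IsAlgClosed.exists_pow_nat_eq (θ ^ 2 - 4 * q) two_pos
      refine ⟨(θ + s) / 2, ?_⟩
      linear_combination (1 / 4 : ℂ) * hs
    have hα0 : α ≠ 0 := by
      rintro rfl
      rw [zero_pow two_ne_zero, zero_add, mul_zero] at hα
      exact hq' hα
    have h1 := aeval_weil q h α θ hα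
    have h2 := aeval_weil q h' α θ hα
    rw [heq, h2, hd, hd'] at h1
    rw [eval_map, eval_map]
    exact (mul_left_cancel₀ (pow_ne_zero _ hα0) h1).symm
  exact Polynomial.map_injective _ (algebraMap ℤ ℂ).injective_int key

end Pool.Agent.W521.Lower
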