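import Mathlib

/-!
# The Turán sieve in boxes
-/

set_option autoImplicit false

namespace Pool.Agent.W521.Turan

open Finset

section fiber

theorem card_fiber_one (m k : ℕ) (hm : 0 < m) (lo : ℤ) (r : ZMod m) :
    ((Finset.Ico lo (lo + ((k * m : ℕ) : ℤ))).filter (fun x : ℤ => (x : ZMod m) = r)).card = k := by
  have : NeZero m := ⟨hm.ne'⟩
  have h1 : ((Finset.Ico lo (lo + ((k * m : ℕ) : ℤ))).filter (fun x : ℤ => (x : ZMod m) = r)) =
      ((Finset.Ico lo (lo + ((k * m : ℕ) : ℤ))).filter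
        (fun x : ℤ => x ≡ (r.val : ℤ) [ZMOD (m : ℤ)])) := by
    refine Finset.filter_congr fun x _ => ?_
    rw [← ZMod.intCast_eq_intCast_iff]
    simp
  rw [h1]
  have h2 := Int.Ico_filter_modEq_card lo (lo + ((k * m : ℕ) : ℤ)) (r := (m : ℤ))
    (by exact_mod_cast hm) (r.val : ℤ)
  have hm' : (m : ℚ) ≠ 0 := by exact_mod_cast hm.ne'
  have h3 : ⌈(((lo + ((k * m : ℕ) : ℤ) : ℤ) : ℚ) - ((r.val : ℤ) : ℚ)) / ((m : ℤ) : ℚ)⌉ =
      ⌈((lo : ℚ) - ((r.val : ℤ) : ℚ)) / ((m : ℤ) : ℚ)⌉ + (k : ℤ) := by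
    rw [← Int.ceil_add_natCast]
    congr 1
    push_cast
    field_simp
    ring
  rw [h3] at h2
  have h4 : ⌈((lo : ℚ) - ((r.val : ℤ) : ℚ)) / ((m : ℤ) : ℚ)⌉ + (k : ℤ) -
      ⌈((lo : ℚ) - ((r.val : ℤ) : ℚ)) / ((m : ℤ) : ℚ)⌉ = (k : ℤ) := by ring
  rw [h4, max_eq_left (by positivity)] at h2
  exact_mod_cast h2

variable {ι : Type*} [Fintype ι] [DecidableEq ι]

/-- The box `∏ [lo i, lo i + N i)`. -/
noncomputable def box (lo : ι → ℤ) (N : ι → ℕ) : Finset (ι → ℤ) :=
  Fintype.piFinset fun i => Finset.Ico (lo i) (lo i + (N i : ℤ))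

/-- Reduction modulo `m`. -/
def red (m : ℕ) (x : ι → ℤ) : ι → ZMod m := fun i => (x i : ZMod m)

theorem card_box (lo : ι → ℤ) (N : ι → ℕ) : (box lo N).card = ∏ i, N i := by
  unfold box
  rw [Fintype.card_piFinset]
  refine Finset.prod_congr rfl fun i _ => ?_
  rw [Int.card_Ico]
  omega

theorem card_fiber (m : ℕ) (hm : 0 < m) (lo : ι → ℤ) (k : ι → ℕ) (r : ι → ZMod m) :
    ((box lo (fun i => k i * m)).filter (fun x => red m x = r)).card = ∏ i, k i := by
  have h1 : (box lo (fun i => k i * m)).filter (fun x => red m x = r) =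
      Fintype.piFinset fun i => (Finset.Ico (lo i) (lo i + ((k i * m : ℕ) : ℤ))).filter
        (fun x : ℤ => (x : ZMod m) = r i) := by
    ext x
    simp only [box, red, Finset.mem_filter, Fintype.mem_piFinset, funext_iff]
    constructor
    · rintro ⟨h1, h2⟩ i
      exact ⟨h1 i, h2 i⟩
    · intro h
      exact ⟨fun i => (h i).1, fun i => (h i).2⟩
  rw [h1, Fintype.card_piFinset]
  exact Finset.prod_congr rfl fun i _ => card_fiber_one m (k i) hm (lo i) (r i)

theorem sum_full (m : ℕ) [NeZero m] (lo : ι → ℤ) (k : ι → ℕ) (G : (ι → ZMod m) → ℝ) :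
    ∑ x ∈ box lo (fun i => k i * m), G (red m x) = (∏ i, k i : ℕ) * ∑ r, G r := by
  rw [← Finset.sum_fiberwise (box lo (fun i => k i * m)) (fun x => red m x)
    (fun x => G (red m x)), Finset.mul_sum]
  refine Finset.sum_congr rfl fun r _ => ?_
  rw [Finset.sum_congr rfl (fun x hx => by rw [(Finset.mem_filter.1 hx).2]), Finset.sum_const,
    card_fiber m (Nat.pos_of_ne_zero (NeZero.ne m)) lo k r, nsmul_eq_mul]

theorem prod_sub_le (N r : ι → ℝ) (hN : ∀ i, 0 < N i) (hr : ∀ i, 0 ≤ r i) (hrN : ∀ i, r i ≤ N i) :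
    ∏ i, N i - ∏ i, (N i - r i) ≤ (∑ i, r i / N i) * ∏ i, N i := by
  have key : ∀ s : Finset ι, ∏ i ∈ s, N i - ∏ i ∈ s, (N i - r i) ≤
      (∑ i ∈ s, r i / N i) * ∏ i ∈ s, N i := by
    intro s
    induction s using Finset.induction_on with
    | empty => simp
    | insert a s ha ih =>
      rw [Finset.prod_insert ha, Finset.prod_insert ha, Finset.sum_insert ha]
      have h1 : ∏ i ∈ s, (N i - r i) ≤ ∏ i ∈ s, N i :=
        Finset.prod_le_prod (fun i _ => by linarith [hrN i]) (fun i _ => by linarith [hr i])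
      have h2 : 0 ≤ ∏ i ∈ s, (N i - r i) := Finset.prod_nonneg fun i _ => by linarith [hrN i]
      have h3 : r a / N a * (N a * ∏ i ∈ s, N i) = r a * ∏ i ∈ s, N i := by
        have := (hN a).ne'
        field_simp
      have h4 : N a * (∏ i ∈ s, N i - ∏ i ∈ s, (N i - r i)) ≤
          N a * ((∑ i ∈ s, r i / N i) * ∏ i ∈ s, N i) :=
        mul_le_mul_of_nonneg_left ih (hN a).le
      have h5 : r a * ∏ i ∈ s, (N i - r i) ≤ r a * ∏ i ∈ s, N i :=
        mul_le_mul_of_nonneg_left h1 (hr a)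
      rw [add_mul, h3]
      nlinarith
  exact key Finset.univ

/-- For a function of the residues modulo `m` with sum zero, the sum over a box is small. -/
theorem sum_box_le (m : ℕ) [NeZero m] (lo : ι → ℤ) (N : ι → ℕ) (B : ℝ) (hB : 0 < B)
    (hN : ∀ i, B ≤ N i) (G : (ι → ZMod m) → ℝ) (hG : ∀ r, |G r| ≤ 1) (hG0 : ∑ r, G r = 0) :
    |∑ x ∈ box lo N, G (red m x)| ≤ Fintype.card ι * (m / B) * ∏ i, (N i : ℝ) := by
  have hm : 0 < m := Nat.pos_of_ne_zero (NeZero.ne m)
  have hNpos : ∀ i, (0 : ℝ) < N i := fun i => lt_of_lt_of_le hB (hN i)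
  set N' : ι → ℕ := fun i => N i / m * m with hN'
  have hle : ∀ i, N' i ≤ N i := fun i => Nat.div_mul_le_self _ _
  have hsub : box lo N' ⊆ box lo N := by
    intro x hx
    simp only [box, Fintype.mem_piFinset, Finset.mem_Ico] at hx ⊢
    intro i
    have h1 := hx i
    have h2 : (N' i : ℤ) ≤ N i := by exact_mod_cast hle i
    exact ⟨h1.1, lt_of_lt_of_le h1.2 (by linarith)⟩
  have h0 : ∑ x ∈ box lo N', G (red m x) = 0 := by
    rw [hN', sum_full m lo (fun i => N i / m) G, hG0, mul_zero]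
  rw [← Finset.sum_sdiff hsub, h0, add_zero]
  have h1 : |∑ x ∈ box lo N \ box lo N', G (red m x)| ≤ ((box lo N \ box lo N').card : ℝ) := by
    refine (Finset.abs_sum_le_sum_abs _ _).trans ?_
    refine (Finset.sum_le_card_nsmul _ _ 1 (fun x _ => hG _)).trans ?_
    simp
  refine h1.trans ?_
  rw [Finset.card_sdiff_of_subset hsub, Nat.cast_sub (Finset.card_le_card hsub), card_box, card_box]
  push_cast
  have h2 := prod_sub_le (fun i => (N i : ℝ)) (fun i => (N i : ℝ) - N' i) hNpos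
    (fun i => by
      have : (N' i : ℝ) ≤ N i := by exact_mod_cast hle i
      linarith)
    (fun i => by
      have : (0 : ℝ) ≤ N' i := by positivity
      linarith)
  have h3 : ∏ i, ((N i : ℝ) - ((N i : ℝ) - N' i)) = ∏ i, (N' i : ℝ) :=
    Finset.prod_congr rfl fun i _ => by ring
  rw [h3] at h2
  refine h2.trans ?_
  refine mul_le_mul_of_nonneg_right ?_ (Finset.prod_nonneg fun i _ => (hNpos i).le)
  calc ∑ i, ((N i : ℝ) - N' i) / N i ≤ ∑ _i : ι, (m : ℝ) / B := by
        refine Finset.sum_le_sum fun i _ => ?_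
        have h4 : (N i : ℝ) - N' i ≤ m := by
          have h5 : N i < N' i + m := by
            have := Nat.div_add_mod (N i) m
            have h6 := Nat.mod_lt (N i) hm
            simp only [hN']
            nlinarith [Nat.div_mul_le_self (N i) m]
          have h6 : (N i : ℝ) < N' i + m := by exact_mod_cast h5
          linarith
        have h5 : (0 : ℝ) ≤ (N i : ℝ) - N' i := by
          have : (N' i : ℝ) ≤ N i := by exact_mod_cast hle i
          linarith
        exact div_le_div₀ (by positivity) h4 hB (hN i)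
    _ = Fintype.card ι * (m / B) := by
        rw [Finset.sum_const, Finset.card_univ, nsmul_eq_mul]

end fiber

section crt

variable {ι : Type*} [Fintype ι] [DecidableEq ι]

/-- Reduction of residues. -/
def lower {m n : ℕ} (h : m ∣ n) (r : ι → ZMod n) : ι → ZMod m := fun i => ZMod.castHom h (ZMod m) (r i)

theorem lower_red {m n : ℕ} (h : m ∣ n) (x : ι → ℤ) : lower h (red n x) = red m x := by
  funext i
  simp [lower, red]

theorem sum_crt (m n : ℕ) [NeZero m] [NeZero n] [NeZero (m * n)] (hmn : m.Coprime n)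
    (a : (ι → ZMod m) → ℝ) (b : (ι → ZMod n) → ℝ) :
    ∑ r : ι → ZMod (m * n), a (lower (Dvd.intro _ rfl) r) * b (lower (Dvd.intro_left _ rfl) r) =
      (∑ r, a r) * ∑ r, b r := by
  rw [Finset.sum_mul_sum, ← Finset.sum_product']
  let e : (ι → ZMod (m * n)) ≃ (ι → ZMod m) × (ι → ZMod n) :=
    (Equiv.piCongrRight fun _ => (ZMod.chineseRemainder hmn).toEquiv).trans
      (Equiv.arrowProdEquivProdArrow _ _ _)
  refine Finset.sum_equiv e (by simp) ?_
  intro r _
  have h1 : (e r).1 = lower (Dvd.intro _ rfl) r := by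
    funext i
    exact RingHom.congr_fun (Subsingleton.elim
      ((RingHom.fst (ZMod m) (ZMod n)).comp (ZMod.chineseRemainder hmn).toRingHom)
      (ZMod.castHom (Dvd.intro _ rfl) (ZMod m))) (r i)
  have h2 : (e r).2 = lower (Dvd.intro_left _ rfl) r := by
    funext i
    exact RingHom.congr_fun (Subsingleton.elim
      ((RingHom.snd (ZMod m) (ZMod n)).comp (ZMod.chineseRemainder hmn).toRingHom)
      (ZMod.castHom (Dvd.intro_left _ rfl) (ZMod n))) (r i)
  rw [h1, h2]

/-- **The Turán sieve in a box.** -/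
theorem turan (P : Finset ℕ) (hP : ∀ l ∈ P, l.Prime) (Q : ℝ) (hQ : ∀ l ∈ P, (l : ℝ) ≤ Q)
    (Ω : ∀ l : ℕ, Finset (ι → ZMod l)) (c : ℝ) (hc : 0 < c)
    (hΩ : ∀ l ∈ P, c * (l : ℝ) ^ Fintype.card ι ≤ ((Ω l).card : ℝ))
    (lo : ι → ℤ) (N : ι → ℕ) (B : ℝ) (hB : 0 < B) (hN : ∀ i, B ≤ N i) (hne : P.Nonempty) :
    (((box lo N).filter (fun x => ∀ l ∈ P, red l x ∉ Ω l)).card : ℝ) ≤
      (1 / (c ^ 2 * P.card) + Fintype.card ι * Q ^ 2 / (c ^ 2 * B)) * ∏ i, (N i : ℝ) := by
  classical
  have hNpos : ∀ i, (0 : ℝ) < N i := fun i => lt_of_lt_of_le hB (hN i)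
  have hprod : (0 : ℝ) ≤ ∏ i, (N i : ℝ) := Finset.prod_nonneg fun i _ => (hNpos i).le
  have hPc : (0 : ℝ) < P.card := by exact_mod_cast hne.card_pos
  have hQ0 : 0 ≤ Q := by
    obtain ⟨l, hl⟩ := hne
    exact (Nat.cast_nonneg l).trans (hQ l hl)
  -- the centred indicator functions
  let ω : ℕ → ℝ := fun l => ((Ω l).card : ℝ) / (l : ℝ) ^ Fintype.card ι
  let a : ∀ l : ℕ, (ι → ZMod l) → ℝ := fun l r => (if r ∈ Ω l then 1 else 0) - ω l
  have hω : ∀ l ∈ P, c ≤ ω l ∧ ω l ≤ 1 := by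
    intro l hl
    have hl0 : (0 : ℝ) < (l : ℝ) ^ Fintype.card ι :=
      pow_pos (by exact_mod_cast (hP l hl).pos) _
    haveI : NeZero l := ⟨(hP l hl).ne_zero⟩
    refine ⟨(le_div_iff₀ hl0).2 (hΩ l hl), (div_le_one hl0).2 ?_⟩
    have h1 := Finset.card_le_univ (Ω l)
    rw [Fintype.card_fun, ZMod.card] at h1
    exact_mod_cast h1
  have ha1 : ∀ l ∈ P, ∀ r, |a l r| ≤ 1 := by
    intro l hl r
    have h1 := hω l hl
    simp only [a]
    rw [abs_le]
    split_ifs <;> constructor <;> linarith [h1.1, h1.2]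
  have ha0 : ∀ l (_ : l ∈ P) [NeZero l], ∑ r, a l r = 0 := by
    intro l hl _
    have hl0 : (0 : ℝ) < (l : ℝ) ^ Fintype.card ι :=
      pow_pos (by exact_mod_cast (hP l hl).pos) _
    simp only [a]
    rw [Finset.sum_sub_distrib, Finset.sum_boole, Finset.sum_const, Finset.card_univ,
      Fintype.card_fun, ZMod.card, nsmul_eq_mul]
    simp only [ω, Finset.filter_mem_eq_inter, Finset.univ_inter]
    push_cast
    field_simp
    ring
  -- the second moment
  let X : (ι → ℤ) → ℝ := fun x => ∑ l ∈ P, a l (red l x)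
  have hsecond : ∑ x ∈ box lo N, X x ^ 2 ≤
      (P.card + P.card ^ 2 * (Fintype.card ι * Q ^ 2 / B)) * ∏ i, (N i : ℝ) := by
    have h1 : ∀ x, X x ^ 2 = ∑ l ∈ P, ∑ l' ∈ P, a l (red l x) * a l' (red l' x) := by
      intro x
      rw [sq, Finset.sum_mul_sum]
    rw [Finset.sum_congr rfl (fun x _ => h1 x), Finset.sum_comm]
    have h2 : ∀ l ∈ P, ∑ x ∈ box lo N, ∑ l' ∈ P, a l (red l x) * a l' (red l' x) ≤
        (1 + P.card * (Fintype.card ι * Q ^ 2 / B)) * ∏ i, (N i : ℝ) := by
      intro l hl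
      rw [Finset.sum_comm]
      have hdiag : ∑ x ∈ box lo N, a l (red l x) * a l (red l x) ≤ ∏ i, (N i : ℝ) := by
        have h3 : ∀ x ∈ box lo N, a l (red l x) * a l (red l x) ≤ 1 := by
          intro x _
          have h4 := ha1 l hl (red l x)
          rw [← abs_mul_abs_self]
          nlinarith [abs_nonneg (a l (red l x))]
        refine (Finset.sum_le_card_nsmul _ _ 1 h3).trans ?_
        rw [card_box, nsmul_eq_mul, mul_one]
        push_cast
        exact le_rfl
      have hoff : ∀ l' ∈ P.erase l, ∑ x ∈ box lo N, a l (red l x) * a l' (red l' x) ≤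
          (Fintype.card ι * Q ^ 2 / B) * ∏ i, (N i : ℝ) := by
        intro l' hl'
        obtain ⟨hne', hl'P⟩ := Finset.mem_erase.1 hl'
        haveI : NeZero l := ⟨(hP l hl).ne_zero⟩
        haveI : NeZero l' := ⟨(hP l' hl'P).ne_zero⟩
        haveI : NeZero (l * l') := ⟨mul_ne_zero (NeZero.ne l) (NeZero.ne l')⟩
        have hcop : l.Coprime l' := (Nat.coprime_primes (hP l hl) (hP l' hl'P)).2 hne'.symm
        have h3 := sum_box_le (l * l') lo N B hB hN
          (fun r => a l (lower (Dvd.intro _ rfl) r) * a l' (lower (Dvd.intro_left _ rfl) r))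
          (fun r => by
            rw [abs_mul]
            have h4 := ha1 l hl (lower (Dvd.intro _ rfl) r)
            have h5 := ha1 l' hl'P (lower (Dvd.intro_left _ rfl) r)
            nlinarith [abs_nonneg (a l (lower (Dvd.intro _ rfl) r)),
              abs_nonneg (a l' (lower (Dvd.intro_left _ rfl) r))])
          (by rw [sum_crt l l' hcop, ha0 l hl, zero_mul])
        simp only [lower_red] at h3
        refine (le_abs_self _).trans (h3.trans ?_)
        refine mul_le_mul_of_nonneg_right ?_ hprod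
        rw [mul_div_assoc]
        refine mul_le_mul_of_nonneg_left ?_ (Nat.cast_nonneg _)
        refine div_le_div_of_nonneg_right ?_ hB.le
        push_cast
        rw [sq]
        exact mul_le_mul (hQ l hl) (hQ l' hl'P) (Nat.cast_nonneg _) hQ0
      rw [← Finset.add_sum_erase P _ hl]
      have h4 := Finset.sum_le_card_nsmul (P.erase l) _ _ hoff
      rw [nsmul_eq_mul] at h4
      have h5 : ((P.erase l).card : ℝ) ≤ P.card := by
        exact_mod_cast Finset.card_le_card (Finset.erase_subset _ _)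
      have h6 : 0 ≤ (Fintype.card ι * Q ^ 2 / B) * ∏ i, (N i : ℝ) := by positivity
      nlinarith
    refine (Finset.sum_le_card_nsmul P _ _ h2).trans ?_
    rw [nsmul_eq_mul]
    apply le_of_eq
    ring
  -- the bad points
  set Z := (box lo N).filter (fun x => ∀ l ∈ P, red l x ∉ Ω l) with hZ
  have hbad : (Z.card : ℝ) * (c * P.card) ^ 2 ≤ ∑ x ∈ box lo N, X x ^ 2 := by
    have h1 : ∑ x ∈ Z, X x ^ 2 ≤ ∑ x ∈ box lo N, X x ^ 2 :=
      Finset.sum_le_sum_of_subset_of_nonneg (Finset.filter_subset _ _) fun _ _ _ => sq_nonneg _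
    refine le_trans ?_ h1
    have h2 : ∀ x ∈ Z, (c * P.card) ^ 2 ≤ X x ^ 2 := by
      intro x hx
      have h3 := (Finset.mem_filter.1 hx).2
      have h4 : X x = - ∑ l ∈ P, ω l := by
        simp only [X, a]
        rw [← Finset.sum_neg_distrib]
        refine Finset.sum_congr rfl fun l hl => ?_
        rw [if_neg (h3 l hl), zero_sub]
      have h5 : c * P.card ≤ ∑ l ∈ P, ω l := by
        have h6 := Finset.card_nsmul_le_sum P ω c (fun l hl => (hω l hl).1)
        rw [nsmul_eq_mul] at h6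
        linarith
      rw [h4, neg_sq]
      exact pow_le_pow_left₀ (by positivity) h5 2
    have h3 := Finset.card_nsmul_le_sum Z (fun x => X x ^ 2) _ h2
    rwa [nsmul_eq_mul] at h3
  have hfin := hbad.trans hsecond
  have hcP : 0 < (c * P.card : ℝ) ^ 2 := by positivity
  rw [← le_div_iff₀ hcP] at hfin
  refine hfin.trans (le_of_eq ?_)
  field_simp

end crt

end Pool.Agent.W521.Turan
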