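import Mathlib
import Pool.Agent.W521.Turan
import Pool.Agent.W521.Lower
import Pool.Agent.W521.Criterion

/-!
# Counting Weil polynomials
-/

set_option autoImplicit false

namespace Pool.Agent.W521.Count

open Polynomial Pool.Agent.W521.Frob Pool.Agent.W521.Descent Pool.Agent.W521.Density
  Pool.Agent.W521.Lower

/-- The Weil polynomials whose middle coefficient is prime to `q`. -/
def ordinaryWeilPolys (q g : ℕ) : Set ℤ[X] := {f ∈ weilPolys q g | IsCoprime (f.coeff g) (q : ℤ)}

/-- The bound for the coefficient of index `k` of a real Weil polynomial. -/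
noncomputable def bd (q g k : ℕ) : ℕ := ⌊(4 : ℝ) ^ g * Real.sqrt q ^ (g - k)⌋₊

theorem le_bd (q g k : ℕ) : (4 : ℝ) ^ g * Real.sqrt q ^ (g - k) ≤ (2 * bd q g k + 1 : ℕ) := by
  have h1 := Nat.lt_floor_add_one ((4 : ℝ) ^ g * Real.sqrt q ^ (g - k))
  have h2 : (0 : ℝ) ≤ (bd q g k : ℝ) := Nat.cast_nonneg _
  push_cast
  unfold bd at *
  linarith

theorem bd_le (q g k : ℕ) : (bd q g k : ℝ) ≤ (4 : ℝ) ^ g * Real.sqrt q ^ (g - k) :=
  Nat.floor_le (by positivity)

theorem coeff_le_bd {q g : ℕ} (hq : q ≠ 0) {h : ℤ[X]} (hm : h.Monic) (hdeg : h.natDegree = g)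
    (hf : weil q h ∈ weilPolys q g) (k : ℕ) : |h.coeff k| ≤ bd q g k := by
  have h1 := coeff_bound hq hm hdeg hf k
  have h2 : (2 * Real.sqrt q) ^ (g - k) * (g.choose k : ℝ) ≤ 4 ^ g * Real.sqrt q ^ (g - k) := by
    have h3 : (g.choose k : ℝ) ≤ 2 ^ g := by exact_mod_cast Nat.choose_le_two_pow g k
    have h4 : (2 : ℝ) ^ (g - k) ≤ 2 ^ g := pow_le_pow_right₀ (by norm_num) (by omega)
    rw [mul_pow]
    calc 2 ^ (g - k) * Real.sqrt q ^ (g - k) * (g.choose k : ℝ) =
        (2 ^ (g - k) * (g.choose k : ℝ)) * Real.sqrt q ^ (g - k) := by ring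
      _ ≤ (2 ^ g * 2 ^ g) * Real.sqrt q ^ (g - k) := by
          refine mul_le_mul_of_nonneg_right ?_ (by positivity)
          exact mul_le_mul h4 h3 (Nat.cast_nonneg _) (by positivity)
      _ = 4 ^ g * Real.sqrt q ^ (g - k) := by
          rw [← mul_pow]
          norm_num
  have h3 : ((|h.coeff k|).toNat : ℝ) ≤ (4 : ℝ) ^ g * Real.sqrt q ^ (g - k) := by
    have h4 : (((|h.coeff k|).toNat : ℤ) : ℝ) = |(h.coeff k : ℝ)| := by
      rw [Int.toNat_of_nonneg (abs_nonneg _)]
      push_cast
      rfl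
    have h5 : ((|h.coeff k|).toNat : ℝ) = |(h.coeff k : ℝ)| := by exact_mod_cast h4
    rw [h5]
    exact h1.trans h2
  have h4 := Nat.le_floor h3
  unfold bd
  omega

theorem isPrimePow_coprime {q : ℕ} (hq : IsPrimePow q) : ∃ p : ℕ, p.Prime ∧ p ∣ q ∧
    ∀ e : ℤ, ¬ (p : ℤ) ∣ e → IsCoprime e (q : ℤ) := by
  rw [isPrimePow_nat_iff] at hq
  obtain ⟨p, n, hp, hn, rfl⟩ := hq
  refine ⟨p, hp, dvd_pow_self p hn.ne', ?_⟩
  intro e he
  push_cast
  refine IsCoprime.pow_right ?_
  rw [isCoprime_comm, Prime.coprime_iff_not_dvd (Nat.prime_iff_prime_int.1 hp)]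
  exact he

/-- The number of integers in `[1, M]` prime to `p` is at least `M / 2`. -/
theorem card_prime_to (p M : ℕ) (hp : p.Prime) :
    M ≤ 2 * ((Finset.Icc 1 M).filter (fun e => ¬ p ∣ e)).card := by
  have h1 : ((Finset.Icc 1 M).filter (fun e => p ∣ e)).card = M / p := by
    have := Nat.Ioc_filter_dvd_card_eq_div M p
    rw [← this]
    congr 1
  have h2 := Finset.card_filter_add_card_filter_not (s := Finset.Icc 1 M) (fun e => p ∣ e)
  rw [Nat.card_Icc] at h2
  have h3 : M / p ≤ M / 2 := Nat.div_le_div_left hp.two_le two_pos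
  omega


theorem exists_point {q g : ℕ} (hq : q ≠ 0) {f : ℤ[X]} (hf : f ∈ weilPolys q g) :
    ∃ x : Fin g → ℤ, f = weil q (mkPoly g x) ∧ ∀ k : Fin g, |x k| ≤ bd q g k := by
  obtain ⟨h, hm, hdeg, rfl⟩ := exists_real hq hf
  refine ⟨fun k => h.coeff k, ?_, fun k => coeff_le_bd hq hm hdeg hf k⟩
  rw [eq_mkPoly hm hdeg]

theorem finite_weilPolys {q g : ℕ} (hq : q ≠ 0) : (weilPolys q g).Finite := by
  have h1 : (Set.pi Set.univ (fun k : Fin g => Set.Icc (-(bd q g k : ℤ)) (bd q g k))).Finite :=
    Set.Finite.pi fun k => Set.finite_Icc _ _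
  refine (h1.image (fun x => weil q (mkPoly g x))).subset ?_
  intro f hf
  obtain ⟨x, rfl, hx⟩ := exists_point hq hf
  exact ⟨x, fun k _ => abs_le.1 (hx k), rfl⟩

theorem finite_ordinary {q g : ℕ} (hq : q ≠ 0) : (ordinaryWeilPolys q g).Finite :=
  (finite_weilPolys hq).subset fun _ h => h.1

/-- A Weil polynomial with middle coefficient prime to `q` exists. -/
theorem ordinary_nonempty {q : ℕ} (hq : 0 < q) (g : ℕ) :
    weil q ((X - C 1) ^ g) ∈ ordinaryWeilPolys q g := by
  have hm : ((X - C 1) ^ g : ℤ[X]).Monic := (monic_X_sub_C 1).pow g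
  have hdeg : ((X - C 1) ^ g : ℤ[X]).natDegree = g := by
    rw [(monic_X_sub_C 1).natDegree_pow, natDegree_X_sub_C, mul_one]
  constructor
  · refine mem_weilPolys hq hm hdeg ?_
    intro z hz
    refine ⟨1, ?_, ?_⟩
    · rw [abs_one]
      have h1 : (1 : ℝ) ≤ Real.sqrt q := by
        rw [Real.one_le_sqrt]
        exact_mod_cast hq
      linarith
    · simp only [map_pow, map_sub, aeval_X, map_one] at hz
      have := eq_zero_of_pow_eq_zero hz
      push_cast
      exact (sub_eq_zero.1 this).symm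
  · have h1 := weil_coeff_mid q ((X - C 1) ^ g)
    rw [hdeg] at h1
    have h2 : ((X - C 1) ^ g : ℤ[X]).coeff 0 = (-1) ^ g := by
      rw [coeff_zero_eq_eval_zero]
      simp
    rw [h2] at h1
    obtain ⟨c, hc⟩ := h1
    have h3 : (weil q ((X - C 1) ^ g)).coeff g = (-1) ^ g + (q : ℤ) * c := by linarith
    rw [h3]
    have h4 : IsCoprime ((-1 : ℤ) ^ g) (q : ℤ) := by
      refine IsCoprime.pow_left ?_
      exact (isCoprime_one_left).neg_left
    exact IsCoprime.add_mul_left_left h4 c

/-- The radius. -/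
noncomputable def rad (q g k : ℕ) : ℝ := Real.sqrt q ^ (g - k) / 2 ^ g

theorem rad_nonneg (q g k : ℕ) : 0 ≤ rad q g k := by
  unfold rad
  positivity

/-- The lower bound. -/
theorem ordinary_lower {q : ℕ} (hq : IsPrimePow q) {g : ℕ} (hg : 0 < g) :
    ∏ k : Fin g, Real.sqrt q ^ (g - (k : ℕ)) ≤
      4 * 2 ^ (g ^ 2) * ((ordinaryWeilPolys q g).ncard : ℝ) := by
  classical
  have hq0 : 0 < q := hq.pos
  by_cases hq4 : q < 4
  · have h1 : (1 : ℝ) ≤ ((ordinaryWeilPolys q g).ncard : ℝ) := by
      have h2 : 0 < (ordinaryWeilPolys q g).ncard :=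
        (Set.ncard_pos (finite_ordinary hq0.ne')).2 ⟨_, ordinary_nonempty hq0 g⟩
      exact_mod_cast h2
    have h2 : Real.sqrt q ≤ 2 := by
      rw [Real.sqrt_le_left (by norm_num)]
      have h3 : (q : ℝ) < 4 := by exact_mod_cast hq4
      linarith
    have h3 : ∏ k : Fin g, Real.sqrt q ^ (g - (k : ℕ)) ≤ ∏ _k : Fin g, (2 : ℝ) ^ g := by
      refine Finset.prod_le_prod (fun k _ => by positivity) fun k _ => ?_
      calc Real.sqrt q ^ (g - (k : ℕ)) ≤ 2 ^ (g - (k : ℕ)) :=
            pow_le_pow_left₀ (Real.sqrt_nonneg _) h2 _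
        _ ≤ 2 ^ g := pow_le_pow_right₀ (by norm_num) (by omega)
    rw [Finset.prod_const, Finset.card_univ, Fintype.card_fin, ← pow_mul, ← sq] at h3
    have h4 : (0 : ℝ) < 2 ^ (g ^ 2) := by positivity
    nlinarith
  · push Not at hq4
    obtain ⟨p, hp, hpq, hcop⟩ := isPrimePow_coprime hq
    set z0 : Fin g := ⟨0, hg⟩ with hz0
    -- the sets of increments
    let E : Fin g → Finset ℤ := fun k =>
      if k = z0 then ((Finset.Icc 1 ⌊rad q g 0⌋₊).filter (fun e => ¬ p ∣ e)).map Nat.castEmbedding
      else (Finset.range (⌊rad q g k⌋₊ + 1)).map Nat.castEmbedding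
    let F : (Fin g → ℤ) → ℤ[X] := fun e => weil q (mkPoly g (fun k => (dick q g).coeff k + e k))
    have hE : ∀ k, ∀ e ∈ E k, |(e : ℝ)| ≤ rad q g k := by
      intro k e he
      by_cases hk : k = z0
      · simp only [E, if_pos hk, Finset.mem_map, Finset.mem_filter, Finset.mem_Icc] at he
        obtain ⟨n, ⟨⟨h1, h2⟩, h3⟩, rfl⟩ := he
        have h4 : (n : ℝ) ≤ rad q g 0 := (Nat.le_floor_iff (rad_nonneg q g 0)).1 h2
        rw [hk]
        simpa [hz0] using h4
      · simp only [E, if_neg hk, Finset.mem_map, Finset.mem_range] at he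
        obtain ⟨n, h2, rfl⟩ := he
        have h4 : (n : ℝ) ≤ rad q g k := (Nat.le_floor_iff (rad_nonneg q g k)).1 (by omega)
        simpa using h4
    have hinj : Function.Injective F := by
      intro e e' hee
      have h1 := weil_injective hq0.ne' (mkPoly_natDegree g _) (mkPoly_natDegree g _) hee
      have h2 := mkPoly_injective g h1
      funext k
      have h3 := congrFun h2 k
      simpa using h3
    have hmem : ∀ e ∈ Fintype.piFinset E, F e ∈ ordinaryWeilPolys q g := by
      intro e he
      rw [Fintype.mem_piFinset] at he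
      constructor
      · refine mem_weilPolys hq0 (mkPoly_monic g _) (mkPoly_natDegree g _) ?_
        refine real_roots hq0 hg _ fun k => ?_
        have h1 := hE k (e k) (he k)
        unfold rad at h1
        simpa using h1
      · have h1 := weil_coeff_mid q (mkPoly g (fun k : Fin g => (dick q g).coeff k + e k))
        rw [mkPoly_natDegree] at h1
        have h2 : (mkPoly g (fun k : Fin g => (dick q g).coeff k + e k)).coeff 0 =
            (dick q g).coeff 0 + e z0 := mkPoly_coeff g _ z0
        rw [h2] at h1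
        have h3 : (q : ℤ) ∣ (dick q g).coeff 0 := by
          obtain ⟨g', rfl⟩ : ∃ g', g = g' + 1 := ⟨g - 1, by omega⟩
          exact (dick_coeff_zero q g').1
        have h4 : (q : ℤ) ∣ (F e).coeff g - e z0 := by
          have h5 := dvd_add h1 h3
          have h6 : (F e).coeff g - e z0 = (weil q (mkPoly g
            (fun k : Fin g => (dick q g).coeff k + e k))).coeff g -
            ((dick q g).coeff 0 + e z0) + (dick q g).coeff 0 := by
            simp only [F]
            ring
          rw [h6]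
          exact h5
        obtain ⟨c, hc⟩ := h4
        have h5 : (F e).coeff g = e z0 + (q : ℤ) * c := by linarith
        have h6 : IsCoprime (e z0) (q : ℤ) := by
          have h7 := he z0
          simp only [E, if_true, Finset.mem_map, Finset.mem_filter] at h7
          obtain ⟨n, ⟨_, h8⟩, h9⟩ := h7
          rw [← h9]
          refine hcop _ ?_
          intro h10
          rw [Nat.castEmbedding_apply] at h10
          exact h8 (by exact_mod_cast h10)
        change IsCoprime ((F e).coeff g) (q : ℤ)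
        rw [h5]
        exact IsCoprime.add_mul_left_left h6 c
    have hcard : (Fintype.piFinset E).card ≤ (ordinaryWeilPolys q g).ncard := by
      rw [← Set.ncard_coe_finset, ← Set.ncard_image_of_injective _ hinj]
      refine Set.ncard_le_ncard ?_ (finite_ordinary hq0.ne')
      rintro _ ⟨e, he, rfl⟩
      exact hmem e (by simpa using he)
    have hEcard : ∀ k : Fin g, rad q g k ≤ (if k = z0 then 4 else 1) * ((E k).card : ℝ) := by
      intro k
      by_cases hk : k = z0
      · rw [if_pos hk]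
        simp only [E, if_pos hk, Finset.card_map]
        have h1 := card_prime_to p ⌊rad q g 0⌋₊ hp
        have h2 : (1 : ℝ) ≤ rad q g 0 := by
          unfold rad
          rw [le_div_iff₀ (by positivity), one_mul, Nat.sub_zero]
          refine pow_le_pow_left₀ (by norm_num) ?_ g
          rw [Real.le_sqrt' (by norm_num)]
          have : (4 : ℝ) ≤ q := by exact_mod_cast hq4
          linarith
        have h3 := Nat.lt_floor_add_one (rad q g 0)
        have h4 : (1 : ℝ) ≤ (⌊rad q g 0⌋₊ : ℝ) := by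
          have h5 : 1 ≤ ⌊rad q g 0⌋₊ := (Nat.le_floor_iff (rad_nonneg q g 0)).2 (by simpa using h2)
          exact_mod_cast h5
        have h5 : (⌊rad q g 0⌋₊ : ℝ) ≤
            2 * (((Finset.Icc 1 ⌊rad q g 0⌋₊).filter (fun e => ¬ p ∣ e)).card : ℝ) := by
          exact_mod_cast h1
        rw [hk]
        change rad q g 0 ≤ _
        linarith
      · rw [if_neg hk, one_mul]
        simp only [E, if_neg hk, Finset.card_map, Finset.card_range]
        have h3 := Nat.lt_floor_add_one (rad q g k)
        push_cast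
        linarith
    have hprod : ∏ k : Fin g, rad q g k ≤ 4 * ((ordinaryWeilPolys q g).ncard : ℝ) := by
      calc ∏ k : Fin g, rad q g k ≤ ∏ k : Fin g, ((if k = z0 then 4 else 1) * ((E k).card : ℝ)) :=
            Finset.prod_le_prod (fun k _ => rad_nonneg q g k) fun k _ => hEcard k
        _ = 4 * ((Fintype.piFinset E).card : ℝ) := by
            rw [Finset.prod_mul_distrib, Fintype.card_piFinset, Finset.prod_ite_eq']
            simp
        _ ≤ 4 * ((ordinaryWeilPolys q g).ncard : ℝ) := by
            have : ((Fintype.piFinset E).card : ℝ) ≤ ((ordinaryWeilPolys q g).ncard : ℝ) := by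
              exact_mod_cast hcard
            linarith
    have hprod2 : ∏ k : Fin g, rad q g k =
        (∏ k : Fin g, Real.sqrt q ^ (g - (k : ℕ))) / 2 ^ (g ^ 2) := by
      unfold rad
      rw [Finset.prod_div_distrib]
      congr 1
      rw [Finset.prod_const, Finset.card_univ, Fintype.card_fin, ← pow_mul, ← sq]
    rw [hprod2, div_le_iff₀ (by positivity)] at hprod
    linarith

end Pool.Agent.W521.Count
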