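import Mathlib
import Pool.Agent.W521.Sieve
import Pool.Agent.W521.Count

/-!
# The exceptional points of the box
-/

set_option autoImplicit false

namespace Pool.Agent.W521.Bad

open Polynomial Pool.Agent.W521.Frob Pool.Agent.W521.Descent Pool.Agent.W521.Density
  Pool.Agent.W521.Count Pool.Agent.W521.Turan Pool.Agent.W521.Sieve

/-- The rate. -/
noncomputable def rate (q : ℕ) : ℝ := Real.log q * (q : ℝ) ^ (-(1 / 6) : ℝ)

theorem rate_nonneg (q : ℕ) : 0 ≤ rate q := by
  unfold rate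
  exact mul_nonneg (Real.log_natCast_nonneg q) (Real.rpow_nonneg (Nat.cast_nonneg q) _)

theorem inv_sqrt_le {q : ℕ} (hq : 2 ≤ q) : 1 / Real.sqrt q ≤ (1 / Real.log 2) * rate q := by
  have hqR : (2 : ℝ) ≤ q := by exact_mod_cast hq
  have hl2 : 0 < Real.log 2 := Real.log_pos (by norm_num)
  have hlogq : Real.log 2 ≤ Real.log q := Real.log_le_log (by norm_num) hqR
  have h1 : 1 / Real.sqrt q ≤ (q : ℝ) ^ (-(1 / 6) : ℝ) := by
    rw [Real.sqrt_eq_rpow, one_div, ← Real.rpow_neg (by linarith)]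
    exact Real.rpow_le_rpow_of_exponent_le (by linarith) (by norm_num)
  unfold rate
  calc 1 / Real.sqrt q ≤ (q : ℝ) ^ (-(1 / 6) : ℝ) := h1
    _ = 1 / Real.log 2 * (Real.log 2 * (q : ℝ) ^ (-(1 / 6) : ℝ)) := by field_simp
    _ ≤ 1 / Real.log 2 * (Real.log q * (q : ℝ) ^ (-(1 / 6) : ℝ)) := by
        refine mul_le_mul_of_nonneg_left ?_ (by positivity)
        exact mul_le_mul_of_nonneg_right hlogq (by positivity)

/-- The number of `t` in `[-b, b]` with `q ∣ t ^ 2`. -/
theorem card_sq_dvd {q : ℕ} (hq : 0 < q) (b K : ℕ) (hb : b ^ 2 ≤ K * q) :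
    ((Finset.Ico (-(b : ℤ)) (-(b : ℤ) + ((2 * b + 1 : ℕ) : ℤ))).filter
      (fun t : ℤ => (q : ℤ) ∣ t ^ 2)).card ≤ 2 * (K + 1) := by
  classical
  have h1 : ((Finset.Ico (-(b : ℤ)) (-(b : ℤ) + ((2 * b + 1 : ℕ) : ℤ))).filter
      (fun t : ℤ => (q : ℤ) ∣ t ^ 2)).card ≤ ((Finset.univ : Finset Bool) ×ˢ Finset.range (K + 1)).card := by
    refine Finset.card_le_card_of_injOn (fun t => (decide (0 ≤ t), (t ^ 2 / (q : ℤ)).toNat)) ?_ ?_
    · intro t ht
      obtain ⟨h2, h3⟩ := Finset.mem_filter.1 (Finset.mem_coe.1 ht)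
      rw [Finset.mem_Ico] at h2
      obtain ⟨c, hc⟩ := h3
      rw [Finset.mem_coe, Finset.mem_product]
      refine ⟨Finset.mem_univ _, ?_⟩
      rw [Finset.mem_range]
      have h4 : t ^ 2 ≤ (b : ℤ) ^ 2 := by
        apply sq_le_sq'
        · exact h2.1
        · have := h2.2
          push_cast at this
          omega
      have h5 : t ^ 2 / (q : ℤ) = c := by
        rw [hc]
        exact Int.mul_ediv_cancel_left _ (by exact_mod_cast hq.ne')
      have h6 : c ≤ K := by
        have h7 : (q : ℤ) * c ≤ q * K := by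
          rw [← hc]
          refine h4.trans ?_
          have : (b : ℤ) ^ 2 ≤ K * q := by exact_mod_cast hb
          linarith
        exact le_of_mul_le_mul_left h7 (by exact_mod_cast hq)
      change (t ^ 2 / (q : ℤ)).toNat < K + 1
      rw [h5]
      omega
    · intro t ht t' ht' h
      obtain ⟨h2, h3⟩ := Finset.mem_filter.1 (Finset.mem_coe.1 ht)
      obtain ⟨h2', h3'⟩ := Finset.mem_filter.1 (Finset.mem_coe.1 ht')
      obtain ⟨c, hc⟩ := h3
      obtain ⟨c', hc'⟩ := h3'
      have hqz : (q : ℤ) ≠ 0 := by exact_mod_cast hq.ne'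
      have h5 : t ^ 2 / (q : ℤ) = c := by
        rw [hc]
        exact Int.mul_ediv_cancel_left _ hqz
      have h5' : t' ^ 2 / (q : ℤ) = c' := by
        rw [hc']
        exact Int.mul_ediv_cancel_left _ hqz
      have h6 := congrArg Prod.fst h
      have h7 := congrArg Prod.snd h
      simp only [h5, h5'] at h7
      have hc0 : 0 ≤ c := by
        have : 0 ≤ (q : ℤ) * c := by
          rw [← hc]
          positivity
        exact nonneg_of_mul_nonneg_right this (by exact_mod_cast hq)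
      have hc0' : 0 ≤ c' := by
        have : 0 ≤ (q : ℤ) * c' := by
          rw [← hc']
          positivity
        exact nonneg_of_mul_nonneg_right this (by exact_mod_cast hq)
      have h8 : c = c' := by omega
      have h9 : t ^ 2 = t' ^ 2 := by rw [hc, hc', h8]
      simp only [decide_eq_decide] at h6
      rcases sq_eq_sq_iff_eq_or_eq_neg.1 h9 with h10 | h10
      · exact h10
      · by_cases h11 : 0 ≤ t
        · have := h6.1 h11
          omega
        · have : ¬ 0 ≤ t' := fun h12 => h11 (h6.2 h12)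
          omega
  refine h1.trans ?_
  rw [Finset.card_product]
  simp

section

variable {I : Type} [Fintype I] [DecidableEq I] (g : I → ℕ)

/-- The lower corner of the box. -/
noncomputable def lo (q : ℕ) (s : Σ i, Fin (g i)) : ℤ := -(bd q (g s.1) s.2 : ℤ)

/-- The side lengths of the box. -/
noncomputable def len (q : ℕ) (s : Σ i, Fin (g i)) : ℕ := 2 * bd q (g s.1) s.2 + 1

omit [Fintype I] [DecidableEq I] in
theorem sqrt_le_len {q : ℕ} (hq : 0 < q) (s : Σ i, Fin (g i)) :
    Real.sqrt q ≤ (len g q s : ℝ) := by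
  refine le_trans ?_ (le_bd q (g s.1) s.2)
  have h1 : (1 : ℝ) ≤ Real.sqrt q := by
    rw [Real.one_le_sqrt]
    exact_mod_cast hq
  have h2 : Real.sqrt q ≤ Real.sqrt q ^ (g s.1 - (s.2 : ℕ)) := by
    refine le_self_pow₀ h1 ?_
    have := s.2.2
    omega
  have h3 : (1 : ℝ) ≤ 4 ^ g s.1 := one_le_pow₀ (by norm_num)
  have h4 : 0 < Real.sqrt q ^ (g s.1 - (s.2 : ℕ)) := by positivity
  nlinarith

/-- The good points. -/
def Good (q : ℕ) (x : (Σ i, Fin (g i)) → ℤ) : Prop :=
  (∀ i, ∃ l : ℕ, l.Prime ∧ l ≠ 2 ∧ ¬ l ∣ q ∧ FlipPattern q (polys g x) i l) ∧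
    (∀ i, Irreducible ((polys g x i).map (Int.castRingHom ℚ))) ∧
    ∀ i, ¬ (q : ℤ) ∣ (polys g x i).nextCoeff ^ 2

/-- The flip events. -/
noncomputable def evF (q : ℕ) (i : I) (l : ℕ) : Finset ((Σ i, Fin (g i)) → ZMod l) :=
  open Classical in
  if h : l.Prime then (haveI := Fact.mk h; flipEvent g q i l) else ∅

/-- The irreducibility events. -/
noncomputable def evI (i : I) (l : ℕ) : Finset ((Σ i, Fin (g i)) → ZMod l) :=
  open Classical in
  if h : l.Prime then (haveI := Fact.mk h; irrEvent g i l) else ∅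

open Classical in
theorem ss_count (hg : ∀ i, 0 < g i) (i : I) : ∃ C : ℝ, 0 < C ∧ ∀ q : ℕ, IsPrimePow q →
    (((box (lo g q) (len g q)).filter
      (fun x => (q : ℤ) ∣ (polys g x i).nextCoeff ^ 2)).card : ℝ) ≤
      C * rate q * ∏ s, (len g q s : ℝ) := by
  have hl2 : 0 < Real.log 2 := Real.log_pos (by norm_num)
  refine ⟨2 * (16 ^ g i + 1) * (1 / Real.log 2), by positivity, ?_⟩
  intro q hq
  have hq0 : 0 < q := hq.pos
  have hgi := hg i
  set s₀ : Σ i, Fin (g i) := ⟨i, ⟨g i - 1, by omega⟩⟩ with hs₀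
  have hnext : ∀ x : (Σ i, Fin (g i)) → ℤ, (polys g x i).nextCoeff = x s₀ := by
    intro x
    unfold polys
    rw [nextCoeff_of_natDegree_pos (by rw [mkPoly_natDegree]; exact hgi), mkPoly_natDegree]
    exact mkPoly_coeff (g i) (fun k => x ⟨i, k⟩) ⟨g i - 1, by omega⟩
  set A : Finset ℤ := (Finset.Ico (lo g q s₀) (lo g q s₀ + (len g q s₀ : ℤ))).filter
    (fun t : ℤ => (q : ℤ) ∣ t ^ 2) with hA
  have hAcard : A.card ≤ 2 * (16 ^ g i + 1) := by
    refine card_sq_dvd hq0 (bd q (g i) (g i - 1)) (16 ^ g i) ?_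
    have h1 := bd_le q (g i) (g i - 1)
    have h2 : g i - (g i - 1) = 1 := by omega
    rw [h2, pow_one] at h1
    have h3 : ((bd q (g i) (g i - 1) : ℝ)) ^ 2 ≤ (4 ^ g i * Real.sqrt q) ^ 2 :=
      pow_le_pow_left₀ (Nat.cast_nonneg _) h1 2
    rw [mul_pow, Real.sq_sqrt (Nat.cast_nonneg q), ← pow_mul, mul_comm (g i) 2, pow_mul] at h3
    norm_num at h3
    exact_mod_cast h3
  have h1 : (box (lo g q) (len g q)).filter (fun x => (q : ℤ) ∣ (polys g x i).nextCoeff ^ 2) ⊆
      Fintype.piFinset (fun s => if s = s₀ then A else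
        Finset.Ico (lo g q s) (lo g q s + (len g q s : ℤ))) := by
    intro x hx
    obtain ⟨h2, h3⟩ := Finset.mem_filter.1 hx
    unfold box at h2
    rw [Fintype.mem_piFinset] at h2
    rw [Fintype.mem_piFinset]
    intro s
    split_ifs with h4
    · rw [hA, Finset.mem_filter, h4]
      refine ⟨h2 s₀, ?_⟩
      rw [← hnext x]
      exact h3
    · exact h2 s
  have h2 := Finset.card_le_card h1
  rw [Fintype.card_piFinset] at h2
  have hpos : ∀ s, (0 : ℝ) < len g q s := by
    intro s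
    have : 0 < len g q s := by
      unfold len
      omega
    exact_mod_cast this
  have h3 : ((∏ s, (if s = s₀ then A else
      Finset.Ico (lo g q s) (lo g q s + (len g q s : ℤ))).card : ℕ) : ℝ) =
      ((A.card : ℝ) / len g q s₀) * ∏ s, (len g q s : ℝ) := by
    push_cast
    have h4 : ∀ s, (((if s = s₀ then A else
        Finset.Ico (lo g q s) (lo g q s + (len g q s : ℤ))).card : ℕ) : ℝ) =
        (if s = s₀ then (A.card : ℝ) / len g q s₀ else 1) * (len g q s : ℝ) := by
      intro s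
      split_ifs with h5
      · rw [h5]
        have := (hpos s₀).ne'
        field_simp
      · rw [Int.card_Ico, one_mul]
        congr 1
        omega
    rw [Finset.prod_congr rfl fun s _ => h4 s, Finset.prod_mul_distrib, Finset.prod_ite_eq']
    simp
  have h5 : (((box (lo g q) (len g q)).filter
      (fun x => (q : ℤ) ∣ (polys g x i).nextCoeff ^ 2)).card : ℝ) ≤
      ((A.card : ℝ) / len g q s₀) * ∏ s, (len g q s : ℝ) := by
    rw [← h3]
    exact_mod_cast h2
  refine h5.trans (mul_le_mul_of_nonneg_right ?_ (Finset.prod_nonneg fun s _ => (hpos s).le))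
  have hA' : (A.card : ℝ) ≤ 2 * (16 ^ g i + 1) := by exact_mod_cast hAcard
  have hsq : 0 < Real.sqrt q := Real.sqrt_pos.2 (by exact_mod_cast hq0)
  calc (A.card : ℝ) / len g q s₀ ≤ (2 * (16 ^ g i + 1)) / Real.sqrt q :=
        div_le_div₀ (by positivity) hA' hsq (sqrt_le_len g hq0 s₀)
    _ = (2 * (16 ^ g i + 1)) * (1 / Real.sqrt q) := by ring
    _ ≤ (2 * (16 ^ g i + 1)) * ((1 / Real.log 2) * rate q) :=
        mul_le_mul_of_nonneg_left (inv_sqrt_le hq.two_le) (by positivity)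
    _ = 2 * (16 ^ g i + 1) * (1 / Real.log 2) * rate q := by ring

theorem flip_of_not {q : ℕ} {i : I} {x : (Σ i, Fin (g i)) → ℤ} {l₀ : ℕ} (hl₀ : 3 ≤ l₀)
    (hg : ∀ i, 0 < g i)
    (h : ¬ ∀ l : ℕ, l.Prime → l₀ ≤ l → ¬ l ∣ q → red l x ∉ evF g q i l) :
    ∃ l : ℕ, l.Prime ∧ l ≠ 2 ∧ ¬ l ∣ q ∧ FlipPattern q (polys g x) i l := by
  by_contra hcon
  apply h
  intro l hl hl0 hlq hmem
  apply hcon
  have : Fact l.Prime := ⟨hl⟩
  have h2 : evF g q i l = flipEvent g q i l := by
    unfold evF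
    rw [dif_pos hl]
  rw [h2] at hmem
  exact ⟨l, hl, by omega, hlq, flipPattern_of_mem g hg q i l x hmem⟩

theorem irr_of_not {q : ℕ} {i : I} {x : (Σ i, Fin (g i)) → ℤ} {l₀ : ℕ}
    (h : ¬ ∀ l : ℕ, l.Prime → l₀ ≤ l → ¬ l ∣ q → red l x ∉ evI g i l) :
    Irreducible ((polys g x i).map (Int.castRingHom ℚ)) := by
  by_contra hcon
  apply h
  intro l hl hl0 hlq hmem
  apply hcon
  have : Fact l.Prime := ⟨hl⟩
  have h2 : evI g i l = irrEvent g i l := by
    unfold evI
    rw [dif_pos hl]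
  rw [h2] at hmem
  exact irreducible_of_mem g i l x hmem

open Classical in
theorem bad_count (hg : ∀ i, 0 < g i) : ∃ C : ℝ, 0 < C ∧ ∀ q : ℕ, IsPrimePow q →
    (((box (lo g q) (len g q)).filter (fun x => ¬ Good g q x)).card : ℝ) ≤
      C * rate q * ∏ s, (len g q s : ℝ) := by
  have hcardι : Fintype.card (Σ i, Fin (g i)) = ∑ i, g i := by
    rw [Fintype.card_sigma]
    simp
  set cF : ℝ := 1 / (∏ i, 4 ^ g i * (g i).factorial : ℕ) with hcF
  set cI : ℝ := 1 / (∏ i, 2 * g i : ℕ) with hcI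
  have hcFpos : 0 < cF := by
    have : 0 < (∏ i, 4 ^ g i * (g i).factorial : ℕ) :=
      Finset.prod_pos fun i _ => by positivity
    positivity
  have hcIpos : 0 < cI := by
    have : 0 < (∏ i, 2 * g i : ℕ) := Finset.prod_pos fun i _ => by have := hg i; positivity
    positivity
  set l₀ : ℕ := ∑ i, (4 * g i + 12) + 3 with hl₀
  have hl₀' : ∀ i l, l₀ ≤ l → 4 * g i + 12 ≤ l := by
    intro i l hl
    have := Finset.single_le_sum (f := fun i => 4 * g i + 12) (fun j _ => Nat.zero_le _)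
      (Finset.mem_univ i)
    omega
  obtain ⟨CF, hCF, hF⟩ := sieve_bound (Fintype.card (Σ i, Fin (g i))) cF hcFpos l₀
  obtain ⟨CI, hCI, hI⟩ := sieve_bound (Fintype.card (Σ i, Fin (g i))) cI hcIpos l₀
  choose CS hCS hS using ss_count g hg
  refine ⟨(∑ i, (CF + CI + CS i)) + 1, ?_, ?_⟩
  · have : 0 ≤ ∑ i, (CF + CI + CS i) := Finset.sum_nonneg fun i _ => by
      have := hCS i
      positivity
    linarith
  intro q hq
  have hq0 := hq.pos
  have hprod : (0 : ℝ) ≤ ∏ s, (len g q s : ℝ) := Finset.prod_nonneg fun s _ => Nat.cast_nonneg _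
  have hlen : ∀ s, Real.sqrt q ≤ (len g q s : ℝ) := sqrt_le_len g hq0
  -- the three kinds of exceptional sets
  let ZF : I → Finset ((Σ i, Fin (g i)) → ℤ) := fun i => (box (lo g q) (len g q)).filter
    (fun x => ∀ l : ℕ, l.Prime → l₀ ≤ l → ¬ l ∣ q → red l x ∉ evF g q i l)
  let ZI : I → Finset ((Σ i, Fin (g i)) → ℤ) := fun i => (box (lo g q) (len g q)).filter
    (fun x => ∀ l : ℕ, l.Prime → l₀ ≤ l → ¬ l ∣ q → red l x ∉ evI g i l)
  let ZS : I → Finset ((Σ i, Fin (g i)) → ℤ) := fun i => (box (lo g q) (len g q)).filter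
    (fun x => (q : ℤ) ∣ (polys g x i).nextCoeff ^ 2)
  have hZF : ∀ i, ((ZF i).card : ℝ) ≤ CF * rate q * ∏ s, (len g q s : ℝ) := by
    intro i
    refine hF q hq rfl (evF g q i) ?_ (lo g q) (len g q) hlen
    intro l hl hl0 hlq
    have : Fact l.Prime := ⟨hl⟩
    have h1 := flipEvent_lower g hg q i l (fun j => hl₀' j l hl0) hlq
    have h2 : evF g q i l = flipEvent g q i l := by
      unfold evF
      rw [dif_pos hl]
    rw [h2, hcF, hcardι, one_div, inv_mul_le_iff₀ (by
      have : 0 < (∏ i, 4 ^ g i * (g i).factorial : ℕ) :=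
        Finset.prod_pos fun i _ => by positivity
      exact_mod_cast this)]
    exact_mod_cast h1
  have hZI : ∀ i, ((ZI i).card : ℝ) ≤ CI * rate q * ∏ s, (len g q s : ℝ) := by
    intro i
    refine hI q hq rfl (evI g i) ?_ (lo g q) (len g q) hlen
    intro l hl hl0 hlq
    have : Fact l.Prime := ⟨hl⟩
    have h1 := irrEvent_lower g hg i l (by omega)
    have h2 : evI g i l = irrEvent g i l := by
      unfold evI
      rw [dif_pos hl]
    rw [h2, hcI, hcardι, one_div, inv_mul_le_iff₀ (by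
      have : 0 < (∏ i, 2 * g i : ℕ) := Finset.prod_pos fun i _ => by have := hg i; positivity
      exact_mod_cast this)]
    exact_mod_cast h1
  have hsub : (box (lo g q) (len g q)).filter (fun x => ¬ Good g q x) ⊆
      Finset.univ.biUnion (fun i => ZF i ∪ ZI i ∪ ZS i) := by
    intro x hx
    obtain ⟨h1, h2⟩ := Finset.mem_filter.1 hx
    by_contra h3
    apply h2
    have h4 : ∀ i, x ∉ ZF i ∧ x ∉ ZI i ∧ x ∉ ZS i := by
      intro i
      have h5 : x ∉ ZF i ∪ ZI i ∪ ZS i := fun h6 =>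
        h3 (Finset.mem_biUnion.2 ⟨i, Finset.mem_univ i, h6⟩)
      rw [Finset.mem_union, Finset.mem_union] at h5
      exact ⟨fun h => h5 (Or.inl (Or.inl h)), fun h => h5 (Or.inl (Or.inr h)),
        fun h => h5 (Or.inr h)⟩
    refine ⟨fun i => ?_, fun i => ?_, fun i => ?_⟩
    · exact flip_of_not g (l₀ := l₀) (by omega) hg
        (fun h => (h4 i).1 (Finset.mem_filter.2 ⟨h1, h⟩))
    · exact irr_of_not g (l₀ := l₀) (fun h => (h4 i).2.1 (Finset.mem_filter.2 ⟨h1, h⟩))
    · exact fun h => (h4 i).2.2 (Finset.mem_filter.2 ⟨h1, h⟩)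
  have hcard : (((box (lo g q) (len g q)).filter (fun x => ¬ Good g q x)).card : ℝ) ≤
      ∑ i, (((ZF i).card : ℝ) + (ZI i).card + (ZS i).card) := by
    have h1 := Finset.card_le_card hsub
    have h2 := h1.trans (Finset.card_biUnion_le)
    have h3 : ∑ i, (ZF i ∪ ZI i ∪ ZS i).card ≤ ∑ i, ((ZF i).card + (ZI i).card + (ZS i).card) := by
      refine Finset.sum_le_sum fun i _ => ?_
      refine (Finset.card_union_le _ _).trans (Nat.add_le_add_right (Finset.card_union_le _ _) _)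
    exact_mod_cast h2.trans h3
  calc (((box (lo g q) (len g q)).filter (fun x => ¬ Good g q x)).card : ℝ) ≤
      ∑ i, (((ZF i).card : ℝ) + (ZI i).card + (ZS i).card) := hcard
    _ ≤ ∑ i, ((CF + CI + CS i) * rate q * ∏ s, (len g q s : ℝ)) := by
        refine Finset.sum_le_sum fun i _ => ?_
        have h1 := hZF i
        have h2 := hZI i
        have h3 : ((ZS i).card : ℝ) ≤ CS i * rate q * ∏ s, (len g q s : ℝ) := hS i q hq
        have h4 : (CF + CI + CS i) * rate q * ∏ s, (len g q s : ℝ) =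
          CF * rate q * ∏ s, (len g q s : ℝ) + CI * rate q * ∏ s, (len g q s : ℝ) +
            CS i * rate q * ∏ s, (len g q s : ℝ) := by ring
        rw [h4]
        linarith
    _ = (∑ i, (CF + CI + CS i)) * rate q * ∏ s, (len g q s : ℝ) := by
        rw [← Finset.sum_mul, ← Finset.sum_mul]
    _ ≤ ((∑ i, (CF + CI + CS i)) + 1) * rate q * ∏ s, (len g q s : ℝ) := by
        refine mul_le_mul_of_nonneg_right ?_ hprod
        refine mul_le_mul_of_nonneg_right ?_ (rate_nonneg q)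
        linarith

end

end Pool.Agent.W521.Bad
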