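import Mathlib
import Pool.Agent.W521.Bad

/-!
# The count of exceptional tuples of Weil polynomials
-/

set_option autoImplicit false

namespace Pool.Agent.W521.Total

open Polynomial Pool.Agent.W521.Frob Pool.Agent.W521.Descent Pool.Agent.W521.Density
  Pool.Agent.W521.Count Pool.Agent.W521.Turan Pool.Agent.W521.Sieve Pool.Agent.W521.Bad

variable {I : Type} [Fintype I] [DecidableEq I] (g : I → ℕ)

omit [Fintype I] [DecidableEq I] in
theorem len_le {q : ℕ} (hq : 0 < q) (s : Σ i, Fin (g i)) :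
    (len g q s : ℝ) ≤ 3 * 4 ^ g s.1 * Real.sqrt q ^ (g s.1 - (s.2 : ℕ)) := by
  have h1 := bd_le q (g s.1) s.2
  have h2 : (1 : ℝ) ≤ Real.sqrt q := by
    rw [Real.one_le_sqrt]
    exact_mod_cast hq
  have h3 : (1 : ℝ) ≤ 4 ^ g s.1 * Real.sqrt q ^ (g s.1 - (s.2 : ℕ)) :=
    one_le_mul_of_one_le_of_one_le (one_le_pow₀ (by norm_num)) (one_le_pow₀ h2)
  unfold len
  push_cast
  linarith

omit [DecidableEq I] in
theorem prod_len_le {q : ℕ} (hq : IsPrimePow q) (hg : ∀ i, 0 < g i) :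
    ∏ s, (len g q s : ℝ) ≤ (∏ i, ((3 * 4 ^ g i) ^ g i * (4 * 2 ^ (g i ^ 2)))) *
      ∏ i, ((ordinaryWeilPolys q (g i)).ncard : ℝ) := by
  rw [Fintype.prod_sigma, ← Finset.prod_mul_distrib]
  refine Finset.prod_le_prod (fun i _ => Finset.prod_nonneg fun k _ => Nat.cast_nonneg _) ?_
  intro i _
  calc ∏ k : Fin (g i), (len g q ⟨i, k⟩ : ℝ) ≤
      ∏ k : Fin (g i), ((3 * 4 ^ g i) * Real.sqrt q ^ (g i - (k : ℕ))) :=
        Finset.prod_le_prod (fun k _ => Nat.cast_nonneg _) fun k _ => len_le g hq.pos ⟨i, k⟩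
    _ = (3 * 4 ^ g i) ^ g i * ∏ k : Fin (g i), Real.sqrt q ^ (g i - (k : ℕ)) := by
        rw [Finset.prod_mul_distrib, Finset.prod_const, Finset.card_univ, Fintype.card_fin]
    _ ≤ (3 * 4 ^ g i) ^ g i * (4 * 2 ^ (g i ^ 2) * ((ordinaryWeilPolys q (g i)).ncard : ℝ)) :=
        mul_le_mul_of_nonneg_left (ordinary_lower hq (hg i)) (by positivity)
    _ = _ := by ring

/-- The tuples of Weil polynomials are finite in number. -/
theorem finite_tuples {q : ℕ} (hq : q ≠ 0) :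
    {f : I → ℤ[X] | ∀ i, f i ∈ weilPolys q (g i)}.Finite := by
  have h1 : (Set.pi Set.univ (fun i => weilPolys q (g i))).Finite :=
    Set.Finite.pi fun i => finite_weilPolys hq
  refine h1.subset ?_
  intro f hf i _
  exact hf i

theorem main_count (hg : ∀ i, 0 < g i) : ∃ C : ℝ, 0 < C ∧ ∀ q : ℕ, IsPrimePow q →
    ∀ P : (I → ℤ[X]) → Prop, (∀ x, Good g q x → P (fun i => weil q (polys g x i))) →
    ({f : I → ℤ[X] | (∀ i, f i ∈ weilPolys q (g i)) ∧ ¬ P f}.ncard : ℝ) ≤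
      C * rate q * ∏ i, ((ordinaryWeilPolys q (g i)).ncard : ℝ) := by
  classical
  obtain ⟨C, hC, hbad⟩ := bad_count g hg
  have hK : 0 < ∏ i, ((3 * 4 ^ g i) ^ g i * (4 * 2 ^ (g i ^ 2)) : ℝ) :=
    Finset.prod_pos fun i _ => by positivity
  refine ⟨C * ∏ i, ((3 * 4 ^ g i) ^ g i * (4 * 2 ^ (g i ^ 2))), mul_pos hC hK, ?_⟩
  intro q hq P hP
  have hq0 := hq.pos
  let F : ((Σ i, Fin (g i)) → ℤ) → (I → ℤ[X]) := fun x i => weil q (polys g x i)
  have hsub : {f : I → ℤ[X] | (∀ i, f i ∈ weilPolys q (g i)) ∧ ¬ P f} ⊆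
      F '' (((box (lo g q) (len g q)).filter (fun x => ¬ Good g q x) : Finset _) : Set _) := by
    rintro f ⟨hf, hPf⟩
    choose x hx hxb using fun i => exists_point hq0.ne' (hf i)
    have hfx : f = F (fun s => x s.1 s.2) := by
      funext i
      exact hx i
    refine ⟨fun s => x s.1 s.2, ?_, hfx.symm⟩
    rw [Finset.mem_coe, Finset.mem_filter]
    constructor
    · unfold box
      rw [Fintype.mem_piFinset]
      intro s
      rw [Finset.mem_Ico]
      have h1 := abs_le.1 (hxb s.1 s.2)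
      unfold lo len
      push_cast
      omega
    · intro hgood
      apply hPf
      rw [hfx]
      exact hP _ hgood
  have h1 := Set.ncard_le_ncard hsub ((Finset.finite_toSet _).image _)
  have h2 := h1.trans (Set.ncard_image_le (Finset.finite_toSet _))
  rw [Set.ncard_coe_finset] at h2
  have h3 := hbad q hq
  have h4 : ({f : I → ℤ[X] | (∀ i, f i ∈ weilPolys q (g i)) ∧ ¬ P f}.ncard : ℝ) ≤
      (((box (lo g q) (len g q)).filter (fun x => ¬ Good g q x)).card : ℝ) := by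
    exact_mod_cast h2
  calc ({f : I → ℤ[X] | (∀ i, f i ∈ weilPolys q (g i)) ∧ ¬ P f}.ncard : ℝ) ≤
      C * rate q * ∏ s, (len g q s : ℝ) := h4.trans h3
    _ ≤ C * rate q * ((∏ i, ((3 * 4 ^ g i) ^ g i * (4 * 2 ^ (g i ^ 2)))) *
      ∏ i, ((ordinaryWeilPolys q (g i)).ncard : ℝ)) :=
        mul_le_mul_of_nonneg_left (prod_len_le g hq hg) (mul_nonneg hC.le (rate_nonneg q))
    _ = _ := by ring

end Pool.Agent.W521.Total
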