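import Mathlib
import Pool.Agent.W521.Pole
import Pool.Agent.W521.Total

/-!
# The formula for the orders of the poles, for almost all Weil polynomials
-/

set_option autoImplicit false

namespace Pool.Agent.W521.Formula

open Polynomial Module Pool.Agent.W521.Frob Pool.Agent.W521.Descent Pool.Agent.W521.Density
  Pool.Agent.W521.Count Pool.Agent.W521.Bad Pool.Agent.W521.Pole

/-- For every finite dimensional complex vector space `V` and every endomorphism `F` of `V` such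
that `V` is spanned by eigenvectors of `F` with eigenvalues among the roots of the polynomials
`f i`, for all `s > 0` and all `n`: the order at `n` of the zeta function of `F ^ s` is
the opposite of the dimension of the span of the products of `n` elements `y` of `⋀ ^ 2 V` with
`F y = q y`. -/
def PoleFormula {I : Type} (q : ℕ) (f : I → ℤ[X]) : Prop :=
  ∀ (V : Type) [AddCommGroup V] [Module ℂ V] [FiniteDimensional ℂ V] (F : V →ₗ[ℂ] V),
    Submodule.span ℂ {v : V | ∃ i, ∃ z : ℂ, aeval z (f i) = 0 ∧ F v = z • v} = ⊤ →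
    ∀ s : ℕ, 0 < s → ∀ n : ℕ,
      meromorphicOrderAt (zeta ((q : ℝ) ^ s) (F ^ s)) (n : ℂ) =
        ((- (finrank ℂ (divisorProducts (q : ℂ) F n) : ℤ) : ℤ) : WithTop ℤ)

theorem formula_of_good {I : Type} [Fintype I] [DecidableEq I] (g : I → ℕ) {q : ℕ} (hq : 2 ≤ q)
    (x : (Σ i, Fin (g i)) → ℤ) (hx : Good g q x)
    (hw : ∀ i, weil q (polys g x i) ∈ weilPolys q (g i)) :
    PoleFormula q (fun i => weil q (polys g x i)) := by
  intro V _ _ _ F hF s hs n
  obtain ⟨hpat, hirr, hss⟩ := hx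
  have hq0 : q ≠ 0 := by omega
  have hm : ∀ i, (polys g x i).Monic := fun i => mkPoly_monic (g i) _
  have hq1 : (1 : ℝ) < q := by
    have : 1 < q := by omega
    exact_mod_cast this
  have hcast : (((q : ℕ) : ℝ) : ℂ) = (q : ℂ) := by push_cast; rfl
  have hspan : Submodule.span ℂ {v : V | ∃ μ : ℂ,
      μ ∈ {z : ℂ | ∃ i, aeval z (weil q (polys g x i)) = 0} ∧ F v = μ • v} = ⊤ := by
    rw [← hF]
    congr 1
    ext v
    constructor
    · rintro ⟨μ, ⟨i, hi⟩, h⟩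
      exact ⟨i, μ, hi, h⟩
    · rintro ⟨i, μ, hi, h⟩
      exact ⟨μ, ⟨i, hi⟩, h⟩
  have key := zeta_order_ext (q : ℝ) hq1 F {z : ℂ | ∃ i, aeval z (weil q (polys g x i)) = 0} ?_
    hspan s hs ?_ n
  · rw [hcast] at key
    exact key
  · rintro μ ⟨i, hi⟩
    exact (hw i).2.2.2 μ hi
  · intro m y hy hFy
    rw [hcast] at hFy ⊢
    refine Pool.Agent.H925R2.mem_adjoin_of_balanced F (q : ℂ)
      {z : ℂ | ∃ i, aeval z (weil q (polys g x i)) = 0} ?_ hspan m s ?_ y hy hFy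
    · intro z hz
      exact Criterion.ne_conj hq0 hm hirr hpat z hz
    · intro T _ hT hprod z hz
      have := Criterion.balanced hq0 hm hirr hpat hss T m s hs hT hprod z hz
      convert this

theorem formula_count {I : Type} [Fintype I] (g : I → ℕ) (hg : ∀ i, 0 < g i) :
    ∃ C : ℝ, ∀ q : ℕ, IsPrimePow q →
      ({f : I → ℤ[X] | (∀ i, f i ∈ weilPolys q (g i)) ∧ ¬ PoleFormula q f}.ncard : ℝ) ≤
        C * (Real.log q * (q : ℝ) ^ (-(1 / 6) : ℝ)) *
          ∏ i, ((ordinaryWeilPolys q (g i)).ncard : ℝ) := by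
  classical
  obtain ⟨C, hC, h⟩ := Total.main_count g hg
  refine ⟨C, fun q hq => ?_⟩
  have h1 := h q hq (fun f => (∀ i, f i ∈ weilPolys q (g i)) → PoleFormula q f)
    (fun x hx hw => formula_of_good g hq.two_le x hx hw)
  have h2 : {f : I → ℤ[X] | (∀ i, f i ∈ weilPolys q (g i)) ∧
      ¬ ((∀ i, f i ∈ weilPolys q (g i)) → PoleFormula q f)} =
      {f : I → ℤ[X] | (∀ i, f i ∈ weilPolys q (g i)) ∧ ¬ PoleFormula q f} := by
    ext f
    constructor
    · rintro ⟨h3, h4⟩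
      exact ⟨h3, fun h5 => h4 fun _ => h5⟩
    · rintro ⟨h3, h4⟩
      exact ⟨h3, fun h5 => h4 (h5 h3)⟩
  rw [h2] at h1
  exact h1

/-- The same with arbitrary sets of Weil polynomials that contain the ordinary ones. -/
theorem formula_count_between {I : Type} [Fintype I] (g : I → ℕ) (hg : ∀ i, 0 < g i) :
    ∃ C : ℝ, ∀ q : ℕ, IsPrimePow q → ∀ S : I → Set ℤ[X],
      (∀ i, ordinaryWeilPolys q (g i) ⊆ S i ∧ S i ⊆ weilPolys q (g i)) →
      (∀ i, (S i).Finite ∧ (S i).Nonempty) ∧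
      ({f : I → ℤ[X] | (∀ i, f i ∈ S i) ∧ ¬ PoleFormula q f}.ncard : ℝ) ≤
        C * (Real.log q * (q : ℝ) ^ (-(1 / 6) : ℝ)) * ∏ i, ((S i).ncard : ℝ) := by
  classical
  obtain ⟨C, h⟩ := formula_count g hg
  refine ⟨|C|, fun q hq S hS => ⟨fun i => ⟨(finite_weilPolys hq.pos.ne').subset (hS i).2,
    ⟨_, (hS i).1 (ordinary_nonempty hq.pos (g i))⟩⟩, ?_⟩⟩
  have h1 := h q hq
  have hfin : {f : I → ℤ[X] | (∀ i, f i ∈ weilPolys q (g i)) ∧ ¬ PoleFormula q f}.Finite :=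
    (Total.finite_tuples g hq.pos.ne').subset fun f hf => hf.1
  have h2 : {f : I → ℤ[X] | (∀ i, f i ∈ S i) ∧ ¬ PoleFormula q f}.ncard ≤
      {f : I → ℤ[X] | (∀ i, f i ∈ weilPolys q (g i)) ∧ ¬ PoleFormula q f}.ncard :=
    Set.ncard_le_ncard (fun f hf => ⟨fun i => (hS i).2 (hf.1 i), hf.2⟩) hfin
  have hr : 0 ≤ Real.log q * (q : ℝ) ^ (-(1 / 6) : ℝ) := rate_nonneg q
  calc ({f : I → ℤ[X] | (∀ i, f i ∈ S i) ∧ ¬ PoleFormula q f}.ncard : ℝ) ≤
      ({f : I → ℤ[X] | (∀ i, f i ∈ weilPolys q (g i)) ∧ ¬ PoleFormula q f}.ncard : ℝ) := by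
        exact_mod_cast h2
    _ ≤ C * (Real.log q * (q : ℝ) ^ (-(1 / 6) : ℝ)) *
          ∏ i, ((ordinaryWeilPolys q (g i)).ncard : ℝ) := h1
    _ ≤ |C| * (Real.log q * (q : ℝ) ^ (-(1 / 6) : ℝ)) *
          ∏ i, ((ordinaryWeilPolys q (g i)).ncard : ℝ) := by
        refine mul_le_mul_of_nonneg_right (mul_le_mul_of_nonneg_right (le_abs_self C) hr) ?_
        exact Finset.prod_nonneg fun i _ => Nat.cast_nonneg _
    _ ≤ |C| * (Real.log q * (q : ℝ) ^ (-(1 / 6) : ℝ)) * ∏ i, ((S i).ncard : ℝ) := by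
        refine mul_le_mul_of_nonneg_left ?_ (mul_nonneg (abs_nonneg C) hr)
        refine Finset.prod_le_prod (fun i _ => Nat.cast_nonneg _) fun i _ => ?_
        exact_mod_cast Set.ncard_le_ncard (hS i).1 ((finite_weilPolys hq.pos.ne').subset (hS i).2)

end Pool.Agent.W521.Formula
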